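import Mathlib

/-!
# The complex deltoid

The curve `z^2 w^2 - 4 z^3 - 4 w^3 + 18 z w - 27 = 0` in the complex plane, parametrised by
`t ↦ (2 t + t^(-2), t^2 + 2 t^(-1))`, `t ≠ 0`.
-/

set_option autoImplicit false

namespace Pool.Agent.R844.Deltoid

open MvPolynomial

/-- the equation of the deltoid -/
noncomputable def F : MvPolynomial (Fin 2) ℂ :=
  X 0 ^ 2 * X 1 ^ 2 - C 4 * X 0 ^ 3 - C 4 * X 1 ^ 3 + C 18 * (X 0 * X 1) - C 27

/-- first coordinate of the parametrisation -/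
noncomputable def z (t : ℂ) : ℂ := 2 * t + (t ^ 2)⁻¹

/-- second coordinate of the parametrisation -/
noncomputable def w (t : ℂ) : ℂ := t ^ 2 + 2 * t⁻¹

theorem eval_F (p : Fin 2 → ℂ) :
    eval p F = p 0 ^ 2 * p 1 ^ 2 - 4 * p 0 ^ 3 - 4 * p 1 ^ 3 + 18 * (p 0 * p 1) - 27 := by
  simp [F]

theorem eval_F0 (p : Fin 2 → ℂ) :
    eval p (pderiv 0 F) = 2 * p 0 * p 1 ^ 2 - 12 * p 0 ^ 2 + 18 * p 1 := by
  simp [F, pderiv_X]
  ring

theorem eval_F1 (p : Fin 2 → ℂ) :
    eval p (pderiv 1 F) = 2 * p 0 ^ 2 * p 1 - 12 * p 1 ^ 2 + 18 * p 0 := by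
  simp [F, pderiv_X]
  ring

theorem on_curve {t : ℂ} (ht : t ≠ 0) :
    z t ^ 2 * w t ^ 2 - 4 * z t ^ 3 - 4 * w t ^ 3 + 18 * (z t * w t) - 27 = 0 := by
  unfold z w
  field_simp
  ring

theorem grad0 {t : ℂ} (ht : t ≠ 0) :
    2 * z t * w t ^ 2 - 12 * z t ^ 2 + 18 * w t = 4 * (t ^ 3 - 1) ^ 3 / t ^ 4 := by
  unfold z w
  field_simp
  ring

theorem grad1 {t : ℂ} (ht : t ≠ 0) :
    2 * z t ^ 2 * w t - 12 * w t ^ 2 + 18 * z t = - (4 * (t ^ 3 - 1) ^ 3 / t ^ 5) := by
  unfold z w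
  field_simp
  ring

theorem inj {t s : ℂ} (ht : t ≠ 0) (hs : s ≠ 0) (h0 : z t = z s) (h1 : w t = w s) : t = s := by
  by_contra hne
  have hts : t - s ≠ 0 := sub_ne_zero.2 hne
  -- `t` is a double root of `X ^ 3 - z X ^ 2 + w X - 1`
  have e1 : t ^ 3 - z t * t ^ 2 + w t * t - 1 = 0 := by
    unfold z w; field_simp; ring
  have e2 : 3 * t ^ 2 - 2 * z t * t + w t = 0 := by
    unfold z w; field_simp; ring
  rw [h0, h1] at e1 e2
  have e3 : (t - s) ^ 2 * (t * s ^ 2 - 1) = 0 := by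
    have : (t - s) ^ 2 * (t * s ^ 2 - 1) = s ^ 2 * (t ^ 3 - z s * t ^ 2 + w s * t - 1) := by
      unfold z w; field_simp; ring
    rw [this, e1, mul_zero]
  have e4 : (t - s) * (3 * t * s ^ 2 - s ^ 3 - 2) = 0 := by
    have : (t - s) * (3 * t * s ^ 2 - s ^ 3 - 2) = s ^ 2 * (3 * t ^ 2 - 2 * z s * t + w s) := by
      unfold z w; field_simp; ring
    rw [this, e2, mul_zero]
  have e5 : t * s ^ 2 - 1 = 0 := by
    rcases mul_eq_zero.1 e3 with h | h
    · exact absurd (pow_eq_zero_iff (two_ne_zero)|>.1 h) hts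
    · exact h
  have e6 : 3 * t * s ^ 2 - s ^ 3 - 2 = 0 := (mul_eq_zero.1 e4).resolve_left hts
  have e7 : s ^ 2 * (t - s) = 0 := by linear_combination e6 - 2 * e5
  rcases mul_eq_zero.1 e7 with h | h
  · exact hs (pow_eq_zero_iff (two_ne_zero)|>.1 h)
  · exact hts h

theorem surj {x y : ℂ} (h : x ^ 2 * y ^ 2 - 4 * x ^ 3 - 4 * y ^ 3 + 18 * (x * y) - 27 = 0) :
    ∃ t : ℂ, t ≠ 0 ∧ z t = x ∧ w t = y := by
  -- roots of `X ^ 3 - x X ^ 2 + y X - 1`
  obtain ⟨a, ha⟩ : ∃ a : ℂ, a ^ 3 - x * a ^ 2 + y * a - 1 = 0 := by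
    have hdeg : (Polynomial.X ^ 3 - Polynomial.C x * Polynomial.X ^ 2 +
        Polynomial.C y * Polynomial.X - 1 : Polynomial ℂ).degree = 3 := by
      compute_degree!
    obtain ⟨a, ha⟩ := IsAlgClosed.exists_root _ (by rw [hdeg]; norm_num)
    refine ⟨a, ?_⟩
    simpa [Polynomial.IsRoot] using ha
  have ha0 : a ≠ 0 := by
    rintro rfl
    norm_num at ha
  obtain ⟨s, hs⟩ := IsAlgClosed.exists_pow_nat_eq ((x - a) ^ 2 - 4 * a⁻¹) (n := 2) (by norm_num)
  set b := (x - a + s) / 2 with hb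
  set c := (x - a - s) / 2 with hc
  have hx : a + b + c = x := by rw [hb, hc]; ring
  have hbc : a * (b * c) = 1 := by
    have : b * c = ((x - a) ^ 2 - s ^ 2) / 4 := by rw [hb, hc]; ring
    rw [this, hs]; field_simp; ring
  have hy : a * b + a * c + b * c = y := by
    have h1 : a * (a * b + a * c + b * c) = a * y := by
      have h2 : a * (a * b + a * c + b * c) = a ^ 2 * (x - a) + a * (b * c) := by
        rw [hb, hc]; ring
      rw [h2, hbc]; linear_combination -ha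
    exact mul_left_cancel₀ ha0 h1
  have hd : (a - b) ^ 2 * (a - c) ^ 2 * (b - c) ^ 2 = 0 := by
    rw [← hx, ← hy] at h
    have hbc2 : a * b * c = 1 := by rw [mul_assoc]; exact hbc
    have key : (a - b) ^ 2 * (a - c) ^ 2 * (b - c) ^ 2 =
        (a + b + c) ^ 2 * (a * b + a * c + b * c) ^ 2 - 4 * (a + b + c) ^ 3 * (a * b * c)
          - 4 * (a * b + a * c + b * c) ^ 3
          + 18 * ((a + b + c) * (a * b + a * c + b * c)) * (a * b * c) - 27 * (a * b * c) ^ 2 := by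
      ring
    rw [key, hbc2]
    linear_combination h
  -- if two of the roots agree we are done
  have main : ∀ u v : ℂ, u + u + v = x → u * u + u * v + u * v = y → u * (u * v) = 1 →
      ∃ t : ℂ, t ≠ 0 ∧ z t = x ∧ w t = y := by
    intro u v h1 h2 h3
    have hu : u ≠ 0 := by
      rintro rfl
      simp at h3
    have hv : v = (u ^ 2)⁻¹ := by
      apply eq_inv_of_mul_eq_one_left
      linear_combination h3
    refine ⟨u, hu, ?_, ?_⟩
    · unfold z
      rw [← hv, ← h1]; ring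
    · unfold w
      rw [← h2, hv]; field_simp; ring
  rcases mul_eq_zero.1 hd with h1 | h1
  · rcases mul_eq_zero.1 h1 with h2 | h2
    · have h3 : a = b := sub_eq_zero.1 (pow_eq_zero_iff (two_ne_zero)|>.1 h2)
      rw [← h3] at hx hy hbc
      exact main a c (by linear_combination hx) (by linear_combination hy)
        (by linear_combination hbc)
    · have h3 : a = c := sub_eq_zero.1 (pow_eq_zero_iff (two_ne_zero)|>.1 h2)
      rw [← h3] at hx hy hbc
      exact main a b (by linear_combination hx) (by linear_combination hy)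
        (by linear_combination hbc)
  · have h3 : b = c := sub_eq_zero.1 (pow_eq_zero_iff (two_ne_zero)|>.1 h1)
    rw [← h3] at hx hy hbc
    exact main b a (by linear_combination hx) (by linear_combination hy)
        (by linear_combination hbc)

end Pool.Agent.R844.Deltoid
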