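import Mathlib
import Pool.Agent.R844.Deltoid

/-!
# The complex deltoid is homeomorphic to the punctured plane
-/

set_option autoImplicit false

namespace Pool.Agent.R844.Deltoid

open MvPolynomial Topology Set

/-- the punctured plane -/
abbrev Cs : Type := {t : ℂ // t ≠ 0}

/-- the parametrisation as a map to the plane -/
noncomputable def phi (t : Cs) : Fin 2 → ℂ := ![z t, w t]

theorem phi_zero (t : Cs) : phi t 0 = z t := rfl
theorem phi_one (t : Cs) : phi t 1 = w t := rfl

theorem continuous_phi : Continuous phi := by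
  unfold phi z w
  apply continuous_pi
  intro i
  fin_cases i
  · simp only [Fin.zero_eta, Matrix.cons_val_zero]
    exact (continuous_const.mul continuous_subtype_val).add
      ((continuous_subtype_val.pow 2).inv₀ (fun t => pow_ne_zero 2 t.2))
  · simp only [Fin.mk_one, Matrix.cons_val_one]
    exact (continuous_subtype_val.pow 2).add
      (continuous_const.mul (continuous_subtype_val.inv₀ (fun t => t.2)))

theorem phi_injective : Function.Injective phi := by
  intro t s h
  apply Subtype.ext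
  exact inj t.2 s.2 (congrFun h 0) (congrFun h 1)

theorem bound {t : ℂ} (ht : t ≠ 0) {R : ℝ} (hR : 0 ≤ R) (h0 : ‖z t‖ ≤ R) (h1 : ‖w t‖ ≤ R) :
    ‖t‖ ≤ R + 2 ∧ ‖t⁻¹‖ ≤ R + 2 := by
  have hpos : 0 < ‖t‖ := norm_pos_iff.2 ht
  constructor
  · by_contra hcon
    push Not at hcon
    have h2 : ‖t‖ ^ 2 ≤ R + 2 * ‖t⁻¹‖ := by
      have : t ^ 2 = w t - 2 * t⁻¹ := by unfold w; ring
      calc ‖t‖ ^ 2 = ‖t ^ 2‖ := (norm_pow _ _).symm
        _ = ‖w t - 2 * t⁻¹‖ := by rw [this]
        _ ≤ ‖w t‖ + ‖2 * t⁻¹‖ := norm_sub_le _ _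
        _ ≤ R + 2 * ‖t⁻¹‖ := by
            rw [norm_mul]
            have : ‖(2 : ℂ)‖ = 2 := by norm_num
            rw [this]
            linarith
    have h3 : ‖t⁻¹‖ ≤ 1 := by
      rw [norm_inv]
      apply inv_le_one_of_one_le₀
      linarith
    nlinarith
  · by_contra hcon
    push Not at hcon
    have h2 : ‖t⁻¹‖ ^ 2 ≤ R + 2 * ‖t‖ := by
      have : t⁻¹ ^ 2 = z t - 2 * t := by unfold z; ring
      calc ‖t⁻¹‖ ^ 2 = ‖t⁻¹ ^ 2‖ := (norm_pow _ _).symm
        _ = ‖z t - 2 * t‖ := by rw [this]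
        _ ≤ ‖z t‖ + ‖2 * t‖ := norm_sub_le _ _
        _ ≤ R + 2 * ‖t‖ := by
            rw [norm_mul]
            have : ‖(2 : ℂ)‖ = 2 := by norm_num
            rw [this]
            linarith
    have h3 : ‖t‖ ≤ 1 := by
      rw [norm_inv] at hcon
      by_contra h4
      push Not at h4
      have : ‖t‖⁻¹ ≤ 1 := inv_le_one_of_one_le₀ h4.le
      linarith
    nlinarith

theorem isProperMap_phi : IsProperMap phi := by
  rw [isProperMap_iff_isCompact_preimage]
  refine ⟨continuous_phi, fun K hK => ?_⟩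
  obtain ⟨R, hR⟩ := hK.isBounded.exists_norm_le
  set M : ℝ := |R| + 2 with hM
  have hM2 : 2 ≤ M := by rw [hM]; linarith [abs_nonneg R]
  have hcl : IsClosed (phi ⁻¹' K) := hK.isClosed.preimage continuous_phi
  have hA : IsCompact {t : Cs | M⁻¹ ≤ ‖(t : ℂ)‖ ∧ ‖(t : ℂ)‖ ≤ M} := by
    rw [IsEmbedding.subtypeVal.isCompact_iff]
    have : Subtype.val '' {t : Cs | M⁻¹ ≤ ‖(t : ℂ)‖ ∧ ‖(t : ℂ)‖ ≤ M} =
        Metric.closedBall (0 : ℂ) M ∩ {t : ℂ | M⁻¹ ≤ ‖t‖} := by
      ext t
      simp only [mem_image, mem_ofPred_eq, mem_inter_iff, Metric.mem_closedBall, dist_zero_right]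
      constructor
      · rintro ⟨s, ⟨h1, h2⟩, rfl⟩
        exact ⟨h2, h1⟩
      · rintro ⟨h1, h2⟩
        refine ⟨⟨t, ?_⟩, ⟨h2, h1⟩, rfl⟩
        rintro rfl
        rw [norm_zero] at h2
        have : 0 < M⁻¹ := by positivity
        linarith
    rw [this]
    apply (isCompact_closedBall _ _).inter_right
    exact isClosed_le continuous_const continuous_norm
  refine hA.of_isClosed_subset hcl ?_
  intro t ht
  have h1 := hR _ ht
  have h0 : ‖z t‖ ≤ |R| := (norm_le_pi_norm (phi t) 0).trans (h1.trans (le_abs_self R))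
  have h2 : ‖w t‖ ≤ |R| := (norm_le_pi_norm (phi t) 1).trans (h1.trans (le_abs_self R))
  obtain ⟨h3, h4⟩ := bound t.2 (abs_nonneg R) h0 h2
  refine ⟨?_, h3⟩
  rw [norm_inv] at h4
  have hpos : 0 < ‖(t : ℂ)‖ := norm_pos_iff.2 t.2
  exact inv_le_of_inv_le₀ hpos h4

theorem isClosedEmbedding_phi : IsClosedEmbedding phi :=
  IsClosedEmbedding.of_continuous_injective_isClosedMap continuous_phi phi_injective
    isProperMap_phi.isClosedMap

/-- the curve -/
abbrev Curve : Type := ↥{p : Fin 2 → ℂ | MvPolynomial.eval p F = 0}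

theorem range_phi : range phi = {p : Fin 2 → ℂ | MvPolynomial.eval p F = 0} := by
  ext p
  rw [mem_ofPred_eq, eval_F]
  constructor
  · rintro ⟨t, rfl⟩
    exact on_curve t.2
  · intro h
    obtain ⟨t, ht, h0, h1⟩ := surj h
    refine ⟨⟨t, ht⟩, ?_⟩
    funext i
    fin_cases i
    · exact h0
    · exact h1

/-- the curve is homeomorphic to the punctured plane -/
noncomputable def homeo : Cs ≃ₜ Curve :=
  isClosedEmbedding_phi.isEmbedding.toHomeomorph.trans (Homeomorph.setCongr range_phi)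

/-- the universal covering of the curve -/
theorem exists_cover : ∃ p : ℂ → Curve,
    IsAddQuotientCoveringMap p (AddSubgroup.zmultiples (2 * Real.pi * Complex.I)) :=
  ⟨_, Complex.isAddQuotientCoveringMap_exp.homeomorph_comp homeo⟩

/-- The first Betti number of the curve is at most one. -/
theorem finrank_le (x₀ : Curve) :
    Module.finrank ℤ (Additive (Abelianization (FundamentalGroup Curve x₀))) ≤ 1 := by
  obtain ⟨p, hp⟩ := exists_cover
  obtain ⟨u, hu⟩ := hp.surjective x₀
  let e := hp.fundamentalGroupEquiv (x := x₀) ⟨u, hu⟩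
  let g0 : (Multiplicative (AddSubgroup.zmultiples (2 * (Real.pi : ℂ) * Complex.I)))ᵐᵒᵖ :=
    MulOpposite.op (Multiplicative.ofAdd ⟨2 * Real.pi * Complex.I, AddSubgroup.mem_zmultiples _⟩)
  apply finrank_le_one (Additive.ofMul (Abelianization.of (e.symm g0)))
  intro y
  obtain ⟨y', hy'⟩ := QuotientGroup.mk_surjective (Additive.toMul y)
  change Abelianization.of y' = _ at hy'
  obtain ⟨n, hn⟩ : ∃ n : ℤ, g0 ^ n = e y' := by
    obtain ⟨n, hn⟩ := AddSubgroup.mem_zmultiples_iff.1 (Multiplicative.toAdd (MulOpposite.unop (e y'))).2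
    refine ⟨n, ?_⟩
    apply MulOpposite.unop_injective
    apply Multiplicative.toAdd.injective
    apply Subtype.ext
    rw [← hn]
    simp [g0]
  refine ⟨n, ?_⟩
  apply Additive.toMul.injective
  refine Eq.trans ?_ hy'
  rw [toMul_zsmul, toMul_ofMul, ← map_zpow, ← map_zpow, hn, MulEquiv.symm_apply_apply]

end Pool.Agent.R844.Deltoid
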