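import Mathlib
import Pool.Agent.R844.DeltoidTop

/-!
# The cusps of the complex deltoid are unibranch
-/

set_option autoImplicit false

namespace Pool.Agent.R844.Deltoid

open MvPolynomial Topology Set

/-- squared distance of `phi τ` to the cusp `phi 1` -/
noncomputable def rho (τ : ℂ) : ℝ := ‖z τ - 3‖ ^ 2 + ‖w τ - 3‖ ^ 2

theorem z_sub {τ : ℂ} (hτ : τ ≠ 0) : z τ - 3 = (τ - 1) ^ 2 * (2 * τ + 1) / τ ^ 2 := by
  unfold z; field_simp; ring

theorem w_sub {τ : ℂ} (hτ : τ ≠ 0) : w τ - 3 = (τ - 1) ^ 2 * (τ + 2) / τ := by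
  unfold w; field_simp; ring

theorem z_one : z 1 = 3 := by unfold z; norm_num

theorem w_one : w 1 = 3 := by unfold w; norm_num

theorem ne_zero_of {h : ℂ} (hh : ‖h‖ ≤ 1 / 8) : 1 + h ≠ 0 := by
  intro h0
  have : h = -1 := by linear_combination h0
  rw [this] at hh
  norm_num at hh

theorem mono {h : ℂ} (hh : ‖h‖ ≤ 1 / 8) {l : ℝ} (h0 : 0 ≤ l) (h1 : l ≤ 1) :
    rho (1 + l * h) ≤ rho (1 + h) := by
  have hl : ‖(l : ℂ) * h‖ ≤ 1 / 8 := by
    rw [norm_mul, Complex.norm_real, Real.norm_of_nonneg h0]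
    nlinarith [norm_nonneg h]
  have hn0 := ne_zero_of hh
  have hn1 := ne_zero_of hl
  set x : ℝ := (1 - l) * ‖h‖ with hx
  have hx0 : 0 ≤ x := mul_nonneg (by linarith) (norm_nonneg _)
  have hx1 : x ≤ (1 - l) / 8 := by
    rw [hx]; nlinarith
  have hQ : 7 / 8 ≤ ‖1 + (l : ℂ) * h‖ := by
    have : ‖(1 : ℂ)‖ - ‖-((l : ℂ) * h)‖ ≤ ‖1 - -((l : ℂ) * h)‖ := norm_sub_norm_le _ _
    rw [norm_neg, norm_one, sub_neg_eq_add] at this
    linarith
  have hstep : ∀ c d : ℂ, ‖c + d * ((l : ℂ) * h)‖ ≤ ‖c + d * h‖ + ‖d‖ * x := by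
    intro c d
    have e : c + d * ((l : ℂ) * h) = (c + d * h) - d * (((1 - l : ℝ) : ℂ) * h) := by
      push_cast; ring
    rw [e]
    refine (norm_sub_le _ _).trans ?_
    rw [norm_mul, norm_mul, Complex.norm_real, Real.norm_of_nonneg (by linarith : (0:ℝ) ≤ 1 - l)]
  have hstep' : ‖1 + h‖ ≤ ‖1 + (l : ℂ) * h‖ + x := by
    have e : 1 + h = (1 + (l : ℂ) * h) + (((1 - l : ℝ) : ℂ) * h) := by
      push_cast; ring
    calc ‖1 + h‖ = ‖(1 + (l : ℂ) * h) + (((1 - l : ℝ) : ℂ) * h)‖ := by rw [← e]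
      _ ≤ _ := by
        refine (norm_add_le _ _).trans ?_
        rw [norm_mul (((1 - l : ℝ) : ℂ)), Complex.norm_real,
          Real.norm_of_nonneg (by linarith : (0:ℝ) ≤ 1 - l)]
  have hlow : ∀ c d : ℂ, ‖c‖ - ‖d‖ / 8 ≤ ‖c + d * h‖ := by
    intro c d
    have : ‖c‖ - ‖-(d * h)‖ ≤ ‖c - -(d * h)‖ := norm_sub_norm_le _ _
    rw [norm_neg, norm_mul, sub_neg_eq_add] at this
    have h3 : ‖d‖ * ‖h‖ ≤ ‖d‖ * (1 / 8) := mul_le_mul_of_nonneg_left hh (norm_nonneg _)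
    linarith
  set Q := ‖1 + (l : ℂ) * h‖ with hQdef
  have hQx : ‖1 + h‖ ≤ Q * (1 + 2 * x) := by nlinarith
  have hQ0 : 0 < Q := by linarith
  have hA : ‖z (1 + l * h) - 3‖ ≤ ‖z (1 + h) - 3‖ := by
    rw [z_sub hn0, z_sub hn1]
    have e1 : 1 + (l : ℂ) * h - 1 = l * h := by ring
    have e2 : 1 + h - 1 = h := by ring
    have e3 : 2 * (1 + (l : ℂ) * h) + 1 = 3 + 2 * ((l : ℂ) * h) := by ring
    have e4 : 2 * (1 + h) + 1 = 3 + 2 * h := by ring
    rw [e1, e2, e3, e4]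
    simp only [norm_div, norm_mul, norm_pow]
    rw [Complex.norm_real, Real.norm_of_nonneg h0]
    have hP := hstep 3 2
    have hP2 := hlow 3 2
    have n2 : ‖(2 : ℂ)‖ = 2 := by norm_num
    have n3 : ‖(3 : ℂ)‖ = 3 := by norm_num
    rw [n2] at hP hP2
    rw [n3] at hP2
    set P := ‖3 + 2 * h‖ with hPdef
    have hPx : ‖3 + 2 * ((l : ℂ) * h)‖ ≤ P * (1 + x) := by nlinarith
    have hH0 : 0 < ‖1 + h‖ := norm_pos_iff.2 hn0
    have hP0 : 0 < P := by linarith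
    rw [div_le_div_iff₀ (by positivity) (by positivity)]
    have k1 : l * (1 + x) ≤ 1 := by nlinarith
    have k2 : l * (1 + 2 * x) ^ 2 ≤ 1 := by
      have hxx : 1 + 2 * x ≤ 1 + (1 - l) / 4 := by linarith
      have : (1 + 2 * x) ^ 2 ≤ (1 + (1 - l) / 4) ^ 2 := by
        apply pow_le_pow_left₀ (by positivity) hxx
      have h5 : l * (1 + 2 * x) ^ 2 ≤ l * (1 + (1 - l) / 4) ^ 2 :=
        mul_le_mul_of_nonneg_left this h0
      have h6 : l * (1 + (1 - l) / 4) ^ 2 ≤ 1 := by nlinarith [sq_nonneg (1 - l), mul_nonneg h0 (by linarith : (0:ℝ) ≤ 1 - l)]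
      linarith
    have k3 : ‖1 + h‖ ^ 2 ≤ (Q * (1 + 2 * x)) ^ 2 := pow_le_pow_left₀ hH0.le hQx 2
    calc (l * ‖h‖) ^ 2 * ‖3 + 2 * ((l : ℂ) * h)‖ * ‖1 + h‖ ^ 2
        ≤ (l * ‖h‖) ^ 2 * (P * (1 + x)) * (Q * (1 + 2 * x)) ^ 2 := by gcongr
      _ = ‖h‖ ^ 2 * P * Q ^ 2 * ((l * (1 + x)) * (l * (1 + 2 * x) ^ 2)) := by ring
      _ ≤ ‖h‖ ^ 2 * P * Q ^ 2 * (1 * 1) := by gcongr
      _ = ‖h‖ ^ 2 * P * Q ^ 2 := by ring
  have hB : ‖w (1 + l * h) - 3‖ ≤ ‖w (1 + h) - 3‖ := by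
    rw [w_sub hn0, w_sub hn1]
    have e1 : 1 + (l : ℂ) * h - 1 = l * h := by ring
    have e2 : 1 + h - 1 = h := by ring
    have e3 : 1 + (l : ℂ) * h + 2 = 3 + 1 * ((l : ℂ) * h) := by ring
    have e4 : 1 + h + 2 = 3 + 1 * h := by ring
    rw [e1, e2, e3, e4]
    simp only [norm_div, norm_mul, norm_pow]
    rw [Complex.norm_real, Real.norm_of_nonneg h0]
    have hP := hstep 3 1
    have hP2 := hlow 3 1
    have n3 : ‖(3 : ℂ)‖ = 3 := by norm_num
    rw [norm_one] at hP hP2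
    rw [n3] at hP2
    set P := ‖3 + 1 * h‖ with hPdef
    have hPx : ‖3 + 1 * ((l : ℂ) * h)‖ ≤ P * (1 + x) := by nlinarith
    have hH0 : 0 < ‖1 + h‖ := norm_pos_iff.2 hn0
    have hP0 : 0 < P := by linarith
    rw [div_le_div_iff₀ (by positivity) (by positivity)]
    have k1 : l * (1 + x) ≤ 1 := by nlinarith
    have k2 : l * (1 + 2 * x) ≤ 1 := by nlinarith
    calc (l * ‖h‖) ^ 2 * ‖3 + 1 * ((l : ℂ) * h)‖ * ‖1 + h‖
        ≤ (l * ‖h‖) ^ 2 * (P * (1 + x)) * (Q * (1 + 2 * x)) := by gcongr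
      _ = ‖h‖ ^ 2 * P * Q * ((l * (1 + x)) * (l * (1 + 2 * x))) := by ring
      _ ≤ ‖h‖ ^ 2 * P * Q * (1 * 1) := by gcongr
      _ = ‖h‖ ^ 2 * P * Q := by ring
  unfold rho
  gcongr

/-- the points near the cusp, in the parameter plane -/
def T (δ : ℝ) : Set ℂ := {τ | τ ≠ 0 ∧ τ ≠ 1 ∧ rho τ < δ ^ 2}

theorem exists_eps : ∃ ε : ℝ, 0 < ε ∧ ∀ τ : ℂ, τ ≠ 0 → rho τ < ε ^ 2 → ‖τ - 1‖ < 1 / 8 := by
  have h1 : Metric.ball (⟨1, one_ne_zero⟩ : Cs) (1 / 8) ∈ 𝓝 (⟨1, one_ne_zero⟩ : Cs) :=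
    Metric.ball_mem_nhds _ (by norm_num)
  rw [isClosedEmbedding_phi.isEmbedding.toIsInducing.nhds_eq_comap, Filter.mem_comap] at h1
  obtain ⟨U, hU, hUs⟩ := h1
  obtain ⟨ε, hε, hεU⟩ := Metric.mem_nhds_iff.1 hU
  refine ⟨ε, hε, fun τ hτ hr => ?_⟩
  have h2 : (⟨τ, hτ⟩ : Cs) ∈ phi ⁻¹' U := by
    apply hεU
    rw [Metric.mem_ball, dist_pi_lt_iff hε]
    unfold rho at hr
    intro i
    fin_cases i
    · change dist (z τ) (z 1) < ε
      rw [z_one, dist_eq_norm]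
      apply lt_of_pow_lt_pow_left₀ 2 hε.le
      nlinarith [sq_nonneg ‖w τ - 3‖]
    · change dist (w τ) (w 1) < ε
      rw [w_one, dist_eq_norm]
      apply lt_of_pow_lt_pow_left₀ 2 hε.le
      nlinarith [sq_nonneg ‖z τ - 3‖]
  have h3 := hUs h2
  rw [Metric.mem_ball, Subtype.dist_eq, dist_eq_norm] at h3
  exact h3

theorem continuousAt_rho {τ : ℂ} (hτ : τ ≠ 0) : ContinuousAt rho τ := by
  unfold rho z w
  have h1 : ContinuousAt (fun τ : ℂ => (τ ^ 2)⁻¹) τ :=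
    (continuousAt_id.pow 2).inv₀ (pow_ne_zero 2 hτ)
  have h2 : ContinuousAt (fun τ : ℂ => τ⁻¹) τ := continuousAt_id.inv₀ hτ
  fun_prop

theorem exists_small {δ : ℝ} (hδ : 0 < δ) :
    ∃ r : ℝ, 0 < r ∧ r ≤ 1 / 8 ∧ ∀ h : ℂ, ‖h‖ ≤ r → rho (1 + h) < δ ^ 2 := by
  have h0 : rho 1 = 0 := by unfold rho; rw [z_one, w_one]; simp
  have h1 : ∀ᶠ τ in 𝓝 (1 : ℂ), rho τ < δ ^ 2 := by
    apply (continuousAt_rho one_ne_zero).eventually_lt continuousAt_const
    rw [h0]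
    positivity
  obtain ⟨r, hr, h2⟩ := Metric.eventually_nhds_iff.1 h1
  refine ⟨min (r / 2) (1 / 8), by positivity, min_le_right _ _, fun h hh => ?_⟩
  apply h2
  rw [dist_eq_norm]
  have : 1 + h - 1 = h := by ring
  rw [this]
  have := hh.trans (min_le_left _ _)
  linarith

theorem isPreconnected_T : ∃ ε : ℝ, 0 < ε ∧ ∀ δ : ℝ, 0 < δ → δ < ε → IsPreconnected (T δ) := by
  obtain ⟨ε, hε, hloc⟩ := exists_eps
  refine ⟨ε, hε, fun δ hδ hδε => ?_⟩
  obtain ⟨r, hr, hr8, hsmall⟩ := exists_small hδ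
  have hT8 : ∀ τ ∈ T δ, ‖τ - 1‖ < 1 / 8 := by
    rintro τ ⟨h0, -, h2⟩
    apply hloc τ h0
    have : δ ^ 2 < ε ^ 2 := pow_lt_pow_left₀ hδε hδ.le (by norm_num)
    linarith
  -- small points
  have hin : ∀ h : ℂ, h ≠ 0 → ‖h‖ ≤ r → 1 + h ∈ T δ := by
    intro h hne hh
    refine ⟨ne_zero_of (hh.trans hr8), ?_, hsmall h hh⟩
    intro h1
    apply hne
    linear_combination h1
  have hsph : Metric.sphere (1 : ℂ) r ⊆ T δ := by
    intro τ hτ
    rw [mem_sphere_iff_norm] at hτ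
    have h1 := hin (τ - 1) (by rw [← norm_ne_zero_iff, hτ]; exact hr.ne') hτ.le
    rwa [add_sub_cancel] at h1
  have hsc : IsPreconnected (Metric.sphere (1 : ℂ) r) := by
    apply isPreconnected_sphere
    rw [Complex.rank_real_complex]
    norm_num
  apply isPreconnected_of_forall (1 + (r : ℂ))
  intro τ hτ
  set h : ℂ := τ - 1 with hh
  have hτh : τ = 1 + h := by rw [hh]; ring
  have hne : h ≠ 0 := by
    rw [hh, sub_ne_zero]
    exact hτ.2.1
  have hpos : 0 < ‖h‖ := norm_pos_iff.2 hne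
  have hh8 := hT8 τ hτ
  refine ⟨Metric.sphere 1 r ∪ segment ℝ τ (1 + ((r / ‖h‖ : ℝ) : ℂ) * h), ?_, ?_, ?_, ?_⟩
  · apply union_subset hsph
    rintro y ⟨s, t, hs, ht, hst, rfl⟩
    set m : ℝ := s + t * (r / ‖h‖) with hm
    have hm0 : 0 < m := by
      rw [hm]
      have h5 : 0 < r / ‖h‖ := by positivity
      rcases hs.eq_or_lt with h6 | h6
      · have : t = 1 := by linarith
        rw [← h6, this]; linarith
      · have := mul_nonneg ht h5.le
        linarith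
    have e : s • τ + t • (1 + ((r / ‖h‖ : ℝ) : ℂ) * h) = 1 + (m : ℂ) * h := by
      have h7 : (s : ℂ) + t = 1 := by exact_mod_cast hst
      rw [hτh, Complex.real_smul, Complex.real_smul, hm]
      push_cast
      linear_combination h7
    rw [e]
    rcases le_or_gt m 1 with hm1 | hm1
    · have hlt : ‖(m : ℂ) * h‖ ≤ 1 / 8 := by
        rw [norm_mul, Complex.norm_real, Real.norm_of_nonneg hm0.le]
        nlinarith
      refine ⟨ne_zero_of hlt, ?_, ?_⟩
      · intro h1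
        have h2 : (m : ℂ) * h = 0 := by linear_combination h1
        rcases mul_eq_zero.1 h2 with h3 | h3
        · exact hm0.ne' (by exact_mod_cast h3)
        · exact hne h3
      · refine lt_of_le_of_lt (mono hh8.le hm0.le hm1) ?_
        rw [← hτh]
        exact hτ.2.2
    · apply hin
      · apply mul_ne_zero _ hne
        exact_mod_cast hm0.ne'
      · rw [norm_mul, Complex.norm_real, Real.norm_of_nonneg hm0.le]
        -- `m > 1` forces `r / ‖h‖ ≥ m`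
        have h8 : m ≤ r / ‖h‖ := by
          by_contra hcon
          push Not at hcon
          have hs' : s = 1 - t := by linarith
          have h9 : r / ‖h‖ < m := hcon
          rw [hm, hs'] at h9 hm1
          have ht1 : t ≤ 1 := by linarith
          have hq : 1 < r / ‖h‖ := by
            by_contra hc
            push Not at hc
            nlinarith [mul_nonneg ht (sub_nonneg.2 hc)]
          nlinarith [mul_nonneg (sub_nonneg.2 ht1) (sub_nonneg.2 hq.le)]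
        calc m * ‖h‖ ≤ r / ‖h‖ * ‖h‖ := by gcongr
          _ = r := by field_simp
  · left
    rw [mem_sphere_iff_norm]
    have : (1 : ℂ) + r - 1 = r := by ring
    rw [this, Complex.norm_real, Real.norm_of_nonneg hr.le]
  · right
    exact left_mem_segment ℝ _ _
  · refine IsPreconnected.union' ⟨1 + ((r / ‖h‖ : ℝ) : ℂ) * h, ?_, right_mem_segment ℝ _ _⟩ hsc
      (convex_segment _ _).isPreconnected
    rw [mem_sphere_iff_norm]
    have : 1 + ((r / ‖h‖ : ℝ) : ℂ) * h - 1 = ((r / ‖h‖ : ℝ) : ℂ) * h := by ring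
    rw [this, norm_mul, Complex.norm_real, Real.norm_of_nonneg (by positivity)]
    field_simp

/-- the cusps are unibranch -/
theorem unibranch {t : ℂ} (ht : t ^ 3 = 1) :
    ∃ ε : ℝ, 0 < ε ∧ ∀ δ : ℝ, 0 < δ → δ < ε →
      IsPreconnected {q : Fin 2 → ℂ | MvPolynomial.eval q F = 0 ∧ q ≠ ![z t, w t] ∧
            ‖q 0 - (![z t, w t] : Fin 2 → ℂ) 0‖ ^ 2 + ‖q 1 - (![z t, w t] : Fin 2 → ℂ) 1‖ ^ 2
              < δ ^ 2} := by
  obtain ⟨ε, hε, hT⟩ := isPreconnected_T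
  refine ⟨ε, hε, fun δ hδ hδε => ?_⟩
  have ht0 : t ≠ 0 := by
    rintro rfl
    norm_num at ht
  have hn : ‖t‖ = 1 := by
    have : ‖t‖ ^ 3 = 1 := by rw [← norm_pow, ht, norm_one]
    exact (pow_eq_one_iff_of_nonneg (norm_nonneg _) (by norm_num)).1 this
  have hz : ∀ τ : ℂ, τ ≠ 0 → z (t * τ) = t * z τ := by
    intro τ hτ
    unfold z
    field_simp
    linear_combination -ht
  have hw : ∀ τ : ℂ, τ ≠ 0 → w (t * τ) = t ^ 2 * w τ := by
    intro τ hτ
    unfold w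
    field_simp
    linear_combination -2 * ht
  have hz1 : z t = t * 3 := by
    have := hz 1 one_ne_zero
    rwa [mul_one, z_one] at this
  have hw1 : w t = t ^ 2 * 3 := by
    have := hw 1 one_ne_zero
    rwa [mul_one, w_one] at this
  have himg : {q : Fin 2 → ℂ | MvPolynomial.eval q F = 0 ∧ q ≠ ![z t, w t] ∧
            ‖q 0 - (![z t, w t] : Fin 2 → ℂ) 0‖ ^ 2 + ‖q 1 - (![z t, w t] : Fin 2 → ℂ) 1‖ ^ 2
              < δ ^ 2} = (fun τ : ℂ => (![z (t * τ), w (t * τ)] : Fin 2 → ℂ)) '' T δ := by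
    have hrho : ∀ τ : ℂ, τ ≠ 0 → ‖z (t * τ) - z t‖ ^ 2 + ‖w (t * τ) - w t‖ ^ 2 = rho τ := by
      intro τ hτ
      rw [hz τ hτ, hw τ hτ, hz1, hw1, ← mul_sub, ← mul_sub, norm_mul, norm_mul, norm_pow, hn]
      unfold rho
      ring
    ext q
    simp only [mem_ofPred_eq, mem_image, Matrix.cons_val_zero, Matrix.cons_val_one]
    constructor
    · rintro ⟨h1, h2, h3⟩
      rw [eval_F] at h1
      obtain ⟨s, hs, h4, h5⟩ := surj h1
      have hq : ![z s, w s] = q := by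
        funext i
        fin_cases i
        · exact h4
        · exact h5
      have hst : t * (t⁻¹ * s) = s := by field_simp
      have hne : t⁻¹ * s ≠ 0 := mul_ne_zero (inv_ne_zero ht0) hs
      refine ⟨t⁻¹ * s, ⟨hne, ?_, ?_⟩, ?_⟩
      · intro h6
        apply h2
        rw [← hq, ← hst, h6, mul_one]
      · rw [← hrho _ hne, hst, h4, h5]
        exact h3
      · rw [hst, hq]
    · rintro ⟨τ, ⟨h1, h2, h3⟩, rfl⟩
      refine ⟨?_, ?_, ?_⟩
      · rw [eval_F]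
        exact on_curve (mul_ne_zero ht0 h1)
      · intro h4
        apply h2
        have h5 : t * τ = t := by
          apply inj (mul_ne_zero ht0 h1) ht0
          · exact congrFun h4 0
          · exact congrFun h4 1
        have h6 : t * (τ - 1) = 0 := by linear_combination h5
        exact sub_eq_zero.1 ((mul_eq_zero.1 h6).resolve_left ht0)
      · simp only [Matrix.cons_val_zero, Matrix.cons_val_one]
        rw [hrho τ h1]
        exact h3
  rw [himg]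
  apply (hT δ hδ hδε).image
  intro τ hτ
  apply ContinuousAt.continuousWithinAt
  have hne : t * τ ≠ 0 := mul_ne_zero ht0 hτ.1
  rw [continuousAt_pi]
  intro i
  have h1 : ContinuousAt (fun τ : ℂ => ((t * τ) ^ 2)⁻¹) τ :=
    ((continuousAt_const.mul continuousAt_id).pow 2).inv₀ (pow_ne_zero 2 hne)
  have h2 : ContinuousAt (fun τ : ℂ => (t * τ)⁻¹) τ :=
    (continuousAt_const.mul continuousAt_id).inv₀ hne
  fin_cases i
  · change ContinuousAt (fun τ => z (t * τ)) τ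
    unfold z
    fun_prop
  · change ContinuousAt (fun τ => w (t * τ)) τ
    unfold w
    fun_prop

end Pool.Agent.R844.Deltoid
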