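import Mathlib
import Pool.Agent.R844.Deltoid

/-!
# Irreducibility of the equation of the complex deltoid
-/

set_option autoImplicit false

namespace Pool.Agent.R844.Deltoid

open MvPolynomial Topology Set

theorem analytic_comp (a : MvPolynomial (Fin 2) ℂ) :
    AnalyticOnNhd ℂ (fun t : ℂ => eval (![z t, w t] : Fin 2 → ℂ) a) {t : ℂ | t ≠ 0} := by
  intro t ht
  have h2 : AnalyticAt ℂ (fun t : ℂ => (t ^ 2)⁻¹) t :=
    (analyticAt_id.pow 2).inv (pow_ne_zero 2 ht)
  have h1 : AnalyticAt ℂ (fun t : ℂ => t⁻¹) t := analyticAt_id.inv ht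
  have h := AnalyticAt.aeval_mvPolynomial (𝕜 := ℂ) (f := fun (t : ℂ) (i : Fin 2) => (![z t, w t] : Fin 2 → ℂ) i)
    (z := t) (fun i => by
      fin_cases i
      · change AnalyticAt ℂ (fun t => z t) t
        unfold z
        exact (analyticAt_const.mul analyticAt_id).add h2
      · change AnalyticAt ℂ (fun t => w t) t
        unfold w
        exact (analyticAt_id.pow 2).add (analyticAt_const.mul h1)) a
  exact h

/-- one of two factors vanishes on the whole curve -/
theorem factor_zero {a b : MvPolynomial (Fin 2) ℂ} (h : F = a * b) :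
    (∀ t : ℂ, t ≠ 0 → eval (![z t, w t] : Fin 2 → ℂ) a = 0) ∨
      (∀ t : ℂ, t ≠ 0 → eval (![z t, w t] : Fin 2 → ℂ) b = 0) := by
  have hU : IsPreconnected {t : ℂ | t ≠ 0} := by
    have := (isConnected_compl_singleton_of_one_lt_rank (E := ℂ)
      (by rw [Complex.rank_real_complex]; norm_num) 0).isPreconnected
    exact this
  have hprod : ∀ t ∈ {t : ℂ | t ≠ 0}, eval (![z t, w t] : Fin 2 → ℂ) a *
      eval (![z t, w t] : Fin 2 → ℂ) b = 0 := by
    intro t ht
    rw [← map_mul, ← h, eval_F]
    exact on_curve ht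
  rcases (analytic_comp a).eq_zero_or_eq_zero_of_mul_eq_zero (analytic_comp b) hprod hU
    with h1 | h1
  · left
    exact fun t ht => h1 t ht
  · right
    exact fun t ht => h1 t ht

/-- a common zero of both factors is a cusp -/
theorem common_zero {a b : MvPolynomial (Fin 2) ℂ} (h : F = a * b) {t : ℂ} (ht : t ≠ 0)
    (h1 : eval (![z t, w t] : Fin 2 → ℂ) a = 0) (h2 : eval (![z t, w t] : Fin 2 → ℂ) b = 0) :
    t ^ 3 = 1 := by
  have h3 : eval (![z t, w t] : Fin 2 → ℂ) (pderiv 0 F) = 0 := by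
    rw [h, pderiv_mul]
    simp only [map_add, map_mul, h1, h2]
    ring
  rw [eval_F0] at h3
  simp only [Matrix.cons_val_zero, Matrix.cons_val_one] at h3
  rw [grad0 ht] at h3
  rw [div_eq_zero_iff] at h3
  rcases h3 with h3 | h3
  · have h4 : (t ^ 3 - 1) ^ 3 = 0 := by
      rcases mul_eq_zero.1 h3 with h5 | h5
      · norm_num at h5
      · exact h5
    have h5 : t ^ 3 - 1 = 0 := pow_eq_zero_iff (three_ne_zero) |>.1 h4
    linear_combination h5
  · exact absurd h3 (pow_ne_zero 4 ht)

theorem cube_z {t : ℂ} (ht : t ^ 3 = 1) : z t ^ 3 = 27 := by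
  have ht0 : t ≠ 0 := by
    rintro rfl
    norm_num at ht
  have : z t = 3 * t := by
    unfold z
    field_simp
    linear_combination -ht
  rw [this]
  linear_combination 27 * ht

theorem cube_w {t : ℂ} (ht : t ^ 3 = 1) : w t ^ 3 = 27 := by
  have ht0 : t ≠ 0 := by
    rintro rfl
    norm_num at ht
  have : w t = 3 * t ^ 2 := by
    unfold w
    field_simp
    linear_combination -2 * ht
  rw [this]
  linear_combination (27 * t ^ 3 + 27) * ht

/-- a polynomial in one variable without zeros is constant -/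
theorem const_of_no_root (p : Polynomial ℂ) (h : ∀ x, p.eval x ≠ 0) (x y : ℂ) :
    p.eval x = p.eval y := by
  by_cases hd : p.degree ≤ 0
  · rw [Polynomial.eq_C_of_degree_le_zero hd]
    simp
  · exfalso
    push Not at hd
    obtain ⟨r, hr⟩ := IsAlgClosed.exists_root p (by
      intro h0
      rw [h0] at hd
      exact lt_irrefl _ hd)
    exact h r hr

/-- if `a` vanishes on the curve and `F = a b`, then `b` is constant -/
theorem isUnit_of_zero {a b : MvPolynomial (Fin 2) ℂ} (h : F = a * b)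
    (ha : ∀ t : ℂ, t ≠ 0 → eval (![z t, w t] : Fin 2 → ℂ) a = 0) : IsUnit b := by
  have hz : ∀ x y : ℂ, eval (![x, y] : Fin 2 → ℂ) b = 0 → x ^ 3 = 27 ∧ y ^ 3 = 27 := by
    intro x y hb
    have h1 : eval (![x, y] : Fin 2 → ℂ) F = 0 := by
      rw [h, map_mul, hb, mul_zero]
    rw [eval_F] at h1
    obtain ⟨t, ht, h2, h3⟩ := surj h1
    simp only [Matrix.cons_val_zero, Matrix.cons_val_one] at h2 h3
    have h4 := common_zero h ht (ha t ht) (by rw [h2, h3]; exact hb)
    exact ⟨h2 ▸ cube_z h4, h3 ▸ cube_w h4⟩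
  have hcol : ∀ x : ℂ, x ^ 3 ≠ 27 → ∀ y y' : ℂ,
      eval (![x, y] : Fin 2 → ℂ) b = eval (![x, y'] : Fin 2 → ℂ) b := by
    intro x hx y y'
    have key : ∀ y : ℂ, eval (![x, y] : Fin 2 → ℂ) b =
        (aeval (![Polynomial.C x, Polynomial.X] : Fin 2 → Polynomial ℂ) b).eval y := by
      intro y
      have h1 : (aeval (![Polynomial.C x, Polynomial.X] : Fin 2 → Polynomial ℂ) b).eval y =
        (Polynomial.aeval y : Polynomial ℂ →ₐ[ℂ] ℂ)
          (aeval (![Polynomial.C x, Polynomial.X] : Fin 2 → Polynomial ℂ) b) := by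
        rw [Polynomial.coe_aeval_eq_eval]
      rw [h1, comp_aeval_apply, ← aeval_eq_eval]
      congr 1
      congr 1
      funext i
      fin_cases i <;> simp
    rw [key, key]
    apply const_of_no_root
    intro y hy
    rw [← key] at hy
    exact hx (hz x y hy).1
  have hrow : ∀ y : ℂ, y ^ 3 ≠ 27 → ∀ x x' : ℂ,
      eval (![x, y] : Fin 2 → ℂ) b = eval (![x', y] : Fin 2 → ℂ) b := by
    intro y hy x x'
    have key : ∀ x : ℂ, eval (![x, y] : Fin 2 → ℂ) b =
        (aeval (![Polynomial.X, Polynomial.C y] : Fin 2 → Polynomial ℂ) b).eval x := by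
      intro x
      have h1 : (aeval (![Polynomial.X, Polynomial.C y] : Fin 2 → Polynomial ℂ) b).eval x =
        (Polynomial.aeval x : Polynomial ℂ →ₐ[ℂ] ℂ)
          (aeval (![Polynomial.X, Polynomial.C y] : Fin 2 → Polynomial ℂ) b) := by
        rw [Polynomial.coe_aeval_eq_eval]
      rw [h1, comp_aeval_apply, ← aeval_eq_eval]
      congr 1
      congr 1
      funext i
      fin_cases i <;> simp
    rw [key, key]
    apply const_of_no_root
    intro x hx
    rw [← key] at hx
    exact hy (hz x y hx).2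
  set K : ℂ := eval (![0, 0] : Fin 2 → ℂ) b with hK
  have hinf : {x : ℂ | x ^ 3 ≠ 27}.Infinite := by
    have hfin : {x : ℂ | x ^ 3 = 27}.Finite := by
      have h1 : {x : ℂ | x ^ 3 = 27} ⊆ ((Polynomial.X ^ 3 - Polynomial.C 27 : Polynomial ℂ).roots.toFinset : Set ℂ) := by
        intro x hx
        simp only [Finset.mem_coe, Multiset.mem_toFinset]
        rw [Polynomial.mem_roots (Polynomial.X_pow_sub_C_ne_zero (by norm_num) _)]
        simp only [Polynomial.IsRoot, Polynomial.eval_sub, Polynomial.eval_pow, Polynomial.eval_X,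
          Polynomial.eval_C]
        rw [mem_ofPred_eq] at hx
        rw [hx, sub_self]
      exact (Finset.finite_toSet _).subset h1
    exact hfin.infinite_compl
  have hb : b = C K := by
    apply funext_set (fun _ : Fin 2 => {x : ℂ | x ^ 3 ≠ 27}) (fun _ => hinf)
    intro x hx
    rw [eval_C]
    have hx0 : x 0 ^ 3 ≠ 27 := hx 0 (mem_univ _)
    have e : x = ![x 0, x 1] := by
      funext i
      fin_cases i <;> rfl
    rw [e, hcol _ hx0 (x 1) 0, hrow 0 (by norm_num) (x 0) 0]
  have hK0 : K ≠ 0 := by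
    intro h0
    have := (hz 0 0 (hK ▸ h0)).1
    norm_num at this
  rw [hb]
  exact (isUnit_iff_ne_zero.2 hK0).map C

theorem irreducible_F : Irreducible F := by
  refine ⟨?_, ?_⟩
  · intro hu
    have h1 := hu.map (eval (![3, 3] : Fin 2 → ℂ))
    rw [eval_F] at h1
    simp only [Matrix.cons_val_zero, Matrix.cons_val_one] at h1
    norm_num at h1
  · intro a b h
    rcases factor_zero h with h1 | h1
    · right
      exact isUnit_of_zero h h1
    · left
      exact isUnit_of_zero (h.trans (mul_comm a b)) h1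

end Pool.Agent.R844.Deltoid
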