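import Mathlib

/-!
# Blow-up of the cyclic `|i-j|^{-3}` chain: combinatorics

Vertices `ZMod n × ZMod N`; `(i,a)` and `(j,b)` are adjacent iff `i ≠ j` and
`(a+b).val < N / nm (i-j)^3`, where `nm s` is the distance from `s` to `0`.
-/

open Finset

set_option linter.unusedSectionVars false
set_option maxHeartbeats 1000000

namespace Pool.Agent.R844.HT

/-- The distance from `s` to `0` in the cycle `ZMod n`. -/
def nm {n : ℕ} (s : ZMod n) : ℕ := s.valMinAbs.natAbs

section basic

variable {n : ℕ} [NeZero n]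

lemma nm_neg (s : ZMod n) : nm (-s) = nm s := ZMod.natAbs_valMinAbs_neg s

lemma nm_add (a b : ZMod n) : nm (a + b) ≤ nm a + nm b :=
  (ZMod.natAbs_valMinAbs_add_le a b).trans (Int.natAbs_add_le _ _)

lemma nm_eq (s : ZMod n) : nm s = min s.val (n - s.val) := ZMod.valMinAbs_natAbs_eq_min s

lemma nm_natCast (k : ℕ) : nm (k : ZMod n) ≤ k := by
  rw [nm_eq, ZMod.val_natCast]
  exact (min_le_left _ _).trans (Nat.mod_le _ _)

lemma nm_pos {s : ZMod n} (hs : s ≠ 0) : 0 < nm s := by
  rw [nm_eq]
  have h1 : s.val ≠ 0 := fun h => hs ((ZMod.val_eq_zero s).1 h)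
  have h2 := ZMod.val_lt s
  omega

lemma nm_one (hn : 2 ≤ n) : nm (1 : ZMod n) = 1 := by
  have h1 : (1 : ZMod n).val = 1 := by
    have : Fact (1 < n) := ⟨hn⟩
    exact ZMod.val_one n
  rw [nm_eq, h1]; omega

lemma nm_sub_cast (x : ZMod n) {a b r : ℕ} (ha : a < r) (hb : b < r) :
    nm ((x + (a : ZMod n)) - (x + (b : ZMod n))) < r := by
  rcases le_total a b with h | h
  · have : (x + (a : ZMod n)) - (x + b) = -((b - a : ℕ) : ZMod n) := by
      rw [Nat.cast_sub h]; ring
    rw [this, nm_neg]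
    exact (nm_natCast _).trans_lt (by omega)
  · have : (x + (a : ZMod n)) - (x + b) = ((a - b : ℕ) : ZMod n) := by
      rw [Nat.cast_sub h]; ring
    rw [this]
    exact (nm_natCast _).trans_lt (by omega)

lemma inj_cast (x : ZMod n) {r : ℕ} (hr : r ≤ n) :
    Set.InjOn (fun l : ℕ => x + (l : ZMod n)) (range r : Finset ℕ) := by
  intro a ha b hb h
  simp only [coe_range, Set.mem_Iio] at ha hb
  have h1 : (a : ZMod n) = (b : ZMod n) := by simpa using h
  have h2 : (a : ZMod n).val = (b : ZMod n).val := by rw [h1]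
  rwa [ZMod.val_natCast_of_lt (by omega), ZMod.val_natCast_of_lt (by omega)] at h2

lemma card_val_lt0 {d : ℕ} (hd : d ≤ n) :
    (univ.filter (fun c : ZMod n => c.val < d)).card = d := by
  have : (univ.filter (fun c : ZMod n => c.val < d)) = (range d).image (fun l : ℕ => (0 : ZMod n) + (l : ZMod n)) := by
    ext c
    simp only [mem_filter, mem_univ, true_and, mem_image, mem_range, zero_add]
    constructor
    · intro h
      exact ⟨c.val, h, ZMod.natCast_zmod_val c⟩
    · rintro ⟨l, hl, rfl⟩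
      rw [ZMod.val_natCast_of_lt (by omega)]; exact hl
  rw [this, card_image_of_injOn (inj_cast 0 hd), card_range]

lemma card_val_lt (a : ZMod n) {d : ℕ} (hd : d ≤ n) :
    (univ.filter (fun b : ZMod n => (a + b).val < d)).card = d := by
  refine Eq.trans ?_ (card_val_lt0 (n := n) hd)
  refine card_bij (fun b _ => a + b) ?_ ?_ ?_
  · intro b hb; simpa using hb
  · intro b _ c _ h; simpa using h
  · intro c hc
    refine ⟨c - a, ?_, by ring⟩
    simp only [mem_filter, mem_univ, true_and] at hc ⊢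
    rwa [add_sub_cancel]

lemma card_val_lt' (b : ZMod n) {d : ℕ} (hd : d ≤ n) :
    (univ.filter (fun a : ZMod n => (a + b).val < d)).card = d := by
  refine Eq.trans ?_ (card_val_lt b hd)
  congr 1
  ext a
  simp only [mem_filter, mem_univ, true_and]
  rw [add_comm a b]

end basic

/-- The graph. -/
def htG (n N : ℕ) : SimpleGraph (ZMod n × ZMod N) where
  Adj v w := v.1 ≠ w.1 ∧ (v.2 + w.2).val < N / (nm (v.1 - w.1)) ^ 3
  symm := ⟨by
    intro v w h
    refine ⟨h.1.symm, ?_⟩
    have h1 : w.1 - v.1 = -(v.1 - w.1) := by ring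
    have h2 : nm (w.1 - v.1) = nm (v.1 - w.1) := by
      rw [h1]; exact ZMod.natAbs_valMinAbs_neg _
    rw [add_comm w.2 v.2, h2]
    exact h.2⟩
  loopless := ⟨fun v h => h.1 rfl⟩

instance (n N : ℕ) : DecidableRel (htG n N).Adj := fun v w => by
  unfold htG; simp only; infer_instance

lemma htG_adj {n N : ℕ} (v w : ZMod n × ZMod N) :
    (htG n N).Adj v w ↔ v.1 ≠ w.1 ∧ (v.2 + w.2).val < N / (nm (v.1 - w.1)) ^ 3 := Iff.rfl

section comb

variable {n N : ℕ} [NeZero n] [NeZero N] (S : Finset (ZMod n × ZMod N))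

/-- number of vertices of cluster `i` outside `S` -/
def tt (i : ZMod n) : ℕ := (univ.filter (fun b : ZMod N => (i, b) ∉ S)).card

/-- number of vertices of cluster `i` in `S` -/
def ss (i : ZMod n) : ℕ := (univ.filter (fun b : ZMod N => (i, b) ∈ S)).card

/-- number of neighbours of `v` outside `S` -/
def ee (v : ZMod n × ZMod N) : ℕ := (univ.filter (fun w => w ∉ S ∧ (htG n N).Adj v w)).card

/-- number of good vertices of cluster `i` in `S` -/
def gg (k : ℕ) (i : ZMod n) : ℕ :=
  (univ.filter (fun a : ZMod N => (i, a) ∈ S ∧ N ≤ 32 * 4 ^ k * ee S (i, a))).card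

lemma ss_add_tt (i : ZMod n) : ss S i + tt S i = N := by
  unfold ss tt
  rw [card_filter_add_card_filter_not]
  simp

lemma gg_le_ss (k : ℕ) (i : ZMod n) : gg S k i ≤ ss S i := by
  unfold gg ss
  apply card_le_card
  intro a ha
  simp only [mem_filter, mem_univ, true_and] at ha ⊢
  exact ha.1

lemma ee_ge (i : ZMod n) (a : ZMod N) (T : Finset ℕ) (f : ℕ → ZMod n) (hf : Set.InjOn f T) :
    ∑ l ∈ T, (univ.filter (fun b : ZMod N => (f l, b) ∉ S ∧ (htG n N).Adj (i, a) (f l, b))).card
      ≤ ee S (i, a) := by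
  have h1 : ee S (i, a) = ∑ j : ZMod n,
      (univ.filter (fun b : ZMod N => (j, b) ∉ S ∧ (htG n N).Adj (i, a) (j, b))).card := by
    unfold ee
    rw [card_filter, Fintype.sum_prod_type]
    refine sum_congr rfl fun j _ => ?_
    rw [card_filter]
  rw [h1, ← sum_image (f := fun j : ZMod n =>
    (univ.filter (fun b : ZMod N => (j, b) ∉ S ∧ (htG n N).Adj (i, a) (j, b))).card) (g := f) (s := T)
    (by intro x hx y hy h; exact hf hx hy h)]
  exact sum_le_sum_of_subset (subset_univ _)

lemma full (k r δ : ℕ) (hr : r = 2 ^ k) (hN : N = δ * 8 ^ k) (hrn : r ≤ n)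
    (x : ZMod n) (k₀ : ℕ) (hk₀ : k₀ < r)
    (hM : r * N ≤ 8 * ∑ l ∈ range r, tt S (x + l)) (ht : 64 * tt S (x + k₀) < N) :
    N ≤ 64 * gg S k (x + k₀) := by
  have hr1 : 1 ≤ r := by omega
  have hNpos : 0 < N := Nat.pos_of_ne_zero (NeZero.ne N)
  have hδ : 0 < δ := by
    rcases Nat.eq_zero_or_pos δ with h | h
    · rw [h] at hN; omega
    · exact h
  have hδN : δ ≤ N := by
    rw [hN]; exact Nat.le_mul_of_pos_right _ (by positivity)
  set y : ZMod N → ℕ := fun a => ∑ l ∈ (range r).erase k₀,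
    (univ.filter (fun b : ZMod N => (x + (l : ZMod n), b) ∉ S ∧ (a + b).val < δ)).card with hy
  -- (1)
  have h1 : ∑ a, y a = δ * ∑ l ∈ (range r).erase k₀, tt S (x + l) := by
    rw [hy]
    simp only
    rw [sum_comm, mul_sum]
    refine sum_congr rfl fun l _ => ?_
    unfold tt
    simp only [card_filter]
    rw [sum_comm, mul_sum]
    refine sum_congr rfl fun b _ => ?_
    by_cases hb : (x + (l : ZMod n), b) ∈ S
    · simp [hb]
    · simp only [hb, not_false_eq_true, true_and, if_true, mul_one]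
      rw [← card_filter]
      exact card_val_lt' b hδN
  -- (2)
  have h2 : ∀ a, y a ≤ r * δ := by
    intro a
    calc y a ≤ ∑ l ∈ (range r).erase k₀, δ := by
          refine sum_le_sum fun l _ => ?_
          refine (card_le_card ?_).trans (card_val_lt a hδN).le
          intro b hb
          simp only [mem_filter, mem_univ, true_and] at hb ⊢
          exact hb.2
      _ ≤ ∑ l ∈ range r, δ := sum_le_sum_of_subset (erase_subset _ _)
      _ = r * δ := by simp
  -- (3)
  have h3 : ∀ a, y a ≤ ee S (x + k₀, a) := by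
    intro a
    refine le_trans ?_ (ee_ge S (x + k₀) a ((range r).erase k₀) (fun l => x + (l : ZMod n))
      ((inj_cast x hrn).mono (by exact_mod_cast erase_subset _ _)))
    refine sum_le_sum fun l hl => ?_
    rw [mem_erase, mem_range] at hl
    apply card_le_card
    intro b hb
    simp only [mem_filter, mem_univ, true_and] at hb ⊢
    refine ⟨hb.1, ?_⟩
    rw [htG_adj]
    have hne : x + (k₀ : ZMod n) ≠ x + (l : ZMod n) := by
      intro h
      exact hl.1 (inj_cast x hrn (by simpa using hl.2) (by simpa using hk₀) h.symm)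
    refine ⟨hne, ?_⟩
    simp only
    refine hb.2.trans_le ?_
    have h4 : nm ((x + (k₀ : ZMod n)) - (x + (l : ZMod n))) ≤ r := (nm_sub_cast x hk₀ hl.2).le
    have h5 : 0 < nm ((x + (k₀ : ZMod n)) - (x + (l : ZMod n))) := nm_pos (sub_ne_zero.2 hne)
    have h6 : δ = N / r ^ 3 := by
      have : r ^ 3 = 8 ^ k := by
        rw [hr, ← pow_mul, mul_comm k 3, pow_mul]; norm_num
      rw [this, hN, Nat.mul_div_cancel _ (by positivity)]
    rw [h6]
    exact Nat.div_le_div_left (Nat.pow_le_pow_left h4 3) (by positivity)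
  -- (4)
  set A : Finset (ZMod N) := univ.filter (fun a => r * δ ≤ 32 * y a) with hA
  have h4 : 32 * ∑ a, y a ≤ 31 * (r * δ) * A.card + (r * δ) * N := by
    calc 32 * ∑ a, y a = ∑ a, 32 * y a := mul_sum _ _ _
      _ ≤ ∑ a, ((if a ∈ A then 31 * (r * δ) else 0) + r * δ) := by
          refine sum_le_sum fun a _ => ?_
          by_cases ha : a ∈ A
          · rw [if_pos ha]
            have := h2 a
            omega
          · rw [if_neg ha]
            rw [hA, mem_filter] at ha
            simp only [mem_univ, true_and, not_le] at ha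
            omega
      _ = 31 * (r * δ) * A.card + (r * δ) * N := by
          rw [sum_add_distrib, ← sum_filter, filter_mem_eq_inter, univ_inter]
          simp [mul_comm]
  have h5 : ∑ l ∈ (range r).erase k₀, tt S (x + (l : ZMod n)) + tt S (x + (k₀ : ZMod n))
      = ∑ l ∈ range r, tt S (x + (l : ZMod n)) := by
    rw [sum_erase_add _ _ (mem_range.2 hk₀)]
  have h6 : 5 * N ≤ 62 * A.card := by
    rw [h1] at h4
    set B := ∑ l ∈ (range r).erase k₀, tt S (x + (l : ZMod n)) with hB
    have h7 : δ * (32 * B) ≤ δ * (31 * r * A.card + r * N) := by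
      calc δ * (32 * B) = 32 * (δ * B) := by ring
        _ ≤ _ := h4
        _ = _ := by ring
    have h8 := Nat.le_of_mul_le_mul_left h7 hδ
    have h9 : r * (5 * N) ≤ r * (62 * A.card) := by
      have e1 : 4 * (r * N) ≤ 32 * (B + tt S (x + (k₀ : ZMod n))) := by rw [h5]; omega
      have e2 : N ≤ r * N := Nat.le_mul_of_pos_left _ (by omega)
      have e3 : r * (5 * N) = 5 * (r * N) := by ring
      have e4 : r * (62 * A.card) = 2 * (31 * r * A.card) := by ring
      rw [e3, e4]
      omega
    exact Nat.le_of_mul_le_mul_left h9 (by omega)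
  -- (5)
  have h7 : A.card ≤ gg S k (x + k₀) + tt S (x + k₀) := by
    unfold gg tt
    refine le_trans (card_le_card ?_) (card_union_le _ _)
    intro a ha
    simp only [hA, mem_filter, mem_univ, true_and] at ha
    simp only [mem_union, mem_filter, mem_univ, true_and]
    by_cases haS : (x + (k₀ : ZMod n), a) ∈ S
    · left
      refine ⟨haS, ?_⟩
      have e1 : N = 4 ^ k * (r * δ) := by
        rw [hN, hr]
        have : (8 : ℕ) ^ k = 4 ^ k * 2 ^ k := by rw [← mul_pow]; norm_num
        rw [this]; ring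
      calc N = 4 ^ k * (r * δ) := e1
        _ ≤ 4 ^ k * (32 * y a) := Nat.mul_le_mul_left _ ha
        _ ≤ 4 ^ k * (32 * ee S (x + k₀, a)) := Nat.mul_le_mul_left _ (Nat.mul_le_mul_left _ (h3 a))
        _ = 32 * 4 ^ k * ee S (x + k₀, a) := by ring
    · right; exact haS
  omega

lemma adj_full (k : ℕ) (hk : 1 ≤ k) (i j : ZMod n) (hij : nm (i - j) = 1)
    (ht : N ≤ 64 * tt S j) : gg S k i = ss S i := by
  unfold gg ss
  congr 1
  ext a
  simp only [mem_filter, mem_univ, true_and, and_iff_left_iff_imp]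
  intro _
  have h1 : tt S j ≤ ee S (i, a) := by
    unfold tt ee
    refine card_le_card_of_injOn (fun b => (j, b)) ?_ ?_
    · intro b hb
      simp only [coe_filter, mem_univ, true_and, Set.mem_ofPred_eq] at hb ⊢
      refine ⟨hb, ?_⟩
      rw [htG_adj]
      refine ⟨?_, ?_⟩
      · intro h
        simp only at h
        rw [h, sub_self] at hij
        simp [nm] at hij
      · simp only
        rw [hij]
        simpa using ZMod.val_lt (a + b)
    · intro b _ c _ h
      simpa using h
  have h2 : 4 ≤ 4 ^ k := by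
    calc 4 = 4 ^ 1 := by norm_num
      _ ≤ 4 ^ k := Nat.pow_le_pow_right (by norm_num) hk
  calc N ≤ 64 * tt S j := ht
    _ ≤ 64 * ee S (i, a) := Nat.mul_le_mul_left _ h1
    _ ≤ 32 * 4 ^ k * ee S (i, a) := Nat.mul_le_mul_right _ (by omega)

lemma window (k r δ : ℕ) (hr : r = 2 ^ k) (hk : 1 ≤ k) (hN : N = δ * 8 ^ k) (hrn : r ≤ n)
    (x : ZMod n) (hM : r * N ≤ 8 * ∑ l ∈ range r, tt S (x + l)) (k₀ : ℕ) (hk₀ : k₀ < r) :
    ss S (x + k₀) ≤ 64 * gg S k (x + k₀) + 2 * gg S k (x + k₀ + 1) := by
  have hn2 : 2 ≤ n := by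
    have : 2 ^ 1 ≤ 2 ^ k := Nat.pow_le_pow_right (by norm_num) hk
    omega
  set i := x + (k₀ : ZMod n) with hi
  have hs := ss_add_tt S i
  have hs1 := ss_add_tt S (i + 1)
  have n1 : nm (i + 1 - i) = 1 := by rw [add_sub_cancel_left]; exact nm_one hn2
  have n2 : nm (i - (i + 1)) = 1 := by
    rw [show i - (i + 1) = -(1 : ZMod n) by ring, nm_neg]; exact nm_one hn2
  rcases Nat.lt_or_ge (64 * tt S i) N with h | h
  · have := full S k r δ hr hN hrn x k₀ hk₀ hM h
    rw [← hi] at this
    omega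
  · have e1 := adj_full S k hk (i + 1) i n1 h
    rcases Nat.lt_or_ge (64 * tt S (i + 1)) N with h' | h'
    · omega
    · have e2 := adj_full S k hk i (i + 1) n2 h'
      omega

lemma cyc {p : ZMod n → Prop} (x₀ x₁ : ZMod n) (h0 : p x₀) (h1 : ¬ p x₁) :
    ∃ x, p x ∧ ¬ p (x + 1) := by
  by_contra hcon
  push Not at hcon
  have : ∀ l : ℕ, p (x₀ + l) := by
    intro l
    induction l with
    | zero => simpa using h0
    | succ l ih =>
      have := hcon _ ih
      rwa [Nat.cast_succ, ← add_assoc]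
  apply h1
  have h2 := this (x₁ - x₀).val
  rwa [ZMod.natCast_zmod_val, add_sub_cancel] at h2

lemma sum_ss : ∑ i, ss S i = S.card := by
  have : S.card = (univ.filter (fun v => v ∈ S)).card := by simp
  rw [this, card_filter, Fintype.sum_prod_type]
  refine sum_congr rfl fun i _ => ?_
  unfold ss
  rw [card_filter]

lemma sum_gg (k : ℕ) : ∑ i, gg S k i = (S.filter (fun v => N ≤ 32 * 4 ^ k * ee S v)).card := by
  have : (S.filter (fun v => N ≤ 32 * 4 ^ k * ee S v))
      = univ.filter (fun v => v ∈ S ∧ N ≤ 32 * 4 ^ k * ee S v) := by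
    ext v; simp
  rw [this, card_filter, Fintype.sum_prod_type]
  refine sum_congr rfl fun i _ => ?_
  unfold gg
  rw [card_filter]

/-- The main combinatorial estimate. -/
theorem main_comb (k r δ : ℕ) (hr : r = 2 ^ k) (hk : 2 ≤ k) (hN : N = δ * 8 ^ k) (hrn : r ≤ n)
    (hS : 2 * S.card ≤ n * N) :
    r * S.card ≤ 66 * n * (S.filter (fun v => N ≤ 32 * 4 ^ k * ee S v)).card := by
  have hr4 : 4 ≤ r := by
    have : 2 ^ 2 ≤ 2 ^ k := Nat.pow_le_pow_right (by norm_num) hk
    omega
  rw [← sum_gg, ← sum_ss]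
  set Γ := ∑ i, gg S k i with hΓ
  have hΓ1 : ∑ i, gg S k (i + 1) = Γ :=
    Equiv.sum_comp (Equiv.addRight (1 : ZMod n)) (fun i => gg S k i)
  by_cases hall : ∀ x : ZMod n, r * N ≤ 8 * ∑ l ∈ range r, tt S (x + l)
  · have h1 : ∑ i, ss S i ≤ 66 * Γ := by
      calc ∑ i, ss S i ≤ ∑ i, (64 * gg S k i + 2 * gg S k (i + 1)) := by
            refine sum_le_sum fun i _ => ?_
            have := window S k r δ hr (by omega) hN hrn i (hall i) 0 (by omega)
            simpa using this
        _ = 66 * Γ := by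
            rw [sum_add_distrib, ← mul_sum, ← mul_sum, hΓ1]; ring
    calc r * ∑ i, ss S i ≤ n * (66 * Γ) := Nat.mul_le_mul hrn h1
      _ = _ := by ring
  · push Not at hall
    obtain ⟨x₀, hx₀⟩ := hall
    -- a window with large complement
    have hsum : ∑ x : ZMod n, ∑ l ∈ range r, tt S (x + l) = r * ∑ i, tt S i := by
      have e0 : ∀ l : ℕ, ∑ x : ZMod n, tt S (x + l) = ∑ i, tt S i := fun l =>
        Equiv.sum_comp (Equiv.addRight (l : ZMod n)) (fun i => tt S i)
      rw [sum_comm, sum_congr rfl (fun l _ => e0 l)]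
      simp
    have hst : ∑ i, ss S i + ∑ i, tt S i = n * N := by
      rw [← sum_add_distrib, sum_congr rfl (fun i _ => ss_add_tt S i)]
      simp
    rw [← sum_ss] at hS
    obtain ⟨x₁, hx₁⟩ : ∃ x₁ : ZMod n, r * N ≤ 8 * ∑ l ∈ range r, tt S (x₁ + l) := by
      by_contra hcon
      push Not at hcon
      have h1 : ∑ x : ZMod n, 8 * ∑ l ∈ range r, tt S (x + l) < ∑ x : ZMod n, r * N :=
        sum_lt_sum_of_nonempty univ_nonempty (fun x _ => hcon x)
      rw [← mul_sum, hsum] at h1
      simp only [sum_const, card_univ, ZMod.card, smul_eq_mul] at h1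
      have h2 : n * (r * N) ≤ 8 * (r * ∑ i, tt S i) := by
        have : n * N ≤ 8 * ∑ i, tt S i := by omega
        calc n * (r * N) = r * (n * N) := by ring
          _ ≤ r * (8 * ∑ i, tt S i) := Nat.mul_le_mul_left _ this
          _ = _ := by ring
      omega
    obtain ⟨x, hx, hx'⟩ := cyc (n := n)
      (p := fun x : ZMod n => 8 * ∑ l ∈ range r, tt S (x + (l : ZMod n)) < r * N) x₀ x₁ hx₀
      (by push Not; exact hx₁)
    simp only [not_lt] at hx'
    -- compare the windows at `x` and `x+1`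
    have hcmp : ∑ l ∈ range r, tt S (x + 1 + (l : ZMod n))
        ≤ ∑ l ∈ range r, tt S (x + (l : ZMod n)) + N := by
      have e1 := sum_range_succ (fun l : ℕ => tt S (x + l)) r
      have e2 := sum_range_succ' (fun l : ℕ => tt S (x + l)) r
      have e3 : ∑ l ∈ range r, tt S (x + ((l + 1 : ℕ) : ZMod n))
          = ∑ l ∈ range r, tt S (x + 1 + (l : ZMod n)) := by
        refine sum_congr rfl fun l _ => ?_
        congr 1
        push_cast; ring
      rw [e3] at e2
      have e4 : tt S (x + (r : ZMod n)) ≤ N := by have := ss_add_tt S (x + (r : ZMod n)); omega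
      omega
    have hm : ∑ l ∈ range r, ss S (x + 1 + (l : ZMod n))
        + ∑ l ∈ range r, tt S (x + 1 + (l : ZMod n)) = r * N := by
      rw [← sum_add_distrib, sum_congr rfl (fun i _ => ss_add_tt S _)]
      simp
    have hwin : ∑ l ∈ range r, ss S (x + 1 + (l : ZMod n)) ≤ 66 * Γ := by
      have e0 : ∀ f : ZMod n → ℕ, ∑ l ∈ range r, f (x + 1 + (l : ZMod n)) ≤ ∑ i, f i := by
        intro f
        rw [← sum_image (f := f) (g := fun l : ℕ => x + 1 + (l : ZMod n))
          (by intro a ha b hb h; exact inj_cast (x + 1) hrn ha hb h)]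
        exact sum_le_sum_of_subset (subset_univ _)
      calc ∑ l ∈ range r, ss S (x + 1 + (l : ZMod n))
          ≤ ∑ l ∈ range r, (64 * gg S k (x + 1 + (l : ZMod n))
            + 2 * gg S k (x + 1 + (l : ZMod n) + 1)) := by
            refine sum_le_sum fun l hl => ?_
            exact window S k r δ hr (by omega) hN hrn (x + 1) hx' l (mem_range.1 hl)
        _ = 64 * ∑ l ∈ range r, gg S k (x + 1 + (l : ZMod n))
            + 2 * ∑ l ∈ range r, gg S k (x + 1 + (l : ZMod n) + 1) := by
            rw [sum_add_distrib, ← mul_sum, ← mul_sum]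
        _ ≤ 64 * Γ + 2 * Γ := by
            have e1 := e0 (gg S k)
            have e2 := e0 (fun i => gg S k (i + 1))
            rw [hΓ1] at e2
            omega
        _ = 66 * Γ := by ring
    have hrN : 4 * N ≤ r * N := Nat.mul_le_mul_right _ hr4
    have h132 : r * N ≤ 132 * Γ := by
      -- m(x+1) = rN - Mb(x+1) ≥ rN - Mb(x) - N
      omega
    have h2 : 2 * (r * ∑ i, ss S i) ≤ 2 * (66 * n * Γ) := by
      calc 2 * (r * ∑ i, ss S i) = r * (2 * ∑ i, ss S i) := by ring
        _ ≤ r * (n * N) := Nat.mul_le_mul_left _ hS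
        _ = n * (r * N) := by ring
        _ ≤ n * (132 * Γ) := Nat.mul_le_mul_left _ h132
        _ = _ := by ring
    omega

end comb

end Pool.Agent.R844.HT
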