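import Mathlib
import Pool.Agent.R844.HT

/-!
# Degree, connectedness, cost and Dirichlet form of the graph `htG n N`
-/

open Finset

set_option linter.unusedSectionVars false
set_option maxHeartbeats 1000000

namespace Pool.Agent.R844.HT

section deg

variable {n N : ℕ} [NeZero n] [NeZero N]

/-- multiplicity of the shift `s` -/
def wt (N : ℕ) {n : ℕ} (s : ZMod n) : ℕ := if s = 0 then 0 else N / (nm s) ^ 3

lemma wt_le (s : ZMod n) : wt N s ≤ N := by
  unfold wt
  split_ifs
  · exact Nat.zero_le _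
  · exact Nat.div_le_self _ _

/-- the common degree -/
def Dl (n N : ℕ) [NeZero n] : ℕ := ∑ s : ZMod n, wt N s

lemma sum_adj (v : ZMod n × ZMod N) (F : ZMod n → ℝ) :
    ∑ w : ZMod n × ZMod N, (if (htG n N).Adj v w then F w.1 else 0)
      = ∑ s : ZMod n, (wt N s : ℝ) * F (v.1 - s) := by
  rw [Fintype.sum_prod_type]
  rw [← Equiv.sum_comp (Equiv.subLeft v.1)
    (fun s => (wt N s : ℝ) * F (v.1 - s))]
  refine sum_congr rfl fun j _ => ?_
  simp only [Equiv.subLeft_apply, sub_sub_cancel]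
  by_cases hj : v.1 = j
  · subst hj
    simp [wt, htG_adj]
  · have hne : v.1 - j ≠ 0 := sub_ne_zero.2 hj
    have e1 : ∀ b : ZMod N, (if (htG n N).Adj v (j, b) then F j else 0)
        = (if (v.2 + b).val < wt N (v.1 - j) then F j else 0) := by
      intro b
      have : (htG n N).Adj v (j, b) ↔ (v.2 + b).val < wt N (v.1 - j) := by
        rw [htG_adj, wt, if_neg hne]
        simp [hj]
      simp only [this]
    rw [sum_congr rfl (fun b _ => e1 b), ← sum_filter, sum_const,
      card_val_lt v.2 (wt_le (N := N) (v.1 - j)), nsmul_eq_mul]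

lemma degree_eq (v : ZMod n × ZMod N) : (htG n N).degree v = Dl n N := by
  have h1 : ((htG n N).degree v : ℝ) = (Dl n N : ℝ) := by
    have h := sum_adj v (fun _ => (1 : ℝ))
    simp only [mul_one] at h
    rw [Dl, Nat.cast_sum, ← h, ← sum_filter, ← SimpleGraph.card_neighborFinset_eq_degree,
      SimpleGraph.neighborFinset_eq_filter]
    simp
  exact_mod_cast h1

lemma N_le_Dl (hn : 2 ≤ n) : N ≤ Dl n N := by
  have h1 : (1 : ZMod n) ≠ 0 := by
    have : Fact (1 < n) := ⟨hn⟩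
    exact one_ne_zero
  calc N = wt N (1 : ZMod n) := by rw [wt, if_neg h1, nm_one hn]; simp
    _ ≤ Dl n N := single_le_sum (f := fun s : ZMod n => wt N s) (fun _ _ => Nat.zero_le _) (mem_univ _)

/-- sums over nonzero elements of `ZMod n` of a function of `nm` -/
lemma sum_nm_le (f : ℕ → ℝ) (hf : ∀ k, 0 ≤ f k) :
    ∑ s : ZMod n, (if s = 0 then 0 else f (nm s)) ≤ 2 * ∑ k ∈ range n, (if k = 0 then 0 else f k) := by
  have h1 : ∀ s : ZMod n, (if s = 0 then 0 else f (nm s)) ≤
      (if s.val = 0 then 0 else f s.val) + (if (-s).val = 0 then 0 else f (-s).val) := by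
    intro s
    by_cases hs : s = 0
    · subst hs; simp
    · have hs' : s.val ≠ 0 := fun h => hs ((ZMod.val_eq_zero s).1 h)
      have hs'' : (-s).val ≠ 0 := fun h => hs (neg_eq_zero.1 ((ZMod.val_eq_zero (-s)).1 h))
      rw [if_neg hs, if_neg hs', if_neg hs'']
      have hneg : (-s).val = n - s.val := by
        have : NeZero s := ⟨hs⟩
        exact ZMod.val_neg_of_ne_zero s
      rw [hneg, nm_eq]
      rcases le_total s.val (n - s.val) with h | h
      · rw [min_eq_left h]; linarith [hf (n - s.val)]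
      · rw [min_eq_right h]; linarith [hf s.val]
  have h2 : ∀ g : ℕ → ℝ, ∑ s : ZMod n, g s.val = ∑ k ∈ range n, g k := by
    intro g
    have : (range n) = univ.image (fun s : ZMod n => s.val) := by
      ext k
      simp only [mem_range, mem_image, mem_univ, true_and]
      constructor
      · intro hk; exact ⟨(k : ZMod n), ZMod.val_natCast_of_lt hk⟩
      · rintro ⟨s, rfl⟩; exact ZMod.val_lt s
    rw [this, sum_image]
    intro a _ b _ h
    exact ZMod.val_injective n h
  calc ∑ s : ZMod n, (if s = 0 then 0 else f (nm s))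
      ≤ ∑ s : ZMod n, ((if s.val = 0 then 0 else f s.val)
        + (if (-s).val = 0 then 0 else f (-s).val)) := sum_le_sum fun s _ => h1 s
    _ = ∑ s : ZMod n, (if s.val = 0 then 0 else f s.val)
        + ∑ s : ZMod n, (if (-s).val = 0 then 0 else f (-s).val) := sum_add_distrib
    _ = 2 * ∑ k ∈ range n, (if k = 0 then 0 else f k) := by
        rw [h2 (fun k => if k = 0 then 0 else f k)]
        have h3 : ∑ s : ZMod n, (if (-s).val = 0 then 0 else f (-s).val)
            = ∑ s : ZMod n, (if s.val = 0 then 0 else f s.val) :=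
          Equiv.sum_comp (Equiv.neg (ZMod n)) (fun s : ZMod n => if s.val = 0 then 0 else f s.val)
        rw [h3, h2 (fun k => if k = 0 then 0 else f k)]
        ring

lemma sum_cube_aux (M : ℕ) : ∑ k ∈ range (M + 2), (if k = 0 then (0 : ℝ) else 1 / (k : ℝ) ^ 3)
    ≤ 2 - 1 / ((M : ℝ) + 2) := by
  induction M with
  | zero => simp [sum_range_succ]; norm_num
  | succ M ih =>
    rw [sum_range_succ, if_neg (Nat.succ_ne_zero (M + 1))]
    have h1 : (1 : ℝ) / ((M + 2 : ℕ) : ℝ) ^ 3 ≤ 1 / ((M : ℝ) + 2) - 1 / (((M + 1 : ℕ) : ℝ) + 2) := by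
      push_cast
      have hM : (0 : ℝ) ≤ M := Nat.cast_nonneg M
      rw [div_sub_div _ _ (by positivity) (by positivity), div_le_div_iff₀ (by positivity) (by positivity)]
      nlinarith [mul_nonneg hM hM, mul_nonneg (mul_nonneg hM hM) hM]
    have h2 : ((M + 1 + 1 : ℕ) : ℝ) = ((M + 2 : ℕ) : ℝ) := by push_cast; ring
    linarith

lemma sum_cube (n : ℕ) : ∑ k ∈ range n, (if k = 0 then (0 : ℝ) else 1 / (k : ℝ) ^ 3) ≤ 2 := by
  calc ∑ k ∈ range n, (if k = 0 then (0 : ℝ) else 1 / (k : ℝ) ^ 3)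
      ≤ ∑ k ∈ range (n + 2), (if k = 0 then (0 : ℝ) else 1 / (k : ℝ) ^ 3) := by
        refine sum_le_sum_of_subset_of_nonneg ?_ ?_
        · intro k hk; rw [mem_range] at hk ⊢; omega
        · intro k _ _; split_ifs <;> positivity
    _ ≤ 2 - 1 / ((n : ℝ) + 2) := sum_cube_aux n
    _ ≤ 2 := by
        have : (0 : ℝ) ≤ 1 / ((n : ℝ) + 2) := by positivity
        linarith

lemma Dl_le : (Dl n N : ℝ) ≤ 4 * N := by
  have h1 : (Dl n N : ℝ) ≤ ∑ s : ZMod n, (if s = 0 then 0 else (N : ℝ) * (1 / (nm s : ℝ) ^ 3)) := by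
    rw [Dl, Nat.cast_sum]
    refine sum_le_sum fun s _ => ?_
    unfold wt
    split_ifs
    · simp
    · refine (Nat.cast_div_le).trans ?_
      push_cast
      rw [mul_one_div]
  refine h1.trans ((sum_nm_le (n := n) (fun k => (N : ℝ) * (1 / (k : ℝ) ^ 3))
    (fun k => by positivity)).trans ?_)
  have h2 : ∑ k ∈ range n, (if k = 0 then (0 : ℝ) else (N : ℝ) * (1 / (k : ℝ) ^ 3))
      = N * ∑ k ∈ range n, (if k = 0 then (0 : ℝ) else 1 / (k : ℝ) ^ 3) := by
    rw [mul_sum]
    refine sum_congr rfl fun k _ => ?_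
    split_ifs <;> simp
  rw [h2]
  have h3 := sum_cube n
  have hN : (0 : ℝ) ≤ N := Nat.cast_nonneg N
  nlinarith

lemma adj_succ (hn : 2 ≤ n) (i : ZMod n) (a b : ZMod N) : (htG n N).Adj (i, a) (i + 1, b) := by
  have h1 : (1 : ZMod n) ≠ 0 := by
    have : Fact (1 < n) := ⟨hn⟩
    exact one_ne_zero
  rw [htG_adj]
  refine ⟨?_, ?_⟩
  · intro h
    apply h1
    have : i = i + 1 := h
    simpa using this.symm
  · have : i - (i + 1) = -(1 : ZMod n) := by ring
    simp only [this, nm_neg, nm_one hn]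
    simpa using ZMod.val_lt (a + b)

lemma connected (hn : 2 ≤ n) : (htG n N).Connected := by
  have h1 : ∀ (l : ℕ) (a : ZMod N), (htG n N).Reachable (0, 0) ((l : ZMod n), a) := by
    intro l
    induction l with
    | zero =>
      intro a
      have e1 : (htG n N).Adj ((0 : ZMod n), (0 : ZMod N)) (0 + 1, 0) := adj_succ hn 0 0 0
      have e2 : (htG n N).Adj ((0 : ZMod n), a) (0 + 1, 0) := adj_succ hn 0 a 0
      rw [Nat.cast_zero]
      exact e1.reachable.trans e2.reachable.symm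
    | succ l ih =>
      intro a
      rw [Nat.cast_succ]
      exact (ih 0).trans (adj_succ hn (l : ZMod n) 0 a).reachable
  have h2 : ∀ v : ZMod n × ZMod N, (htG n N).Reachable (0, 0) v := by
    rintro ⟨i, a⟩
    have := h1 i.val a
    rwa [ZMod.natCast_zmod_val] at this
  refine { preconnected := fun v w => (h2 v).symm.trans (h2 w), nonempty := ⟨(0, 0)⟩ }

/-- Dyadic sum bound. -/
lemma dyadic (M : ℕ) : ∀ c : ℝ, 0 ≤ c →
    ∑ k ∈ range M, (if 1 ≤ c * 2 ^ k then ((1 : ℝ) / 2) ^ k else 0) ≤ 2 * c := by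
  induction M with
  | zero => intro c hc; simpa using hc
  | succ M ih =>
    intro c hc
    rcases le_or_gt 1 c with h | h
    · calc ∑ k ∈ range (M + 1), (if 1 ≤ c * 2 ^ k then ((1 : ℝ) / 2) ^ k else 0)
          ≤ ∑ k ∈ range (M + 1), ((1 : ℝ) / 2) ^ k := by
            refine sum_le_sum fun k _ => ?_
            split_ifs
            · exact le_refl _
            · positivity
        _ ≤ 2 := sum_geometric_two_le _
        _ ≤ 2 * c := by linarith
    · rw [sum_range_succ']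
      simp only [pow_zero, mul_one, if_neg (not_le.2 h), add_zero]
      have h1 := ih (2 * c) (by linarith)
      have h2 : ∑ k ∈ range M, (if 1 ≤ c * 2 ^ (k + 1) then ((1 : ℝ) / 2) ^ (k + 1) else 0)
          = (1 / 2) * ∑ k ∈ range M, (if 1 ≤ 2 * c * 2 ^ k then ((1 : ℝ) / 2) ^ k else 0) := by
        rw [mul_sum]
        refine sum_congr rfl fun k _ => ?_
        have : c * 2 ^ (k + 1) = 2 * c * 2 ^ k := by ring
        rw [this]
        split_ifs
        · ring
        · simp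
      rw [h2]
      linarith

/-- The cost of a vertex dominates the weighted number of its good scales. -/
lemma cost_vertex (m e : ℕ) (D : ℝ) (hN : 0 < N) (hD : 0 < D) (hDN : D ≤ 4 * N) :
    ∑ k ∈ Icc 2 m, (if N ≤ 32 * 4 ^ k * e then ((1 : ℝ) / 2) ^ k else 0) ≤ 24 * √((e : ℝ) / D) := by
  have hNr : (0 : ℝ) < N := by exact_mod_cast hN
  set c : ℝ := √(32 * e / N) with hc
  have h1 : ∑ k ∈ Icc 2 m, (if N ≤ 32 * 4 ^ k * e then ((1 : ℝ) / 2) ^ k else 0)
      ≤ ∑ k ∈ range (m + 1), (if 1 ≤ c * 2 ^ k then ((1 : ℝ) / 2) ^ k else 0) := by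
    calc ∑ k ∈ Icc 2 m, (if N ≤ 32 * 4 ^ k * e then ((1 : ℝ) / 2) ^ k else 0)
        ≤ ∑ k ∈ Icc 2 m, (if 1 ≤ c * 2 ^ k then ((1 : ℝ) / 2) ^ k else 0) := by
          refine sum_le_sum fun k _ => ?_
          by_cases hk : N ≤ 32 * 4 ^ k * e
          · rw [if_pos hk, if_pos]
            have hk' : (N : ℝ) ≤ 32 * 4 ^ k * e := by exact_mod_cast hk
            have e1 : (1 : ℝ) ≤ (c * 2 ^ k) ^ 2 := by
              rw [mul_pow, hc, Real.sq_sqrt (by positivity), ← pow_mul, mul_comm k 2, pow_mul]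
              norm_num
              rw [div_mul_eq_mul_div, le_div_iff₀ hNr]
              linarith
            have e2 : 0 ≤ c * 2 ^ k := by positivity
            nlinarith
          · rw [if_neg hk]
            split_ifs <;> positivity
      _ ≤ _ := by
          refine sum_le_sum_of_subset_of_nonneg ?_ ?_
          · intro k hk; rw [mem_Icc] at hk; rw [mem_range]; omega
          · intro k _ _; split_ifs <;> positivity
  refine h1.trans ((dyadic _ c (Real.sqrt_nonneg _)).trans ?_)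
  have h2 : c ≤ √(144 * ((e : ℝ) / D)) := by
    rw [hc]
    apply Real.sqrt_le_sqrt
    have e1 : (e : ℝ) / (4 * N) ≤ e / D := by
      apply div_le_div_of_nonneg_left (by positivity) hD hDN
    have e2 : 32 * (e : ℝ) / N = 128 * (e / (4 * N)) := by field_simp; ring
    have e3 : 0 ≤ (e : ℝ) / D := by positivity
    rw [e2]
    linarith
  have h3 : √(144 * ((e : ℝ) / D)) = 12 * √((e : ℝ) / D) := by
    rw [Real.sqrt_mul (by norm_num), show (144 : ℝ) = 12 ^ 2 by norm_num,
      Real.sqrt_sq (by norm_num)]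
  linarith

/-- Lower bound for the total cost of a set. -/
theorem cost_lower (m : ℕ) (hn : n = 2 ^ m) (hNm : N = 8 ^ m) (hm : 2 ≤ m)
    (S : Finset (ZMod n × ZMod N)) (hS : 2 * S.card ≤ n * N) :
    ((m : ℝ) - 1) * S.card / (1584 * n) ≤ ∑ v ∈ S, √((ee S v : ℝ) / Dl n N) := by
  have hNpos : 0 < N := Nat.pos_of_ne_zero (NeZero.ne N)
  have hnpos : 0 < n := Nat.pos_of_ne_zero (NeZero.ne n)
  have hnr : (0 : ℝ) < n := by exact_mod_cast hnpos
  have hn2 : 2 ≤ n := by
    rw [hn]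
    calc 2 = 2 ^ 1 := by norm_num
      _ ≤ 2 ^ m := Nat.pow_le_pow_right (by norm_num) (by omega)
  have hDpos : (0 : ℝ) < Dl n N := by
    have := N_le_Dl (n := n) (N := N) hn2
    exact_mod_cast (by omega : 0 < Dl n N)
  have h1 : ∀ k ∈ Icc 2 m, (S.card : ℝ) / (66 * n)
      ≤ ((1 : ℝ) / 2) ^ k * (S.filter (fun v => N ≤ 32 * 4 ^ k * ee S v)).card := by
    intro k hk
    rw [mem_Icc] at hk
    have hδ : N = 8 ^ (m - k) * 8 ^ k := by rw [hNm, ← pow_add]; congr 1; omega
    have hrn : 2 ^ k ≤ n := by rw [hn]; exact Nat.pow_le_pow_right (by norm_num) hk.2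
    have := main_comb S k (2 ^ k) (8 ^ (m - k)) rfl hk.1 hδ hrn hS
    have hc : ((2 : ℝ) ^ k) * S.card
        ≤ 66 * n * (S.filter (fun v => N ≤ 32 * 4 ^ k * ee S v)).card := by exact_mod_cast this
    rw [div_le_iff₀ (by positivity)]
    have h2k : (0 : ℝ) < 2 ^ k := by positivity
    have e1 : ((1 : ℝ) / 2) ^ k = 1 / 2 ^ k := by rw [div_pow, one_pow]
    rw [e1]
    rw [show (1 : ℝ) / 2 ^ k * ((S.filter (fun v => N ≤ 32 * 4 ^ k * ee S v)).card : ℝ) * (66 * n)
      = (66 * n * (S.filter (fun v => N ≤ 32 * 4 ^ k * ee S v)).card) / 2 ^ k by ring]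
    rw [le_div_iff₀ h2k]
    linarith
  have h2 : ((m : ℝ) - 1) * (S.card / (66 * n)) ≤
      ∑ k ∈ Icc 2 m, ((1 : ℝ) / 2) ^ k * (S.filter (fun v => N ≤ 32 * 4 ^ k * ee S v)).card := by
    calc ((m : ℝ) - 1) * (S.card / (66 * n)) = ∑ k ∈ Icc 2 m, (S.card : ℝ) / (66 * n) := by
          rw [sum_const, Nat.card_Icc, nsmul_eq_mul]
          congr 1
          have : m + 1 - 2 = m - 1 := by omega
          rw [this, Nat.cast_sub (by omega)]; simp
      _ ≤ _ := sum_le_sum h1
  have h3 : ∑ k ∈ Icc 2 m, ((1 : ℝ) / 2) ^ k * (S.filter (fun v => N ≤ 32 * 4 ^ k * ee S v)).card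
      = ∑ v ∈ S, ∑ k ∈ Icc 2 m, (if N ≤ 32 * 4 ^ k * ee S v then ((1 : ℝ) / 2) ^ k else 0) := by
    rw [sum_comm]
    refine sum_congr rfl fun k _ => ?_
    rw [← sum_filter, sum_const, nsmul_eq_mul, mul_comm]
  rw [h3] at h2
  have h4 : ∑ v ∈ S, ∑ k ∈ Icc 2 m, (if N ≤ 32 * 4 ^ k * ee S v then ((1 : ℝ) / 2) ^ k else 0)
      ≤ ∑ v ∈ S, 24 * √((ee S v : ℝ) / Dl n N) :=
    sum_le_sum fun v _ => cost_vertex m (ee S v) (Dl n N) hNpos hDpos Dl_le
  rw [← mul_sum] at h4
  have h5 : ((m : ℝ) - 1) * S.card / (1584 * n) = ((m : ℝ) - 1) * (S.card / (66 * n)) / 24 := by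
    field_simp; ring
  rw [h5, div_le_iff₀ (by norm_num)]
  linarith

end deg

end Pool.Agent.R844.HT
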