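import Mathlib
import Pool.Agent.R844.HT
import Pool.Agent.R844.HT2

/-!
# Dirichlet form of the test function
-/

open Finset Matrix

set_option linter.unusedSectionVars false
set_option maxHeartbeats 1000000

namespace Pool.Agent.R844.HT

section dir

variable {n N : ℕ} [NeZero n] [NeZero N]

/-- test function on the cycle -/
def tau {n : ℕ} (h : ℕ) (i : ZMod n) : ℝ := (nm i : ℝ) - (nm (i + (h : ZMod n)) : ℝ)

lemma tau_lip (h : ℕ) (i s : ZMod n) : (tau h i - tau h (i - s)) ^ 2 ≤ 4 * (nm s : ℝ) ^ 2 := by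
  have h1 : (nm i : ℝ) ≤ nm (i - s) + nm s := by
    have := nm_add (i - s) s
    rw [sub_add_cancel] at this
    exact_mod_cast this
  have h2 : (nm (i - s) : ℝ) ≤ nm i + nm s := by
    have := nm_add i (-s)
    rw [nm_neg, ← sub_eq_add_neg] at this
    exact_mod_cast this
  have h3 : (nm (i + (h : ZMod n)) : ℝ) ≤ nm (i - s + (h : ZMod n)) + nm s := by
    have := nm_add (i - s + (h : ZMod n)) s
    rw [show i - s + (h : ZMod n) + s = i + h by ring] at this
    exact_mod_cast this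
  have h4 : (nm (i - s + (h : ZMod n)) : ℝ) ≤ nm (i + (h : ZMod n)) + nm s := by
    have := nm_add (i + (h : ZMod n)) (-s)
    rw [nm_neg, show i + (h : ZMod n) + -s = i - s + (h : ZMod n) by ring] at this
    exact_mod_cast this
  have h5 : tau h i - tau h (i - s) ≤ 2 * nm s := by unfold tau; linarith
  have h6 : -(2 * (nm s : ℝ)) ≤ tau h i - tau h (i - s) := by unfold tau; linarith
  nlinarith

lemma tau_sum (h : ℕ) : ∑ i : ZMod n, tau h i = 0 := by
  have h1 : ∑ i : ZMod n, (nm (i + (h : ZMod n)) : ℝ) = ∑ i : ZMod n, (nm i : ℝ) :=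
    Equiv.sum_comp (Equiv.addRight (h : ZMod n)) (fun i : ZMod n => (nm i : ℝ))
  unfold tau
  rw [sum_sub_distrib, h1, sub_self]

lemma tau_sq (q : ℕ) (hn : n = 8 * q) :
    (n : ℝ) ^ 3 / 128 ≤ ∑ i : ZMod n, tau (4 * q) i ^ 2 := by
  have hq : (n : ℝ) = 8 * q := by exact_mod_cast hn
  have h1 : ∀ i ∈ univ.filter (fun c : ZMod n => c.val < q), (n : ℝ) ^ 2 / 16 ≤ tau (4 * q) i ^ 2 := by
    intro i hi
    simp only [mem_filter, mem_univ, true_and] at hi
    have e1 : nm i = i.val := by rw [nm_eq]; omega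
    have e2 : (i + ((4 * q : ℕ) : ZMod n)).val = i.val + 4 * q := by
      rw [ZMod.val_add, ZMod.val_natCast, Nat.mod_eq_of_lt (show 4 * q < n by omega),
        Nat.mod_eq_of_lt (by omega)]
    have e3 : nm (i + ((4 * q : ℕ) : ZMod n)) = 4 * q - i.val := by
      rw [nm_eq, e2]; omega
    unfold tau
    rw [e1, e3, Nat.cast_sub (by omega), hq]
    have e4 : (i.val : ℝ) < q := by exact_mod_cast hi
    have e5 : (0 : ℝ) ≤ i.val := Nat.cast_nonneg _
    push_cast
    nlinarith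
  calc (n : ℝ) ^ 3 / 128 = ∑ i ∈ univ.filter (fun c : ZMod n => c.val < q), (n : ℝ) ^ 2 / 16 := by
        rw [sum_const, card_val_lt0 (show q ≤ n by omega), nsmul_eq_mul, hq]; ring
    _ ≤ ∑ i ∈ univ.filter (fun c : ZMod n => c.val < q), tau (4 * q) i ^ 2 := sum_le_sum h1
    _ ≤ ∑ i : ZMod n, tau (4 * q) i ^ 2 :=
        sum_le_sum_of_subset_of_nonneg (filter_subset _ _) (fun _ _ _ => sq_nonneg _)

lemma harm (m : ℕ) : ∑ k ∈ range (2 ^ m), (if k = 0 then (0 : ℝ) else 1 / (k : ℝ)) ≤ m := by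
  induction m with
  | zero => simp
  | succ m ih =>
    rw [pow_succ, mul_two, sum_range_add]
    have h1 : ∑ x ∈ range (2 ^ m), (if 2 ^ m + x = 0 then (0 : ℝ) else 1 / ((2 ^ m + x : ℕ) : ℝ))
        ≤ ∑ x ∈ range (2 ^ m), 1 / (2 : ℝ) ^ m := by
      refine sum_le_sum fun x _ => ?_
      split_ifs
      · positivity
      · push_cast
        apply one_div_le_one_div_of_le (by positivity)
        have : (0 : ℝ) ≤ x := Nat.cast_nonneg _
        linarith
    have h2 : ∑ x ∈ range (2 ^ m), 1 / (2 : ℝ) ^ m = 1 := by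
      rw [sum_const, card_range, nsmul_eq_mul]
      push_cast
      field_simp
    push_cast at ih h1 ⊢
    linarith

/-- The Dirichlet form of `tau`. -/
lemma dirichlet (m h : ℕ) (hn : n = 2 ^ m) (hm : 1 ≤ m) :
    ∑ v : ZMod n × ZMod N, tau h v.1 * (tau h v.1 -
      ∑ w : ZMod n × ZMod N, (if (htG n N).Adj v w then 1 / (Dl n N : ℝ) else 0) * tau h w.1)
      ≤ 4 * n * N * m := by
  have hn2 : 2 ≤ n := by
    rw [hn]
    calc 2 = 2 ^ 1 := by norm_num
      _ ≤ 2 ^ m := Nat.pow_le_pow_right (by norm_num) (by omega)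
  have hNpos : 0 < N := Nat.pos_of_ne_zero (NeZero.ne N)
  have hNr : (0 : ℝ) < N := by exact_mod_cast hNpos
  have hNle := N_le_Dl (n := n) (N := N) hn2
  have hNleR : (N : ℝ) ≤ Dl n N := by exact_mod_cast hNle
  have hDpos : (0 : ℝ) < Dl n N := by exact_mod_cast (by omega : 0 < Dl n N)
  have h1 : ∀ v : ZMod n × ZMod N,
      ∑ w : ZMod n × ZMod N, (if (htG n N).Adj v w then 1 / (Dl n N : ℝ) else 0) * tau h w.1
      = (1 / (Dl n N : ℝ)) * ∑ s : ZMod n, (wt N s : ℝ) * tau h (v.1 - s) := by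
    intro v
    rw [← sum_adj v (fun i => tau h i), mul_sum]
    refine sum_congr rfl fun w _ => ?_
    split_ifs <;> simp
  have h2 : ∑ v : ZMod n × ZMod N, tau h v.1 * (tau h v.1 -
      ∑ w : ZMod n × ZMod N, (if (htG n N).Adj v w then 1 / (Dl n N : ℝ) else 0) * tau h w.1)
      = N * ∑ i : ZMod n, tau h i * (tau h i -
        (1 / (Dl n N : ℝ)) * ∑ s : ZMod n, (wt N s : ℝ) * tau h (i - s)) := by
    rw [Fintype.sum_prod_type, mul_sum]
    refine sum_congr rfl fun i _ => ?_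
    rw [sum_congr rfl (fun a _ => by rw [h1 (i, a)])]
    simp only
    rw [sum_const, card_univ, ZMod.card, nsmul_eq_mul]
  have h3 : ∀ s : ZMod n, ∑ i : ZMod n, tau h i * tau h (i - s)
      = ∑ i : ZMod n, tau h i ^ 2 - (1 / 2) * ∑ i : ZMod n, (tau h i - tau h (i - s)) ^ 2 := by
    intro s
    have e1 : ∑ i : ZMod n, tau h (i - s) ^ 2 = ∑ i : ZMod n, tau h i ^ 2 :=
      Equiv.sum_comp (Equiv.subRight s) (fun i => tau h i ^ 2)
    have e2 : ∑ i : ZMod n, (tau h i - tau h (i - s)) ^ 2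
        = ∑ i : ZMod n, tau h i ^ 2 + ∑ i : ZMod n, tau h (i - s) ^ 2
          - 2 * ∑ i : ZMod n, tau h i * tau h (i - s) := by
      rw [mul_sum, ← sum_add_distrib, ← sum_sub_distrib]
      refine sum_congr rfl fun i _ => ?_
      ring
    rw [e2, e1]; ring
  have h4 : ∑ i : ZMod n, tau h i * (tau h i -
        (1 / (Dl n N : ℝ)) * ∑ s : ZMod n, (wt N s : ℝ) * tau h (i - s))
      = (1 / (2 * (Dl n N : ℝ))) *
        ∑ s : ZMod n, (wt N s : ℝ) * ∑ i : ZMod n, (tau h i - tau h (i - s)) ^ 2 := by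
    have e1 : ∑ i : ZMod n, tau h i * (tau h i -
        (1 / (Dl n N : ℝ)) * ∑ s : ZMod n, (wt N s : ℝ) * tau h (i - s))
        = ∑ i : ZMod n, tau h i ^ 2 - (1 / (Dl n N : ℝ)) *
          ∑ s : ZMod n, (wt N s : ℝ) * ∑ i : ZMod n, tau h i * tau h (i - s) := by
      have e2 : ∑ s : ZMod n, (wt N s : ℝ) * ∑ i : ZMod n, tau h i * tau h (i - s)
          = ∑ i : ZMod n, tau h i * ∑ s : ZMod n, (wt N s : ℝ) * tau h (i - s) := by
        simp only [mul_sum]
        rw [sum_comm]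
        refine sum_congr rfl fun i _ => sum_congr rfl fun s _ => ?_
        ring
      rw [e2, mul_sum, ← sum_sub_distrib]
      refine sum_congr rfl fun i _ => ?_
      ring
    have e3 : ∑ s : ZMod n, (wt N s : ℝ) * ∑ i : ZMod n, tau h i * tau h (i - s)
        = (Dl n N : ℝ) * ∑ i : ZMod n, tau h i ^ 2 - (1 / 2) *
          ∑ s : ZMod n, (wt N s : ℝ) * ∑ i : ZMod n, (tau h i - tau h (i - s)) ^ 2 := by
      rw [Dl, Nat.cast_sum, sum_mul, mul_sum, ← sum_sub_distrib]
      refine sum_congr rfl fun s _ => ?_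
      rw [h3 s]; ring
    rw [e1, e3]
    field_simp
    ring
  have h5 : ∑ s : ZMod n, (wt N s : ℝ) * ∑ i : ZMod n, (tau h i - tau h (i - s)) ^ 2
      ≤ ∑ s : ZMod n, (if s = 0 then 0 else 4 * n * N * (1 / (nm s : ℝ))) := by
    refine sum_le_sum fun s _ => ?_
    by_cases hs : s = 0
    · simp [hs, wt]
    · rw [if_neg hs, wt, if_neg hs]
      have e0 : (0 : ℝ) < nm s := by exact_mod_cast nm_pos hs
      have e1 : ((N / nm s ^ 3 : ℕ) : ℝ) ≤ N / (nm s : ℝ) ^ 3 := by
        refine (Nat.cast_div_le).trans ?_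
        push_cast; exact le_refl _
      have e2 : ∑ i : ZMod n, (tau h i - tau h (i - s)) ^ 2 ≤ n * (4 * (nm s : ℝ) ^ 2) := by
        calc ∑ i : ZMod n, (tau h i - tau h (i - s)) ^ 2
            ≤ ∑ i : ZMod n, 4 * (nm s : ℝ) ^ 2 := sum_le_sum fun i _ => tau_lip h i s
          _ = n * (4 * (nm s : ℝ) ^ 2) := by
              rw [sum_const, card_univ, ZMod.card, nsmul_eq_mul]
      calc ((N / nm s ^ 3 : ℕ) : ℝ) * ∑ i : ZMod n, (tau h i - tau h (i - s)) ^ 2
          ≤ (N / (nm s : ℝ) ^ 3) * (n * (4 * (nm s : ℝ) ^ 2)) :=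
            mul_le_mul e1 e2 (sum_nonneg fun _ _ => sq_nonneg _) (by positivity)
        _ = 4 * n * N * (1 / (nm s : ℝ)) := by field_simp
  have h6 : ∑ s : ZMod n, (if s = 0 then 0 else 4 * n * N * (1 / (nm s : ℝ))) ≤ 8 * n * N * m := by
    refine (sum_nm_le (n := n) (fun k => 4 * n * N * (1 / (k : ℝ))) (fun k => by positivity)).trans ?_
    have e1 : ∑ k ∈ range n, (if k = 0 then (0 : ℝ) else 4 * n * N * (1 / (k : ℝ)))
        = 4 * n * N * ∑ k ∈ range n, (if k = 0 then (0 : ℝ) else 1 / (k : ℝ)) := by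
      rw [mul_sum]
      refine sum_congr rfl fun k _ => ?_
      split_ifs <;> simp
    have e2 : ∑ k ∈ range n, (if k = 0 then (0 : ℝ) else 1 / (k : ℝ)) ≤ m := by
      rw [hn]; exact harm m
    rw [e1]
    have e3 : (0 : ℝ) ≤ 4 * n * N := by positivity
    nlinarith
  rw [h2, h4]
  have h7 : (1 / (2 * (Dl n N : ℝ))) *
        ∑ s : ZMod n, (wt N s : ℝ) * ∑ i : ZMod n, (tau h i - tau h (i - s)) ^ 2
        ≤ (1 / (2 * (N : ℝ))) * (8 * n * N * m) := by
    apply mul_le_mul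
    · exact one_div_le_one_div_of_le (by positivity) (by linarith)
    · exact h5.trans h6
    · exact sum_nonneg fun s _ => mul_nonneg (Nat.cast_nonneg _) (sum_nonneg fun _ _ => sq_nonneg _)
    · positivity
  calc _ ≤ (N : ℝ) * ((1 / (2 * (N : ℝ))) * (8 * n * N * m)) := mul_le_mul_of_nonneg_left h7 hNr.le
    _ = 4 * n * N * m := by field_simp; ring

end dir

end Pool.Agent.R844.HT
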