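import Mathlib

/-!
# Upper bound for the second smallest root of the characteristic polynomial
-/

open Finset Matrix

namespace Pool.Agent.R844.HTSpec

variable {V : Type*} [Fintype V] [DecidableEq V]

lemma parseval (b : OrthonormalBasis V ℝ (EuclideanSpace ℝ V)) (x y : V → ℝ) :
    x ⬝ᵥ y = ∑ i, (x ⬝ᵥ (b i).ofLp) * ((b i).ofLp ⬝ᵥ y) := by
  have h := b.sum_inner_mul_inner (WithLp.toLp 2 x) (WithLp.toLp 2 y)
  simp only [EuclideanSpace.inner_eq_star_dotProduct, star_trivial] at h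
  rw [dotProduct_comm, ← h]
  refine sum_congr rfl fun i _ => ?_
  rw [dotProduct_comm x, dotProduct_comm _ y]

lemma exists_two (M : Matrix V V ℝ) (hM : M.IsHermitian) (h1 : M *ᵥ 1 = 0) (g : V → ℝ)
    (hg0 : g ≠ 0) (hg1 : ∑ v, g v = 0) (R : ℝ) (hR : 0 ≤ R)
    (hray : g ⬝ᵥ (M *ᵥ g) ≤ R * (g ⬝ᵥ g)) :
    ∃ i j, i ≠ j ∧ hM.eigenvalues i ≤ R ∧ hM.eigenvalues j ≤ R := by
  by_contra hcon
  push Not at hcon
  have hne : Nonempty V := by
    by_contra h
    rw [not_nonempty_iff] at h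
    exact hg0 (Subsingleton.elim _ _)
  obtain ⟨i₀, hi₀⟩ : ∃ i₀, ∀ i, i ≠ i₀ → R < hM.eigenvalues i := by
    by_cases h : ∃ i₀, hM.eigenvalues i₀ ≤ R
    · obtain ⟨i₀, h⟩ := h
      exact ⟨i₀, fun i hi => hcon i₀ i hi.symm h⟩
    · push Not at h
      exact ⟨Classical.arbitrary V, fun i _ => h i⟩
  have hsym : ∀ x y : V → ℝ, x ⬝ᵥ (M *ᵥ y) = (M *ᵥ x) ⬝ᵥ y := by
    intro x y
    have hT : Mᵀ = M := by
      have := hM.eq
      rwa [conjTranspose_eq_transpose_of_trivial] at this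
    rw [dotProduct_mulVec, ← mulVec_transpose, hT]
  -- the test vector
  obtain ⟨α, β, hαβ, hx⟩ : ∃ α β : ℝ, (α ≠ 0 ∨ β ≠ 0) ∧
      (α • (1 : V → ℝ) + β • g) ⬝ᵥ (hM.eigenvectorBasis i₀).ofLp = 0 := by
    set u := (hM.eigenvectorBasis i₀).ofLp
    by_cases h : (1 : V → ℝ) ⬝ᵥ u = 0
    · by_cases h' : g ⬝ᵥ u = 0
      · exact ⟨1, 0, Or.inl one_ne_zero, by simp [h]⟩
      · exact ⟨1, 0, Or.inl one_ne_zero, by simp [h]⟩
    · refine ⟨g ⬝ᵥ u, - ((1 : V → ℝ) ⬝ᵥ u), Or.inr (neg_ne_zero.2 h), ?_⟩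
      rw [add_dotProduct, smul_dotProduct, smul_dotProduct, smul_eq_mul, smul_eq_mul]
      ring
  set x := α • (1 : V → ℝ) + β • g with hxdef
  have h1g : (1 : V → ℝ) ⬝ᵥ g = 0 := by simpa [dotProduct] using hg1
  have hg1' : g ⬝ᵥ (1 : V → ℝ) = 0 := by rw [dotProduct_comm]; exact h1g
  have h11 : (1 : V → ℝ) ⬝ᵥ (1 : V → ℝ) = Fintype.card V := by simp [dotProduct]
  have hxx : x ⬝ᵥ x = α ^ 2 * Fintype.card V + β ^ 2 * (g ⬝ᵥ g) := by
    rw [hxdef]
    simp only [add_dotProduct, dotProduct_add, smul_dotProduct, dotProduct_smul, smul_eq_mul,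
      h1g, hg1', h11]
    ring
  have hgg : 0 < g ⬝ᵥ g := by
    have h0 : 0 ≤ g ⬝ᵥ g := by
      unfold dotProduct; exact sum_nonneg fun i _ => mul_self_nonneg _
    rcases h0.lt_or_eq with h | h
    · exact h
    · exact absurd (dotProduct_self_eq_zero.1 h.symm) hg0
  have hcard : (0 : ℝ) < Fintype.card V := by
    exact_mod_cast Fintype.card_pos
  have hxpos : 0 < x ⬝ᵥ x := by
    rw [hxx]
    rcases hαβ with h | h
    · have : 0 < α ^ 2 := by positivity
      positivity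
    · have : 0 < β ^ 2 := by positivity
      positivity
  have hMx : M *ᵥ x = β • (M *ᵥ g) := by
    rw [hxdef, mulVec_add, mulVec_smul, mulVec_smul, h1, smul_zero, zero_add]
  have hxMx : x ⬝ᵥ (M *ᵥ x) = β ^ 2 * (g ⬝ᵥ (M *ᵥ g)) := by
    rw [hMx, hxdef]
    simp only [add_dotProduct, smul_dotProduct, dotProduct_smul, smul_eq_mul]
    rw [hsym 1 g, h1, zero_dotProduct]
    ring
  have hle : x ⬝ᵥ (M *ᵥ x) ≤ R * (x ⬝ᵥ x) := by
    rw [hxMx, hxx]
    have e1 : β ^ 2 * (g ⬝ᵥ (M *ᵥ g)) ≤ β ^ 2 * (R * (g ⬝ᵥ g)) :=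
      mul_le_mul_of_nonneg_left hray (sq_nonneg _)
    have e2 : 0 ≤ R * (α ^ 2 * Fintype.card V) := by positivity
    nlinarith
  -- spectral expansion
  have hexp1 : x ⬝ᵥ (M *ᵥ x) = ∑ i, hM.eigenvalues i *
      (x ⬝ᵥ (hM.eigenvectorBasis i).ofLp) ^ 2 := by
    rw [parseval hM.eigenvectorBasis x (M *ᵥ x)]
    refine sum_congr rfl fun i _ => ?_
    rw [hsym, hM.mulVec_eigenvectorBasis, smul_dotProduct, smul_eq_mul,
      dotProduct_comm (hM.eigenvectorBasis i).ofLp x]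
    ring
  have hexp2 : x ⬝ᵥ x = ∑ i, (x ⬝ᵥ (hM.eigenvectorBasis i).ofLp) ^ 2 := by
    rw [parseval hM.eigenvectorBasis x x]
    refine sum_congr rfl fun i _ => ?_
    rw [dotProduct_comm (hM.eigenvectorBasis i).ofLp x]
    ring
  have hterm : ∀ i ∈ (univ : Finset V), 0 ≤ (hM.eigenvalues i - R) *
      (x ⬝ᵥ (hM.eigenvectorBasis i).ofLp) ^ 2 := by
    intro i _
    by_cases hi : i = i₀
    · rw [hi, hx]; simp
    · have := hi₀ i hi
      have h2 : 0 ≤ hM.eigenvalues i - R := by linarith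
      positivity
  have hsum : ∑ i, (hM.eigenvalues i - R) * (x ⬝ᵥ (hM.eigenvectorBasis i).ofLp) ^ 2 ≤ 0 := by
    have : ∑ i, (hM.eigenvalues i - R) * (x ⬝ᵥ (hM.eigenvectorBasis i).ofLp) ^ 2
        = x ⬝ᵥ (M *ᵥ x) - R * (x ⬝ᵥ x) := by
      rw [hexp1, hexp2, mul_sum, ← sum_sub_distrib]
      refine sum_congr rfl fun i _ => ?_
      ring
    rw [this]; linarith
  have hzero : ∀ i ∈ (univ : Finset V), (hM.eigenvalues i - R) *
      (x ⬝ᵥ (hM.eigenvectorBasis i).ofLp) ^ 2 = 0 := by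
    rw [← sum_eq_zero_iff_of_nonneg hterm]
    exact le_antisymm hsum (sum_nonneg hterm)
  have : x ⬝ᵥ x = 0 := by
    rw [hexp2]
    refine sum_eq_zero fun i hi => ?_
    by_cases hii : i = i₀
    · rw [hii, hx]; simp
    · rcases mul_eq_zero.1 (hzero i hi) with h | h
      · have := hi₀ i hii
        linarith
      · exact h
  linarith

/-- If `M` is real symmetric, `M 1 = 0` and the Rayleigh quotient of some nonzero `g ⊥ 1` is at
most `R`, then the second smallest root of the characteristic polynomial is at most `R`. -/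
theorem second_root_le (M : Matrix V V ℝ) (hM : M.IsHermitian) (h1 : M *ᵥ 1 = 0) (g : V → ℝ)
    (hg0 : g ≠ 0) (hg1 : ∑ v, g v = 0) (R : ℝ) (hR : 0 ≤ R)
    (hray : g ⬝ᵥ (M *ᵥ g) ≤ R * (g ⬝ᵥ g)) :
    (M.charpoly.roots.sort (· ≤ ·)).getD 1 0 ≤ R := by
  obtain ⟨i, j, hij, hi, hj⟩ := exists_two M hM h1 g hg0 hg1 R hR hray
  by_contra hcon
  push Not at hcon
  have hroots := hM.roots_charpoly_eq_eigenvalues
  have hpw := Multiset.pairwise_sort M.charpoly.roots (· ≤ ·)
  have hse := Multiset.sort_eq M.charpoly.roots (· ≤ ·)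
  set l := M.charpoly.roots.sort (· ≤ ·) with hl
  have hcnt : 2 ≤ (l.filter (fun y => decide (y ≤ R))).length := by
    have e1 : (l.filter (fun y => decide (y ≤ R))).length
        = Multiset.card (Multiset.filter (fun y => y ≤ R) M.charpoly.roots) := by
      rw [← hse]
      simp
    rw [e1, hroots, Multiset.filter_map, Multiset.card_map]
    have e2 : ({i, j} : Finset V).val ≤
        Multiset.filter ((fun y => y ≤ R) ∘ (RCLike.ofReal ∘ hM.eigenvalues)) univ.val := by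
      rw [← Finset.filter_val, Finset.val_le_iff]
      intro k hk
      rw [mem_filter]
      refine ⟨mem_univ _, ?_⟩
      simp only [mem_insert, mem_singleton] at hk
      rcases hk with rfl | rfl
      · simpa using hi
      · simpa using hj
    have e3 := Multiset.card_le_card e2
    rw [Finset.card_val, card_pair hij] at e3
    exact e3
  match l, hpw, hcon, hcnt with
  | [], _, hcon, _ => simp at hcon; linarith
  | [a], _, hcon, _ => simp at hcon; linarith
  | a :: b :: tl, hpw, hcon, hcnt =>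
    simp only [List.getD_cons_succ, List.getD_cons_zero] at hcon
    rw [List.pairwise_cons, List.pairwise_cons] at hpw
    have hb : (b :: tl).filter (fun y => decide (y ≤ R)) = [] := by
      rw [List.filter_eq_nil_iff]
      intro c hc
      rw [List.mem_cons] at hc
      simp only [decide_eq_true_eq, not_le]
      rcases hc with rfl | hc
      · exact hcon
      · exact hcon.trans_le (hpw.2.1 c hc)
    rw [List.filter_cons, hb] at hcnt
    split_ifs at hcnt <;> simp at hcnt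

end Pool.Agent.R844.HTSpec
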