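import Mathlib

/-!
# The Maurer-Cartan three-form of a family of units

Smooth maps from `ℝ⁴` to the units of a normed algebra with a trace: the Maurer-Cartan three-form
`ω` is closed.
-/

set_option autoImplicit false

namespace Pool.Agent.R844.MC

open MeasureTheory Set Topology

/-- The points of `ℝ⁴`. -/
abbrev V4 : Type := Fin 4 → ℝ

section pd

variable {F : Type*} [NormedAddCommGroup F] [NormedSpace ℝ F]

/-- The partial derivatives. -/
noncomputable def pd (i : Fin 4) (f : V4 → F) (x : V4) : F := fderiv ℝ f x (Pi.single i 1)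

lemma pd_eq_of_hasDerivAt {f : V4 → F} {x : V4} {i : Fin 4} {d : F}
    (hf : DifferentiableAt ℝ f x)
    (h : HasDerivAt (fun s => f (Function.update x i s)) d (x i)) : pd i f x = d := by
  have h1 : HasDerivAt (fun s => f (Function.update x i s)) (fderiv ℝ f x (Pi.single i 1)) (x i) := by
    have h2 : HasFDerivAt f (fderiv ℝ f x) (Function.update x i (x i)) := by
      rw [Function.update_eq_self]
      exact hf.hasFDerivAt
    exact h2.comp_hasDerivAt (x i) (hasDerivAt_update x i (x i))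
  exact h1.unique h

lemma contDiff_pd {f : V4 → F} (hf : ContDiff ℝ ⊤ f) (i : Fin 4) : ContDiff ℝ ⊤ (pd i f) := by
  have h1 : ContDiff ℝ ⊤ (fderiv ℝ f) := hf.fderiv_right (m := ⊤) (by simp)
  exact h1.clm_apply contDiff_const

lemma pd_comm {f : V4 → F} (hf : ContDiff ℝ ⊤ f) (i j : Fin 4) (x : V4) :
    pd i (pd j f) x = pd j (pd i f) x := by
  have h1 : DifferentiableAt ℝ (fderiv ℝ f) x :=
    ((hf.fderiv_right (m := ⊤) (by simp)).differentiable (by simp)) x
  have h2 : ∀ j, fderiv ℝ (pd j f) x = (fderiv ℝ (fderiv ℝ f) x).flip (Pi.single j 1) := by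
    intro j
    have h3 := h1.hasFDerivAt.clm_apply (hasFDerivAt_const (Pi.single j (1 : ℝ) : V4) x)
    have h4 : fderiv ℝ (pd j f) x = _ := h3.fderiv
    rw [h4]
    ext v
    simp
  have hs : IsSymmSndFDerivAt ℝ f x :=
    hf.contDiffAt.isSymmSndFDerivAt (by simp)
  change fderiv ℝ (pd j f) x (Pi.single i 1) = fderiv ℝ (pd i f) x (Pi.single j 1)
  rw [h2 j, h2 i, ContinuousLinearMap.flip_apply, ContinuousLinearMap.flip_apply]
  exact hs _ _

lemma pd_sub {f g : V4 → F} {x : V4} (hf : DifferentiableAt ℝ f x) (hg : DifferentiableAt ℝ g x)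
    (i : Fin 4) : pd i (fun x => f x - g x) x = pd i f x - pd i g x := by
  unfold pd
  rw [fderiv_fun_sub hf hg]
  rfl

lemma pd_neg {f : V4 → F} {x : V4} (i : Fin 4) : pd i (fun x => - f x) x = - pd i f x := by
  unfold pd
  rw [fderiv_fun_neg]
  rfl

lemma pd_clm {G : Type*} [NormedAddCommGroup G] [NormedSpace ℝ G] (τ : F →L[ℝ] G) {f : V4 → F}
    {x : V4} (hf : DifferentiableAt ℝ f x) (i : Fin 4) :
    pd i (fun x => τ (f x)) x = τ (pd i f x) := by
  unfold pd
  have := (τ.hasFDerivAt.comp x hf.hasFDerivAt).fderiv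
  have h2 : fderiv ℝ (fun x => τ (f x)) x = _ := this
  rw [h2]
  rfl

end pd

variable {𝔸 : Type*} [NormedRing 𝔸] [NormedAlgebra ℝ 𝔸]

lemma pd_mul {f g : V4 → 𝔸} {x : V4} (hf : DifferentiableAt ℝ f x) (hg : DifferentiableAt ℝ g x)
    (i : Fin 4) : pd i (fun x => f x * g x) x = f x * pd i g x + pd i f x * g x := by
  unfold pd
  have h2 : fderiv ℝ (fun x => f x * g x) x = _ := fderiv_mul' hf hg
  rw [h2]
  simp [MulOpposite.smul_eq_mul_unop]

section family

variable (M W : V4 → 𝔸)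

/-- The components `M⁻¹ ∂ᵢ M` of the Maurer-Cartan form; `W = M⁻¹`. -/
noncomputable def mu (i : Fin 4) (x : V4) : 𝔸 := W x * pd i M x

variable {M W}

lemma contDiff_mu (hM : ContDiff ℝ ⊤ M) (hW : ContDiff ℝ ⊤ W) (i : Fin 4) :
    ContDiff ℝ ⊤ (mu M W i) := hW.mul (contDiff_pd hM i)

lemma pd_inv (hM : ContDiff ℝ ⊤ M) (hW : ContDiff ℝ ⊤ W) (h1 : ∀ x, M x * W x = 1)
    (h2 : ∀ x, W x * M x = 1) (i : Fin 4) (x : V4) : pd i W x = - (mu M W i x * W x) := by
  have hMd : DifferentiableAt ℝ M x := (hM.differentiable (by simp)) x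
  have hWd : DifferentiableAt ℝ W x := (hW.differentiable (by simp)) x
  have h3 := pd_mul hWd hMd i
  have h4 : (fun x => W x * M x) = fun _ => (1 : 𝔸) := funext h2
  rw [h4] at h3
  have h5 : pd i (fun _ => (1 : 𝔸)) x = 0 := by
    unfold pd
    rw [fderiv_fun_const]
    rfl
  rw [h5] at h3
  have h6 : pd i W x = pd i W x * M x * W x := by rw [mul_assoc, h1, mul_one]
  rw [h6]
  have h7 : pd i W x * M x = - (W x * pd i M x) := by
    rw [eq_neg_iff_add_eq_zero, add_comm]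
    exact h3.symm
  rw [h7, neg_mul]
  rfl

/-- Flatness. -/
lemma pd_mu (hM : ContDiff ℝ ⊤ M) (hW : ContDiff ℝ ⊤ W) (h1 : ∀ x, M x * W x = 1)
    (h2 : ∀ x, W x * M x = 1) (i j : Fin 4) (x : V4) :
    pd i (mu M W j) x = W x * pd i (pd j M) x - mu M W i x * mu M W j x := by
  have hWd : DifferentiableAt ℝ W x := (hW.differentiable (by simp)) x
  have hMd : DifferentiableAt ℝ (pd j M) x := ((contDiff_pd hM j).differentiable (by simp)) x
  have h3 := pd_mul hWd hMd i
  have h4 : pd i (mu M W j) x = _ := h3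
  rw [h4, pd_inv hM hW h1 h2]
  unfold mu
  noncomm_ring

/-- The Maurer-Cartan three-form. -/
noncomputable def om (τ : 𝔸 →L[ℝ] ℝ) (M W : V4 → 𝔸) (j k l : Fin 4) (x : V4) : ℝ :=
  τ (mu M W j x * (mu M W k x * mu M W l x - mu M W l x * mu M W k x))

lemma contDiff_om (τ : 𝔸 →L[ℝ] ℝ) (hM : ContDiff ℝ ⊤ M) (hW : ContDiff ℝ ⊤ W) (j k l : Fin 4) :
    ContDiff ℝ ⊤ (om τ M W j k l) :=
  τ.contDiff.comp ((contDiff_mu hM hW j).mul (((contDiff_mu hM hW k).mul
    (contDiff_mu hM hW l)).sub ((contDiff_mu hM hW l).mul (contDiff_mu hM hW k))))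

lemma pd_om (τ : 𝔸 →L[ℝ] ℝ) (hM : ContDiff ℝ ⊤ M) (hW : ContDiff ℝ ⊤ W) (i j k l : Fin 4)
    (x : V4) : pd i (om τ M W j k l) x =
      τ (mu M W j x * (mu M W k x * pd i (mu M W l) x + pd i (mu M W k) x * mu M W l x
        - (mu M W l x * pd i (mu M W k) x + pd i (mu M W l) x * mu M W k x))
        + pd i (mu M W j) x * (mu M W k x * mu M W l x - mu M W l x * mu M W k x)) := by
  have hd : ∀ j, DifferentiableAt ℝ (mu M W j) x := fun j =>
    ((contDiff_mu hM hW j).differentiable (by simp)) x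
  have h1 : DifferentiableAt ℝ (fun x => mu M W k x * mu M W l x) x := (hd k).mul (hd l)
  have h2 : DifferentiableAt ℝ (fun x => mu M W l x * mu M W k x) x := (hd l).mul (hd k)
  have h3 : DifferentiableAt ℝ (fun x => mu M W k x * mu M W l x - mu M W l x * mu M W k x) x :=
    h1.sub h2
  have h4 : DifferentiableAt ℝ
      (fun x => mu M W j x * (mu M W k x * mu M W l x - mu M W l x * mu M W k x)) x :=
    (hd j).mul h3
  have h5 := pd_clm τ h4 i
  have h6 : pd i (om τ M W j k l) x = _ := h5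
  rw [h6, pd_mul (hd j) h3, pd_sub h1 h2, pd_mul (hd k) (hd l), pd_mul (hd l) (hd k)]

/-- The Maurer-Cartan three-form is closed. -/
lemma closed (τ : 𝔸 →L[ℝ] ℝ) (hτ : ∀ a b, τ (a * b) = τ (b * a)) (hM : ContDiff ℝ ⊤ M)
    (hW : ContDiff ℝ ⊤ W) (h1 : ∀ x, M x * W x = 1) (h2 : ∀ x, W x * M x = 1) (x : V4) :
    pd 0 (om τ M W 1 2 3) x - pd 1 (om τ M W 0 2 3) x + pd 2 (om τ M W 0 1 3) x
      - pd 3 (om τ M W 0 1 2) x = 0 := by
  rw [pd_om τ hM hW, pd_om τ hM hW, pd_om τ hM hW, pd_om τ hM hW]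
  simp only [pd_mu hM hW h1 h2]
  rw [pd_comm hM 1 0, pd_comm hM 2 0, pd_comm hM 3 0, pd_comm hM 2 1, pd_comm hM 3 1,
    pd_comm hM 3 2]
  generalize W x * pd 0 (pd 1 M) x = s01
  generalize W x * pd 0 (pd 2 M) x = s02
  generalize W x * pd 0 (pd 3 M) x = s03
  generalize W x * pd 1 (pd 2 M) x = s12
  generalize W x * pd 1 (pd 3 M) x = s13
  generalize W x * pd 2 (pd 3 M) x = s23
  generalize mu M W 0 x = a
  generalize mu M W 1 x = b
  generalize mu M W 2 x = c
  generalize mu M W 3 x = d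
  have c4 : ∀ x y z w : 𝔸, τ (x * (y * (z * w))) = τ (y * (z * (w * x))) := fun x y z w => by
    rw [hτ]; simp only [mul_assoc]
  have c3 : ∀ x y z : 𝔸, τ (x * (y * z)) = τ (y * (z * x)) := fun x y z => by
    rw [hτ]; simp only [mul_assoc]
  simp only [mul_sub, sub_mul, mul_add, mul_assoc, map_sub, map_add]
  linear_combination -1 * c4 b c a d + 1 * c4 b d a c - 1 * c4 c a b d + 1 * c3 c b s03 +
    1 * c4 d a b c - 1 * c3 d b s02 + 1 * c3 s02 b d - 1 * c3 s02 d b - 1 * c3 s03 b c +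
    1 * c3 s03 c b

end family

/-! ## The divergence theorem -/

lemma stokes (b : V4) (hb : 0 ≤ b) (f : Fin 4 → V4 → ℝ) (hf : ∀ i, ContDiff ℝ ⊤ (f i)) :
    ∫ x in Icc 0 b, ∑ i, pd i (f i) x =
      ∑ i : Fin 4, ((∫ y in Icc (0 : Fin 3 → ℝ) (b ∘ i.succAbove), f i (i.insertNth (b i) y)) -
        ∫ y in Icc (0 : Fin 3 → ℝ) (b ∘ i.succAbove), f i (i.insertNth 0 y)) := by
  have hc : Continuous fun x => ∑ i, pd i (f i) x :=
    continuous_finsetSum _ fun i _ => (contDiff_pd (hf i) i).continuous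
  exact integral_divergence_of_hasFDerivAt_off_countable' 0 b hb f (fun i x => fderiv ℝ (f i) x) ∅
    countable_empty (fun i => (hf i).continuous.continuousOn)
    (fun x _ i => (((hf i).differentiable (by simp)) x).hasFDerivAt)
    (hc.continuousOn.integrableOn_compact isCompact_Icc)

/-! ## The family -/

open Real

/-- The family `cos φ (cos θ₀ + sin θ₀ J) + sin φ A (cos θ₁ + sin θ₁ J) + t C`. -/
noncomputable def fam (J A C : 𝔸) (x : V4) : 𝔸 :=
  (cos (x 1) * cos (x 2)) • 1 + (cos (x 1) * sin (x 2)) • J + (sin (x 1) * cos (x 3)) • A +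
    (sin (x 1) * sin (x 3)) • (A * J) + x 0 • C

lemma contDiff_fam (J A C : 𝔸) : ContDiff ℝ ⊤ (fam J A C) := by
  unfold fam
  fun_prop

lemma diff_fam (J A C : 𝔸) (x : V4) : DifferentiableAt ℝ (fam J A C) x :=
  ((contDiff_fam J A C).differentiable (by simp)) x

lemma pd0_fam (J A C : 𝔸) (x : V4) : pd 0 (fam J A C) x = C := by
  refine pd_eq_of_hasDerivAt (diff_fam J A C x) ?_
  have h : (fun s => fam J A C (Function.update x 0 s)) = fun s =>
      (cos (x 1) * cos (x 2)) • (1 : 𝔸) + (cos (x 1) * sin (x 2)) • J +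
      (sin (x 1) * cos (x 3)) • A + (sin (x 1) * sin (x 3)) • (A * J) + s • C := by
    funext s
    simp [fam]
  rw [h]
  simpa using ((hasDerivAt_id (x 0)).smul_const C).const_add
    ((cos (x 1) * cos (x 2)) • (1 : 𝔸) + (cos (x 1) * sin (x 2)) • J +
      (sin (x 1) * cos (x 3)) • A + (sin (x 1) * sin (x 3)) • (A * J))

lemma pd1_fam (J A C : 𝔸) (x : V4) : pd 1 (fam J A C) x =
    (-sin (x 1) * cos (x 2)) • 1 + (-sin (x 1) * sin (x 2)) • J + (cos (x 1) * cos (x 3)) • A +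
    (cos (x 1) * sin (x 3)) • (A * J) := by
  refine pd_eq_of_hasDerivAt (diff_fam J A C x) ?_
  have h : (fun s => fam J A C (Function.update x 1 s)) = fun s =>
      (cos s * cos (x 2)) • (1 : 𝔸) + (cos s * sin (x 2)) • J +
      (sin s * cos (x 3)) • A + (sin s * sin (x 3)) • (A * J) + x 0 • C := by
    funext s
    simp [fam]
  rw [h]
  exact ((((((hasDerivAt_cos (x 1)).mul_const _).smul_const _).add
    (((hasDerivAt_cos (x 1)).mul_const _).smul_const _)).add
    (((hasDerivAt_sin (x 1)).mul_const _).smul_const _)).add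
    (((hasDerivAt_sin (x 1)).mul_const _).smul_const _)).add_const _

lemma pd2_fam (J A C : 𝔸) (x : V4) : pd 2 (fam J A C) x =
    (cos (x 1) * -sin (x 2)) • 1 + (cos (x 1) * cos (x 2)) • J := by
  refine pd_eq_of_hasDerivAt (diff_fam J A C x) ?_
  have h : (fun s => fam J A C (Function.update x 2 s)) = fun s =>
      (cos (x 1) * cos s) • (1 : 𝔸) + (cos (x 1) * sin s) • J +
      (sin (x 1) * cos (x 3)) • A + (sin (x 1) * sin (x 3)) • (A * J) + x 0 • C := by
    funext s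
    simp [fam]
  rw [h]
  exact (((((((hasDerivAt_cos (x 2)).const_mul _).smul_const _).add
    (((hasDerivAt_sin (x 2)).const_mul _).smul_const _)).add_const _)).add_const _).add_const _

lemma pd3_fam (J A C : 𝔸) (x : V4) : pd 3 (fam J A C) x =
    (sin (x 1) * -sin (x 3)) • A + (sin (x 1) * cos (x 3)) • (A * J) := by
  refine pd_eq_of_hasDerivAt (diff_fam J A C x) ?_
  have h : (fun s => fam J A C (Function.update x 3 s)) = fun s =>
      (cos (x 1) * cos (x 2)) • (1 : 𝔸) + (cos (x 1) * sin (x 2)) • J +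
      (sin (x 1) * cos s) • A + (sin (x 1) * sin s) • (A * J) + x 0 • C := by
    funext s
    simp [fam]
  rw [h]
  have h2 := ((((hasDerivAt_cos (x 3)).const_mul (sin (x 1))).smul_const A).const_add
    ((cos (x 1) * cos (x 2)) • (1 : 𝔸) + (cos (x 1) * sin (x 2)) • J)).add
    (((hasDerivAt_sin (x 3)).const_mul (sin (x 1))).smul_const (A * J))
  exact h2.add_const _

/-- At `t = 0` the family is complex linear. -/
lemma fam_mul_J (J A C : 𝔸) (hJ : J * J = -1) (x : V4) (hx : x 0 • C = 0) :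
    fam J A C x * J = pd 2 (fam J A C) x + pd 3 (fam J A C) x := by
  rw [pd2_fam, pd3_fam]
  simp only [fam, hx, add_zero, add_mul, smul_mul_assoc, one_mul, mul_assoc, hJ,
    mul_neg, mul_one, smul_neg, neg_smul]
  abel

/-- The inverse family. -/
noncomputable def inv (J A C : 𝔸) (x : V4) : 𝔸 := Ring.inverse (fam J A C x)

/-- The hypothesis: all nonzero elements of the five-dimensional space are units. -/
def Hyp (J A C : 𝔸) : Prop := ∀ a b c d t : ℝ, (a, b, c, d, t) ≠ (0, 0, 0, 0, 0) →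
  IsUnit (a • (1 : 𝔸) + b • J + c • A + d • (A * J) + t • C)

lemma isUnit_fam' (J A C : 𝔸) (h : ∀ a b c d : ℝ, ∀ t : ℝ, (a, b, c, d) ≠ (0, 0, 0, 0) →
    IsUnit (a • (1 : 𝔸) + b • J + c • A + d • (A * J) + t • C)) (x : V4) :
    IsUnit (fam J A C x) := by
  refine h _ _ _ _ _ ?_
  intro h0
  simp only [Prod.mk.injEq] at h0
  obtain ⟨h1, h2, h3, h4⟩ := h0
  have e1 := sin_sq_add_cos_sq (x 1)
  have e2 := sin_sq_add_cos_sq (x 2)
  have e3 := sin_sq_add_cos_sq (x 3)
  have e4 : cos (x 1) ^ 2 = (cos (x 1) * cos (x 2)) ^ 2 + (cos (x 1) * sin (x 2)) ^ 2 := by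
    linear_combination (-cos (x 1) ^ 2) * e2
  have e5 : sin (x 1) ^ 2 = (sin (x 1) * cos (x 3)) ^ 2 + (sin (x 1) * sin (x 3)) ^ 2 := by
    linear_combination (-sin (x 1) ^ 2) * e3
  rw [h1, h2] at e4
  rw [h3, h4] at e5
  rw [e4, e5] at e1
  norm_num at e1

lemma fam_mul_inv {J A C : 𝔸} (hu : ∀ x, IsUnit (fam J A C x)) (x : V4) :
    fam J A C x * inv J A C x = 1 := Ring.mul_inverse_cancel _ (hu x)

lemma inv_mul_fam {J A C : 𝔸} (hu : ∀ x, IsUnit (fam J A C x)) (x : V4) :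
    inv J A C x * fam J A C x = 1 := Ring.inverse_mul_cancel _ (hu x)

lemma contDiff_inv {J A C : 𝔸} [CompleteSpace 𝔸] (hu : ∀ x, IsUnit (fam J A C x)) :
    ContDiff ℝ ⊤ (inv J A C) := by
  rw [contDiff_iff_contDiffAt]
  intro x
  obtain ⟨U, hU⟩ := hu x
  have h1 : ContDiffAt ℝ ⊤ Ring.inverse (fam J A C x) := by
    rw [← hU]
    exact contDiffAt_ringInverse ℝ U
  exact h1.comp x (contDiff_fam J A C).contDiffAt

/-! ## Boundary values -/

lemma ins_ne {i j : Fin 4} (h : j ≠ i) (v v' : ℝ) (y : Fin 3 → ℝ) :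
    (i.insertNth v y : V4) j = (i.insertNth v' y : V4) j := by
  obtain ⟨k, rfl⟩ := Fin.exists_succAbove_eq h
  rw [Fin.insertNth_apply_succAbove, Fin.insertNth_apply_succAbove]

lemma ins_same (i : Fin 4) (v : ℝ) (y : Fin 3 → ℝ) : (i.insertNth v y : V4) i = v :=
  Fin.insertNth_apply_same (α := fun _ => ℝ) i v y

/-- The components of the Maurer-Cartan form of the family only depend on the angles modulo `2π`
and on `t C`. -/
lemma mu_congr (J A C C' : 𝔸) {x x' : V4} (h0 : x 0 • C = x' 0 • C') (h1 : x 1 = x' 1)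
    (h2 : cos (x 2) = cos (x' 2)) (h2' : sin (x 2) = sin (x' 2))
    (h3 : cos (x 3) = cos (x' 3)) (h3' : sin (x 3) = sin (x' 3)) (i : Fin 4) (hi : i ≠ 0 ∨ C = C') :
    mu (fam J A C) (inv J A C) i x = mu (fam J A C') (inv J A C') i x' := by
  have hf : fam J A C x = fam J A C' x' := by
    unfold fam
    rw [h0, h1, h2, h2', h3, h3']
  have hi' : inv J A C x = inv J A C' x' := by
    unfold inv
    rw [hf]
  have hp : pd i (fam J A C) x = pd i (fam J A C') x' := by
    fin_cases i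
    · rcases hi with hi | hi
      · exact absurd rfl hi
      · change pd 0 _ _ = pd 0 _ _
        rw [pd0_fam, pd0_fam, hi]
    · change pd 1 _ _ = pd 1 _ _
      rw [pd1_fam, pd1_fam, h1, h2, h2', h3, h3']
    · change pd 2 _ _ = pd 2 _ _
      rw [pd2_fam, pd2_fam, h1, h2, h2']
    · change pd 3 _ _ = pd 3 _ _
      rw [pd3_fam, pd3_fam, h1, h3, h3']
  unfold mu
  rw [hi', hp]

lemma mu_periodic (J A C : 𝔸) (k : Fin 4) (hk : k = 2 ∨ k = 3) (y : Fin 3 → ℝ) (i : Fin 4) :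
    mu (fam J A C) (inv J A C) i (k.insertNth (2 * π) y) =
      mu (fam J A C) (inv J A C) i (k.insertNth 0 y) := by
  rcases hk with rfl | rfl
  · refine mu_congr J A C C ?_ (ins_ne (by decide) _ _ _) ?_ ?_ ?_ ?_ i (Or.inr rfl)
    · rw [ins_ne (by decide) (2 * π) 0]
    · rw [ins_same, ins_same, cos_two_pi, cos_zero]
    · rw [ins_same, ins_same, sin_two_pi, sin_zero]
    · rw [ins_ne (by decide) (2 * π) 0]
    · rw [ins_ne (by decide) (2 * π) 0]
  · refine mu_congr J A C C ?_ (ins_ne (by decide) _ _ _) ?_ ?_ ?_ ?_ i (Or.inr rfl)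
    · rw [ins_ne (by decide) (2 * π) 0]
    · rw [ins_ne (by decide) (2 * π) 0]
    · rw [ins_ne (by decide) (2 * π) 0]
    · rw [ins_same, ins_same, cos_two_pi, cos_zero]
    · rw [ins_same, ins_same, sin_two_pi, sin_zero]

lemma mu2_face (J A C : 𝔸) {x : V4} (h : x 1 = π / 2) : mu (fam J A C) (inv J A C) 2 x = 0 := by
  unfold mu
  rw [pd2_fam, h, cos_pi_div_two]
  simp

lemma mu3_face (J A C : 𝔸) {x : V4} (h : x 1 = 0) : mu (fam J A C) (inv J A C) 3 x = 0 := by
  unfold mu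
  rw [pd3_fam, h, sin_zero]
  simp

/-- The upper corner of the box. -/
noncomputable def cor (T : ℝ) : V4 := ![T, π / 2, 2 * π, 2 * π]

lemma cor_nonneg {T : ℝ} (hT : 0 ≤ T) : 0 ≤ cor T := by
  intro i
  fin_cases i
  · exact hT
  · change (0 : ℝ) ≤ π / 2; positivity
  · change (0 : ℝ) ≤ 2 * π; positivity
  · change (0 : ℝ) ≤ 2 * π; positivity

/-- The face of the box orthogonal to the `t`-axis. -/
noncomputable def face0 : Set (Fin 3 → ℝ) := Icc 0 ![π / 2, 2 * π, 2 * π]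

lemma cor_succAbove (T : ℝ) : cor T ∘ (0 : Fin 4).succAbove = ![π / 2, 2 * π, 2 * π] := by
  funext i
  fin_cases i <;> rfl

section main

variable [CompleteSpace 𝔸] {J A C : 𝔸} (τ : 𝔸 →L[ℝ] ℝ) (hτ : ∀ a b, τ (a * b) = τ (b * a))

include hτ

/-- The integral of the three-form does not depend on `t`. -/
lemma integral_const (hu : ∀ x, IsUnit (fam J A C x)) {T : ℝ} (hT : 0 ≤ T) :
    ∫ y in face0, om τ (fam J A C) (inv J A C) 1 2 3 ((0 : Fin 4).insertNth T y) =
      ∫ y in face0, om τ (fam J A C) (inv J A C) 1 2 3 ((0 : Fin 4).insertNth 0 y) := by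
  set M := fam J A C with hM
  set W := inv J A C with hW
  have hMc : ContDiff ℝ ⊤ M := contDiff_fam J A C
  have hWc : ContDiff ℝ ⊤ W := contDiff_inv hu
  set f : Fin 4 → V4 → ℝ := ![om τ M W 1 2 3, fun x => - om τ M W 0 2 3 x, om τ M W 0 1 3,
    fun x => - om τ M W 0 1 2 x] with hf
  have hfc : ∀ i, ContDiff ℝ ⊤ (f i) := by
    intro i
    fin_cases i
    · exact contDiff_om τ hMc hWc 1 2 3
    · exact (contDiff_om τ hMc hWc 0 2 3).neg
    · exact contDiff_om τ hMc hWc 0 1 3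
    · exact (contDiff_om τ hMc hWc 0 1 2).neg
  have h := stokes (cor T) (cor_nonneg hT) f hfc
  have hdiv : ∀ x, ∑ i, pd i (f i) x = 0 := by
    intro x
    rw [Fin.sum_univ_four]
    have e0 : f 0 = om τ M W 1 2 3 := rfl
    have e1 : f 1 = fun x => - om τ M W 0 2 3 x := rfl
    have e2 : f 2 = om τ M W 0 1 3 := rfl
    have e3 : f 3 = fun x => - om τ M W 0 1 2 x := rfl
    rw [e0, e1, e2, e3, pd_neg, pd_neg]
    have := closed τ hτ hMc hWc (fam_mul_inv hu) (inv_mul_fam hu) x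
    linarith
  simp only [hdiv, integral_zero] at h
  rw [Fin.sum_univ_four] at h
  -- the faces orthogonal to the `φ`-axis
  have h1 : ∀ y, f 1 ((1 : Fin 4).insertNth (cor T 1) y) = 0 := by
    intro y
    change - om τ M W 0 2 3 _ = 0
    have : mu M W 2 ((1 : Fin 4).insertNth (cor T 1) y : V4) = 0 :=
      mu2_face J A C (by rw [ins_same]; rfl)
    simp [om, this]
  have h1' : ∀ y, f 1 ((1 : Fin 4).insertNth 0 y) = 0 := by
    intro y
    change - om τ M W 0 2 3 _ = 0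
    have : mu M W 3 ((1 : Fin 4).insertNth 0 y : V4) = 0 :=
      mu3_face J A C (by rw [ins_same])
    simp [om, this]
  have h2 : ∀ y, f 2 ((2 : Fin 4).insertNth (cor T 2) y) = f 2 ((2 : Fin 4).insertNth 0 y) := by
    intro y
    change om τ M W 0 1 3 ((2 : Fin 4).insertNth (2 * π) y) = om τ M W 0 1 3 _
    unfold om
    rw [mu_periodic J A C 2 (Or.inl rfl), mu_periodic J A C 2 (Or.inl rfl),
      mu_periodic J A C 2 (Or.inl rfl)]
  have h3 : ∀ y, f 3 ((3 : Fin 4).insertNth (cor T 3) y) = f 3 ((3 : Fin 4).insertNth 0 y) := by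
    intro y
    change - om τ M W 0 1 2 ((3 : Fin 4).insertNth (2 * π) y) = - om τ M W 0 1 2 _
    unfold om
    rw [mu_periodic J A C 3 (Or.inr rfl), mu_periodic J A C 3 (Or.inr rfl),
      mu_periodic J A C 3 (Or.inr rfl)]
  simp only [h1, h1', h2, h3, integral_zero, sub_self, add_zero] at h
  rw [cor_succAbove] at h
  have h4 := sub_eq_zero.1 h.symm
  exact h4

omit [CompleteSpace 𝔸] hτ in
/-- The three-form is small for large `t`. -/
lemma om_bound (hu : ∀ x, IsUnit (fam J A C x)) (hC : IsUnit C) :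
    ∃ T0 c : ℝ, 0 < T0 ∧ 0 ≤ c ∧ ∀ x : V4, T0 ≤ x 0 →
      ‖om τ (fam J A C) (inv J A C) 1 2 3 x‖ ≤ c / x 0 := by
  set K : ℝ := ‖(1 : 𝔸)‖ + ‖J‖ + ‖A‖ + ‖A * J‖ with hK
  have hK0 : 0 ≤ K := by positivity
  set Ci : 𝔸 := Ring.inverse C with hCi
  have hCC : Ci * C = 1 := Ring.inverse_mul_cancel _ hC
  set N : ℝ := ‖Ci‖ with hN
  have hN0 : 0 ≤ N := norm_nonneg _
  have hcoef : ∀ a b c d : ℝ, |a| ≤ 1 → |b| ≤ 1 → |c| ≤ 1 → |d| ≤ 1 →
      ‖a • (1 : 𝔸) + b • J + c • A + d • (A * J)‖ ≤ K := by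
    intro a b c d ha hb hc hd
    have e : ∀ (r : ℝ) (z : 𝔸), |r| ≤ 1 → ‖r • z‖ ≤ ‖z‖ := fun r z hr => by
      rw [norm_smul, Real.norm_eq_abs]
      exact mul_le_of_le_one_left (norm_nonneg _) hr
    calc _ ≤ ‖a • (1 : 𝔸)‖ + ‖b • J‖ + ‖c • A‖ + ‖d • (A * J)‖ := norm_add₄_le
      _ ≤ _ := by
        have := e a 1 ha
        have := e b J hb
        have := e c A hc
        have := e d (A * J) hd
        linarith
  have hab : ∀ a b : ℝ, |a| ≤ 1 → |b| ≤ 1 → |a * b| ≤ 1 := fun a b ha hb => by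
    rw [abs_mul]
    exact mul_le_one₀ ha (abs_nonneg _) hb
  have hcos : ∀ r : ℝ, |cos r| ≤ 1 := abs_cos_le_one
  have hsin : ∀ r : ℝ, |sin r| ≤ 1 := abs_sin_le_one
  have hsin' : ∀ r : ℝ, |-sin r| ≤ 1 := fun r => by rw [abs_neg]; exact hsin r
  have hp : ∀ x, ∀ i : Fin 4, i ≠ 0 → ‖pd i (fam J A C) x‖ ≤ K := by
    intro x i hi
    fin_cases i
    · exact absurd rfl hi
    · change ‖pd 1 _ _‖ ≤ _
      rw [pd1_fam]
      exact hcoef _ _ _ _ (hab _ _ (hsin' _) (hcos _)) (hab _ _ (hsin' _) (hsin _))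
        (hab _ _ (hcos _) (hcos _)) (hab _ _ (hcos _) (hsin _))
    · change ‖pd 2 _ _‖ ≤ _
      rw [pd2_fam]
      have := hcoef _ _ 0 0 (hab _ _ (hcos (x 1)) (hsin' (x 2))) (hab _ _ (hcos (x 1)) (hcos (x 2)))
        (by norm_num) (by norm_num)
      simpa using this
    · change ‖pd 3 _ _‖ ≤ _
      rw [pd3_fam]
      have := hcoef 0 0 _ _ (by norm_num) (by norm_num) (hab _ _ (hsin (x 1)) (hsin' (x 3)))
        (hab _ _ (hsin (x 1)) (hcos (x 3)))
      simpa using this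
  refine ⟨2 * (N * K) + 1, 2 * ‖τ‖ * (2 * N * K) ^ 3, by positivity, by positivity, fun x hx => ?_⟩
  have hx1 : 1 ≤ x 0 := by nlinarith [mul_nonneg hN0 hK0]
  have hx0 : 0 < x 0 := by linarith
  -- the bound of the inverse
  have hinv : ‖inv J A C x‖ ≤ 2 * N / x 0 := by
    set B : 𝔸 := (cos (x 1) * cos (x 2)) • 1 + (cos (x 1) * sin (x 2)) • J +
      (sin (x 1) * cos (x 3)) • A + (sin (x 1) * sin (x 3)) • (A * J) with hB
    have hBK : ‖B‖ ≤ K := hcoef _ _ _ _ (hab _ _ (hcos _) (hcos _)) (hab _ _ (hcos _) (hsin _))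
      (hab _ _ (hsin _) (hcos _)) (hab _ _ (hsin _) (hsin _))
    have hfB : fam J A C x = B + x 0 • C := rfl
    have h1 : Ci = Ci * B * inv J A C x + x 0 • inv J A C x := by
      have h2 : Ci * (fam J A C x * inv J A C x) = Ci := by rw [fam_mul_inv hu, mul_one]
      rw [hfB] at h2
      rw [← h2]
      conv_lhs => rw [← mul_assoc, mul_add, mul_smul_comm, hCC, add_mul, smul_mul_assoc, one_mul]
      rw [h2]
    have h3 : ‖x 0 • inv J A C x‖ ≤ N + N * K * ‖inv J A C x‖ := by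
      have h4 : x 0 • inv J A C x = Ci - Ci * B * inv J A C x := by
        rw [eq_sub_iff_add_eq, add_comm]
        exact h1.symm
      rw [h4]
      refine (norm_sub_le _ _).trans (add_le_add le_rfl ?_)
      refine (norm_mul_le _ _).trans ?_
      refine mul_le_mul_of_nonneg_right ?_ (norm_nonneg _)
      exact (norm_mul_le _ _).trans (mul_le_mul_of_nonneg_left hBK hN0)
    rw [norm_smul, Real.norm_eq_abs, abs_of_pos hx0] at h3
    rw [le_div_iff₀ hx0]
    nlinarith [norm_nonneg (inv J A C x), mul_nonneg hN0 hK0]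
  have hmu : ∀ i : Fin 4, i ≠ 0 → ‖mu (fam J A C) (inv J A C) i x‖ ≤ 2 * N * K / x 0 := by
    intro i hi
    refine (norm_mul_le _ _).trans ?_
    calc ‖inv J A C x‖ * ‖pd i (fam J A C) x‖ ≤ 2 * N / x 0 * K :=
          mul_le_mul hinv (hp x i hi) (norm_nonneg _) (by positivity)
      _ = _ := by ring
  set R : ℝ := 2 * N * K / x 0 with hR
  have hR0 : 0 ≤ R := by positivity
  have h12 := hmu 1 (by decide)
  have h22 := hmu 2 (by decide)
  have h32 := hmu 3 (by decide)
  have hcomm : ‖mu (fam J A C) (inv J A C) 2 x * mu (fam J A C) (inv J A C) 3 x -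
      mu (fam J A C) (inv J A C) 3 x * mu (fam J A C) (inv J A C) 2 x‖ ≤ 2 * (R * R) := by
    refine (norm_sub_le _ _).trans ?_
    have e1 := (norm_mul_le (mu (fam J A C) (inv J A C) 2 x)
      (mu (fam J A C) (inv J A C) 3 x)).trans (mul_le_mul h22 h32 (norm_nonneg _) hR0)
    have e2 := (norm_mul_le (mu (fam J A C) (inv J A C) 3 x)
      (mu (fam J A C) (inv J A C) 2 x)).trans (mul_le_mul h32 h22 (norm_nonneg _) hR0)
    linarith
  calc ‖om τ (fam J A C) (inv J A C) 1 2 3 x‖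
      ≤ ‖τ‖ * (‖mu (fam J A C) (inv J A C) 1 x‖ *
        ‖mu (fam J A C) (inv J A C) 2 x * mu (fam J A C) (inv J A C) 3 x -
          mu (fam J A C) (inv J A C) 3 x * mu (fam J A C) (inv J A C) 2 x‖) :=
        (τ.le_opNorm _).trans (mul_le_mul_of_nonneg_left (norm_mul_le _ _) (norm_nonneg _))
    _ ≤ ‖τ‖ * (R * (2 * (R * R))) :=
        mul_le_mul_of_nonneg_left (mul_le_mul h12 hcomm (norm_nonneg _) hR0) (norm_nonneg _)
    _ = 2 * ‖τ‖ * (2 * N * K) ^ 3 / (x 0) ^ 3 := by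
        rw [hR]
        field_simp
    _ ≤ 2 * ‖τ‖ * (2 * N * K) ^ 3 / x 0 := by
        apply div_le_div_of_nonneg_left (by positivity) hx0
        calc x 0 = x 0 * 1 * 1 := by ring
          _ ≤ x 0 * x 0 * x 0 := by gcongr
          _ = x 0 ^ 3 := by ring

/-- The integral vanishes. -/
lemma integral_zero' (hu : ∀ x, IsUnit (fam J A C x)) (hC : IsUnit C) :
    ∫ y in face0, om τ (fam J A C) (inv J A C) 1 2 3 ((0 : Fin 4).insertNth 0 y) = 0 := by
  obtain ⟨T0, c, hT0, hc, hb⟩ := om_bound τ hu hC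
  set v : ℝ := volume.real (face0) with hv
  have hfin : volume face0 < ⊤ := by
    unfold face0
    exact isCompact_Icc.measure_lt_top
  have h1 : ∀ T : ℝ, T0 ≤ T →
      ‖∫ y in face0, om τ (fam J A C) (inv J A C) 1 2 3 ((0 : Fin 4).insertNth 0 y)‖ ≤
        c * v / T := by
    intro T hT
    rw [← integral_const τ hτ hu (hT0.le.trans hT)]
    have h2 := norm_setIntegral_le_of_norm_le_const (μ := volume) (s := face0)
      (f := fun y => om τ (fam J A C) (inv J A C) 1 2 3 ((0 : Fin 4).insertNth T y)) (C := c / T)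
      hfin (fun y _ => by
        have h3 := hb ((0 : Fin 4).insertNth T y) (by rw [ins_same]; exact hT)
        rwa [ins_same] at h3)
    refine h2.trans (le_of_eq ?_)
    ring
  have h2 : Filter.Tendsto (fun T : ℝ => c * v / T) Filter.atTop (𝓝 0) :=
    tendsto_const_nhds.div_atTop Filter.tendsto_id
  have h3 := ge_of_tendsto h2 (Filter.eventually_atTop.2 ⟨T0, h1⟩)
  exact norm_le_zero_iff.1 h3

/-- The main theorem on families. -/
theorem trace_one_eq_zero (hJ : J * J = -1) (h : Hyp J A C) : τ 1 = 0 := by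
  have hu : ∀ x, IsUnit (fam J A C x) := isUnit_fam' J A C fun a b c d t h0 =>
    h a b c d t fun h1 => h0 (by
      simp only [Prod.mk.injEq] at h1 ⊢
      exact ⟨h1.1, h1.2.1, h1.2.2.1, h1.2.2.2.1⟩)
  have hC : IsUnit C := by
    have := h 0 0 0 0 1 (by simp)
    simpa using this
  have hu0 : ∀ x, IsUnit (fam J A 0 x) := isUnit_fam' J A 0 fun a b c d t h0 => by
    have := h a b c d 0 fun h1 => h0 (by
      simp only [Prod.mk.injEq] at h1 ⊢
      exact ⟨h1.1, h1.2.1, h1.2.2.1, h1.2.2.2.1⟩)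
    simpa using this
  have hG := integral_zero' τ hτ hu hC
  set M := fam J A (0 : 𝔸) with hM
  set W := inv J A (0 : 𝔸) with hW
  have hMc : ContDiff ℝ ⊤ M := contDiff_fam J A 0
  have hWc : ContDiff ℝ ⊤ W := contDiff_inv hu0
  have hmuc : ∀ i, ContDiff ℝ ⊤ (mu M W i) := contDiff_mu hMc hWc
  have hmud : ∀ i x, DifferentiableAt ℝ (mu M W i) x := fun i x =>
    ((hmuc i).differentiable (by simp)) x
  have homc : ContDiff ℝ ⊤ (om τ M W 1 2 3) := contDiff_om τ hMc hWc 1 2 3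
  have homd : ∀ x, DifferentiableAt ℝ (om τ M W 1 2 3) x := fun x =>
    (homc.differentiable (by simp)) x
  -- the contraction with `J`
  set τJ : 𝔸 →L[ℝ] ℝ := τ.comp (ContinuousLinearMap.mul ℝ 𝔸 J) with hτJ
  have hτJa : ∀ a, τJ a = τ (J * a) := fun a => rfl
  have hmu0 : ∀ x, mu M W 0 x = 0 := by
    intro x
    unfold mu
    rw [hM, pd0_fam, mul_zero]
  have hJx : ∀ x, mu M W 2 x + mu M W 3 x = J := by
    intro x
    have h1 := fam_mul_J J A (0 : 𝔸) hJ x (smul_zero _)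
    unfold mu
    rw [← mul_add, ← h1, ← mul_assoc, inv_mul_fam hu0, one_mul]
  -- the three-form is a divergence
  have hom : ∀ x, om τ M W 1 2 3 x = τJ (pd 2 (mu M W 1) x) - τJ (pd 1 (mu M W 2) x) := by
    intro x
    rw [pd_mu hMc hWc (fam_mul_inv hu0) (inv_mul_fam hu0),
      pd_mu hMc hWc (fam_mul_inv hu0) (inv_mul_fam hu0), pd_comm hMc 2 1, hτJa, hτJa]
    have h3 : mu M W 3 x = J - mu M W 2 x := by rw [← hJx x]; abel
    unfold om
    rw [h3]
    generalize mu M W 1 x = b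
    generalize mu M W 2 x = c
    generalize W x * pd 1 (pd 2 M) x = s
    have c3 : ∀ x y z : 𝔸, τ (x * (y * z)) = τ (y * (z * x)) := fun x y z => by
      rw [hτ]; simp only [mul_assoc]
    simp only [mul_sub, sub_mul, map_sub]
    linear_combination -1 * c3 J b c - 1 * c3 b J c
  have hpd0 : ∀ x, pd 0 (om τ M W 1 2 3) x = 0 := by
    intro x
    have h1 := closed τ hτ hMc hWc (fam_mul_inv hu0) (inv_mul_fam hu0) x
    have h2 : ∀ k l, om τ M W 0 k l = fun _ => 0 := by
      intro k l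
      funext x
      unfold om
      rw [hmu0, zero_mul, map_zero]
    have h3 : ∀ i, pd i (fun _ : V4 => (0 : ℝ)) x = 0 := by
      intro i
      unfold pd
      rw [fderiv_fun_const]
      rfl
    rw [h2, h2, h2, h3, h3, h3] at h1
    linarith
  -- Stokes
  set f : Fin 4 → V4 → ℝ := ![fun x => x 0 * om τ M W 1 2 3 x, fun x => τJ (mu M W 2 x),
    fun x => - τJ (mu M W 1 x), fun _ => 0] with hf
  have hx0c : ContDiff ℝ ⊤ fun x : V4 => x 0 := contDiff_apply ℝ ℝ 0
  have hfc : ∀ i, ContDiff ℝ ⊤ (f i) := by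
    intro i
    fin_cases i
    · exact hx0c.mul homc
    · exact τJ.contDiff.comp (hmuc 2)
    · exact (τJ.contDiff.comp (hmuc 1)).neg
    · exact contDiff_const
  have hst := stokes (cor 1) (cor_nonneg zero_le_one) f hfc
  have hdiv : ∀ x, ∑ i, pd i (f i) x = 0 := by
    intro x
    rw [Fin.sum_univ_four]
    have e0 : f 0 = fun x => x 0 * om τ M W 1 2 3 x := rfl
    have e1 : f 1 = fun x => τJ (mu M W 2 x) := rfl
    have e2 : f 2 = fun x => - τJ (mu M W 1 x) := rfl
    have e3 : f 3 = fun _ => 0 := rfl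
    have h0 : pd 0 (fun x : V4 => x 0) x = 1 := by
      refine pd_eq_of_hasDerivAt ((hx0c.differentiable (by simp)) x) ?_
      have h1 : (fun s => (Function.update x 0 s : V4) 0) = id := by funext s; simp
      rw [h1]
      exact hasDerivAt_id (x 0)
    have h3 : pd 3 (fun _ : V4 => (0 : ℝ)) x = 0 := by
      unfold pd
      rw [fderiv_fun_const]
      rfl
    have h00 := pd_mul (𝔸 := ℝ) (f := fun x : V4 => x 0) (g := om τ M W 1 2 3) (x := x)
      ((hx0c.differentiable (by simp)) x) (homd x) 0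
    rw [e0, e1, e2, e3, pd_neg, pd_clm τJ (hmud 2 x), pd_clm τJ (hmud 1 x), h3, h00, hpd0, h0]
    have := hom x
    linarith
  simp only [hdiv, integral_zero] at hst
  rw [Fin.sum_univ_four] at hst
  -- the face `x 0 = 1`
  have g0 : ∀ y, f 0 ((0 : Fin 4).insertNth (cor 1 0) y) =
      om τ (fam J A C) (inv J A C) 1 2 3 ((0 : Fin 4).insertNth 0 y) := by
    intro y
    have hy : ∀ i : Fin 4, i ≠ 0 → mu M W i ((0 : Fin 4).insertNth 1 y) =
        mu (fam J A C) (inv J A C) i ((0 : Fin 4).insertNth 0 y) := by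
      intro i hi
      have hh : ∀ j : Fin 4, j ≠ 0 → ((0 : Fin 4).insertNth 1 y : V4) j =
        ((0 : Fin 4).insertNth 0 y : V4) j := fun j hj => ins_ne hj _ _ _
      refine mu_congr J A 0 C ?_ (hh 1 (by decide)) ?_ ?_ ?_ ?_ i (Or.inl hi)
      · rw [ins_same, ins_same, smul_zero, zero_smul]
      · rw [hh 2 (by decide)]
      · rw [hh 2 (by decide)]
      · rw [hh 3 (by decide)]
      · rw [hh 3 (by decide)]
    change ((0 : Fin 4).insertNth 1 y : V4) 0 * om τ M W 1 2 3 ((0 : Fin 4).insertNth 1 y) = _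
    rw [ins_same, one_mul]
    unfold om
    rw [hy 1 (by decide), hy 2 (by decide), hy 3 (by decide)]
  have g0' : ∀ y, f 0 ((0 : Fin 4).insertNth 0 y) = 0 := by
    intro y
    change ((0 : Fin 4).insertNth 0 y : V4) 0 * _ = _
    rw [ins_same, zero_mul]
  have g1 : ∀ y, f 1 ((1 : Fin 4).insertNth (cor 1 1) y) = 0 := by
    intro y
    change τJ (mu M W 2 _) = 0
    have : mu M W 2 ((1 : Fin 4).insertNth (cor 1 1) y : V4) = 0 :=
      mu2_face J A 0 (by rw [ins_same]; rfl)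
    rw [this, map_zero]
  have g1' : ∀ y, f 1 ((1 : Fin 4).insertNth 0 y) = - τ 1 := by
    intro y
    change τJ (mu M W 2 _) = _
    have h3 : mu M W 3 ((1 : Fin 4).insertNth 0 y : V4) = 0 :=
      mu3_face J A 0 (by rw [ins_same])
    have h2 := hJx ((1 : Fin 4).insertNth 0 y)
    rw [h3, add_zero] at h2
    rw [h2, hτJa, hJ, map_neg]
  have g2 : ∀ y, f 2 ((2 : Fin 4).insertNth (cor 1 2) y) = f 2 ((2 : Fin 4).insertNth 0 y) := by
    intro y
    change - τJ (mu M W 1 ((2 : Fin 4).insertNth (2 * π) y)) = - τJ (mu M W 1 _)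
    rw [mu_periodic J A 0 2 (Or.inl rfl)]
  have g3 : ∀ x, f 3 x = 0 := fun x => rfl
  simp only [g0, g0', g1, g1', g2, g3, integral_zero, sub_self, add_zero, sub_zero, zero_sub,
    setIntegral_const] at hst
  rw [cor_succAbove] at hst
  change 0 = (∫ y in face0, om τ (fam J A C) (inv J A C) 1 2 3 ((0 : Fin 4).insertNth 0 y)) + _
    at hst
  rw [hG, zero_add, smul_neg, neg_neg, smul_eq_mul] at hst
  have hvol : volume.real (Icc (0 : Fin 3 → ℝ) (cor 1 ∘ (1 : Fin 4).succAbove)) ≠ 0 := by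
    have : Icc (0 : Fin 3 → ℝ) (cor 1 ∘ (1 : Fin 4).succAbove) =
        Icc (0 : Fin 3 → ℝ) ![1, 2 * π, 2 * π] := by
      congr 1
      funext i
      fin_cases i <;> rfl
    rw [this, Measure.real, Real.volume_Icc_pi_toReal (by
      intro i
      fin_cases i
      · exact zero_le_one
      · change (0 : ℝ) ≤ 2 * π; positivity
      · change (0 : ℝ) ≤ 2 * π; positivity)]
    rw [Fin.prod_univ_three]
    simp
  exact (mul_eq_zero.1 hst.symm).resolve_left hvol

end main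

end Pool.Agent.R844.MC
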