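import Mathlib
import Pool.Agent.R844.MC

/-!
# Matrix lattices of rank `2 m n` : auxiliary results

Singular values and kernels, simultaneous Diophantine approximation, and the reduction of the
existence of large real spaces of complex matrices of large rank to the family of
`Pool.Agent.R844.MC`.
-/

set_option autoImplicit false

namespace Pool.Agent.R844.MatLat

open Module

section sv0

open InnerProductSpace

section sv

variable {E : Type*} [NormedAddCommGroup E] [InnerProductSpace ℂ E] [FiniteDimensional ℂ E]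
  {F : Type*} [NormedAddCommGroup F] [InnerProductSpace ℂ F] [FiniteDimensional ℂ F]

lemma norm_sq_eq (T : E →ₗ[ℂ] F) {n : ℕ} (hn : finrank ℂ E = n) (x : E) :
    ‖T x‖ ^ 2 = ∑ i : Fin n, T.isSymmetric_adjoint_comp_self.eigenvalues hn i *
      ‖inner ℂ (T.isSymmetric_adjoint_comp_self.eigenvectorBasis hn i) x‖ ^ 2 := by
  set hT := T.isSymmetric_adjoint_comp_self
  set b := hT.eigenvectorBasis hn
  have h1 : ((‖T x‖ ^ 2 : ℝ) : ℂ) = inner ℂ x ((LinearMap.adjoint T ∘ₗ T) x) := by
    rw [LinearMap.comp_apply, LinearMap.adjoint_inner_right, inner_self_eq_norm_sq_to_K]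
    push_cast
    rfl
  have h2 := b.sum_inner_mul_inner x ((LinearMap.adjoint T ∘ₗ T) x)
  rw [← h2] at h1
  have h3 : ∀ i, inner ℂ x (b i) * inner ℂ (b i) ((LinearMap.adjoint T ∘ₗ T) x) =
      ((hT.eigenvalues hn i * ‖inner ℂ (b i) x‖ ^ 2 : ℝ) : ℂ) := by
    intro i
    have h4 := hT.eigenvectorBasis_apply_self_apply hn x i
    rw [b.repr_apply_apply, b.repr_apply_apply] at h4
    rw [h4]
    have h5 : inner ℂ x (b i) * inner ℂ (b i) x = ((‖inner ℂ (b i) x‖ ^ 2 : ℝ) : ℂ) := by
      rw [← inner_conj_symm x (b i), RCLike.conj_mul]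
      push_cast
      rfl
    push_cast
    push_cast at h5
    rw [← h5]
    simp only [RCLike.ofReal_eq_complex_ofReal] 
    ring
  rw [Finset.sum_congr rfl (fun i _ => h3 i)] at h1
  exact_mod_cast h1

lemma sv_le (T S : E →ₗ[ℂ] F) {n m : ℕ} (hn : finrank ℂ E = n) (hm : 1 ≤ m) (hmn : m ≤ n)
    (hS : m ≤ finrank ℂ (LinearMap.ker S)) {c : ℝ} (hc0 : 0 ≤ c)
    (hc : ∀ x, ‖T x - S x‖ ≤ c * ‖x‖) : T.singularValues (n - m) ≤ c := by
  set hT := T.isSymmetric_adjoint_comp_self
  set b := hT.eigenvectorBasis hn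
  have hle : n - m + 1 ≤ n := by omega
  let u : Fin (n - m + 1) → E := fun i => b (Fin.castLE hle i)
  have hu : LinearIndependent ℂ u :=
    b.orthonormal.linearIndependent.comp (Fin.castLE hle) (Fin.castLE_injective hle)
  let W := Submodule.span ℂ (Set.range u)
  have hW : finrank ℂ W = n - m + 1 := by
    rw [finrank_span_eq_card hu, Fintype.card_fin]
  obtain ⟨x, hx, hx0⟩ : ∃ x ∈ W ⊓ LinearMap.ker S, x ≠ 0 := by
    by_contra hcon
    push Not at hcon
    have h1 : Disjoint W (LinearMap.ker S) := by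
      rw [disjoint_iff, eq_bot_iff]
      intro x hx
      exact (Submodule.mem_bot ℂ).2 (hcon x hx)
    have h2 := Submodule.finrank_add_finrank_le_of_disjoint h1
    rw [hW, hn] at h2
    omega
  have hxS : S x = 0 := (Submodule.mem_inf.1 hx).2
  have hxW : x ∈ W := (Submodule.mem_inf.1 hx).1
  have hin : ∀ i : Fin n, n - m < (i : ℕ) → inner ℂ (b i) x = 0 := by
    intro i hi
    refine Submodule.span_induction (p := fun x _ => inner ℂ (b i) x = 0) ?_ ?_ ?_ ?_ hxW
    · rintro _ ⟨j, rfl⟩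
      refine b.orthonormal.2 ?_
      intro h
      have h2 := congrArg Fin.val h
      simp at h2
      have := j.2
      omega
    · simp
    · intro y z _ _ hy hz
      rw [inner_add_right, hy, hz, add_zero]
    · intro a y _ hy
      rw [inner_smul_right, hy, mul_zero]
  have h3 : (T.singularValues (n - m)) ^ 2 * ‖x‖ ^ 2 ≤ ‖T x‖ ^ 2 := by
    rw [norm_sq_eq T hn x, ← b.sum_sq_norm_inner_right x, Finset.mul_sum]
    refine Finset.sum_le_sum fun i _ => ?_
    by_cases hi : n - m < (i : ℕ)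
    · change _ * ‖inner ℂ (b i) x‖ ^ 2 ≤ _ * ‖inner ℂ (b i) x‖ ^ 2
      rw [hin i hi]
      simp
    · refine mul_le_mul_of_nonneg_right ?_ (by positivity)
      rw [T.sq_singularValues_fin hn ⟨n - m, by omega⟩]
      refine hT.eigenvalues_antitone hn ?_
      rw [Fin.le_def]
      simpa using hi
  have h4 : ‖T x‖ ≤ c * ‖x‖ := by
    have := hc x
    rwa [hxS, sub_zero] at this
  have h5 : ‖T x‖ ^ 2 ≤ (c * ‖x‖) ^ 2 := by
    gcongr
  have hxp : 0 < ‖x‖ := norm_pos_iff.2 hx0
  have h6 : (T.singularValues (n - m)) ^ 2 ≤ c ^ 2 := by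
    rw [mul_pow] at h5
    exact le_of_mul_le_mul_right (h3.trans h5) (by positivity)
  exact le_of_sq_le_sq h6 hc0

end sv

end sv0

section fam0

section fam

attribute [local instance] Matrix.linftyOpNormedRing Matrix.linftyOpNormedAlgebra

lemma no_fam_matrix {N : ℕ} [NeZero N] (J A C : Matrix (Fin N) (Fin N) ℝ) (hJ : J * J = -1)
    (h : ∀ a b c d t : ℝ, (a, b, c, d, t) ≠ (0, 0, 0, 0, 0) →
      IsUnit (a • (1 : Matrix (Fin N) (Fin N) ℝ) + b • J + c • A + d • (A * J) + t • C)) :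
    False := by
  have : CompleteSpace (Matrix (Fin N) (Fin N) ℝ) := FiniteDimensional.complete ℝ _
  let τ : Matrix (Fin N) (Fin N) ℝ →L[ℝ] ℝ :=
    LinearMap.toContinuousLinearMap (Matrix.traceLinearMap (Fin N) ℝ ℝ)
  have hτ : ∀ a b, τ (a * b) = τ (b * a) := by
    intro a b
    exact Matrix.trace_mul_comm a b
  have h1 := Pool.Agent.R844.MC.trace_one_eq_zero τ hτ hJ h
  have h2 : τ 1 = (N : ℝ) := by
    change Matrix.trace (1 : Matrix (Fin N) (Fin N) ℝ) = N
    rw [Matrix.trace_one, Fintype.card_fin]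
  have h3 : (N : ℝ) = 0 := h2.symm.trans h1
  exact NeZero.ne N (by exact_mod_cast h3)

end fam

lemma no_fam_matrix_left {N : ℕ} [NeZero N] (J A C : Matrix (Fin N) (Fin N) ℝ) (hJ : J * J = -1)
    (h : ∀ a b c d t : ℝ, (a, b, c, d, t) ≠ (0, 0, 0, 0, 0) →
      IsUnit (a • (1 : Matrix (Fin N) (Fin N) ℝ) + b • J + c • A + d • (J * A) + t • C)) :
    False := by
  refine no_fam_matrix J.transpose A.transpose C.transpose ?_ ?_
  · rw [← Matrix.transpose_mul, hJ, Matrix.transpose_neg, Matrix.transpose_one]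
  · intro a b c d t hne
    have h1 := h a b c d t hne
    rw [← Matrix.isUnit_transpose] at h1
    simpa [Matrix.transpose_add, Matrix.transpose_smul, Matrix.transpose_mul] using h1

section lin

variable {E : Type*} [AddCommGroup E] [Module ℝ E] [FiniteDimensional ℝ E] [Nontrivial E]

lemma no_fam_end (J A C : Module.End ℝ E) (hJ : J * J = -1)
    (h : ∀ a b c d t : ℝ, (a, b, c, d, t) ≠ (0, 0, 0, 0, 0) →
      IsUnit (a • (1 : Module.End ℝ E) + b • J + c • A + d • (A * J) + t • C)) :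
    False := by
  have : NeZero (finrank ℝ E) := ⟨(finrank_pos).ne'⟩
  let φ := LinearMap.toMatrixAlgEquiv (finBasis ℝ E)
  refine no_fam_matrix (φ J) (φ A) (φ C) ?_ ?_
  · rw [← map_mul, hJ, map_neg, map_one]
  · intro a b c d t hne
    have h1 := (h a b c d t hne).map φ
    simpa only [map_add, map_smul, map_mul, map_one] using h1

lemma no_fam_end_left (J A C : Module.End ℝ E) (hJ : J * J = -1)
    (h : ∀ a b c d t : ℝ, (a, b, c, d, t) ≠ (0, 0, 0, 0, 0) →
      IsUnit (a • (1 : Module.End ℝ E) + b • J + c • A + d • (J * A) + t • C)) :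
    False := by
  have : NeZero (finrank ℝ E) := ⟨(finrank_pos).ne'⟩
  let φ := LinearMap.toMatrixAlgEquiv (finBasis ℝ E)
  refine no_fam_matrix_left (φ J) (φ A) (φ C) ?_ ?_
  · rw [← map_mul, hJ, map_neg, map_one]
  · intro a b c d t hne
    have h1 := (h a b c d t hne).map φ
    simpa only [map_add, map_smul, map_mul, map_one] using h1

variable {F : Type*} [AddCommGroup F] [Module ℝ F] [FiniteDimensional ℝ F]

lemma no_fam_right (hEF : finrank ℝ E = finrank ℝ F) (J : E →ₗ[ℝ] E) (hJ : ∀ x, J (J x) = - x)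
    (B0 B1 B2 : E →ₗ[ℝ] F)
    (h : ∀ a b c d t : ℝ, (a, b, c, d, t) ≠ (0, 0, 0, 0, 0) → ∀ x : E,
      a • B0 x + b • B0 (J x) + c • B1 x + d • B1 (J x) + t • B2 x = 0 → x = 0) : False := by
  have hinj : Function.Injective B0 := by
    rw [← LinearMap.ker_eq_bot, LinearMap.ker_eq_bot']
    intro x hx
    exact h 1 0 0 0 0 (by simp) x (by simp [hx])
  let e : E ≃ₗ[ℝ] F := LinearMap.linearEquivOfInjective B0 hinj hEF
  have he : ∀ x, e x = B0 x := fun x => rfl
  refine no_fam_end J (e.symm.toLinearMap ∘ₗ B1) (e.symm.toLinearMap ∘ₗ B2) ?_ ?_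
  · ext x
    simp [hJ]
  · intro a b c d t hne
    rw [LinearMap.isUnit_iff_ker_eq_bot, LinearMap.ker_eq_bot']
    intro x hx
    refine h a b c d t hne x ?_
    have h1 : e (a • x + b • J x + c • e.symm (B1 x) + d • e.symm (B1 (J x)) +
      t • e.symm (B2 x)) = e 0 := congrArg e hx
    simp only [map_add, map_smul, e.apply_symm_apply, map_zero] at h1
    exact h1

lemma no_fam_left (hEF : finrank ℝ F = finrank ℝ E) (J : E →ₗ[ℝ] E) (hJ : ∀ x, J (J x) = - x)
    (B0 B1 B2 : F →ₗ[ℝ] E)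
    (h : ∀ a b c d t : ℝ, (a, b, c, d, t) ≠ (0, 0, 0, 0, 0) → ∀ x : F,
      a • B0 x + b • J (B0 x) + c • B1 x + d • J (B1 x) + t • B2 x = 0 → x = 0) : False := by
  have hinj : Function.Injective B0 := by
    rw [← LinearMap.ker_eq_bot, LinearMap.ker_eq_bot']
    intro x hx
    exact h 1 0 0 0 0 (by simp) x (by simp [hx])
  let e : F ≃ₗ[ℝ] E := LinearMap.linearEquivOfInjective B0 hinj hEF
  have he : ∀ x, e x = B0 x := fun x => rfl
  refine no_fam_end_left J (B1 ∘ₗ e.symm.toLinearMap) (B2 ∘ₗ e.symm.toLinearMap) ?_ ?_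
  · ext x
    simp [hJ]
  · intro a b c d t hne
    rw [LinearMap.isUnit_iff_ker_eq_bot, LinearMap.ker_eq_bot']
    intro x hx
    obtain ⟨y, rfl⟩ := e.surjective x
    have h1 : y = 0 := by
      refine h a b c d t hne y ?_
      have h2 : a • e y + b • J (e y) + c • B1 (e.symm (e y)) + d • J (B1 (e.symm (e y))) +
        t • B2 (e.symm (e y)) = 0 := hx
      simp only [e.symm_apply_apply] at h2
      exact h2
    rw [h1, map_zero]

end lin

end fam0

section dio0

open Filter Topology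

lemma exists_dioph {k : ℕ} (c : Fin k → ℝ) {ε : ℝ} (hε : 0 < ε) :
    ∃ t : ℕ, 1 ≤ t ∧ ∃ z : Fin k → ℤ, ∀ i, |(t : ℝ) * c i - z i| < ε := by
  let x : ℕ → Fin k → ℝ := fun j i => Int.fract ((j : ℝ) * c i)
  have hK : IsCompact (Set.Icc (0 : Fin k → ℝ) 1) := isCompact_Icc
  have hx : ∀ j, x j ∈ Set.Icc (0 : Fin k → ℝ) 1 := by
    intro j
    exact ⟨fun i => Int.fract_nonneg _, fun i => (Int.fract_lt_one _).le⟩
  obtain ⟨a, -, φ, hφ, hlim⟩ := hK.tendsto_subseq hx
  have h1 : ∀ᶠ N in atTop, dist ((x ∘ φ) N) a < ε / 2 :=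
    hlim.eventually (Metric.ball_mem_nhds a (half_pos hε))
  obtain ⟨N, hN⟩ := eventually_atTop.1 h1
  have h2 := hN N le_rfl
  have h3 := hN (N + 1) (by omega)
  have hlt : φ N < φ (N + 1) := hφ (by omega)
  refine ⟨φ (N + 1) - φ N, by omega, fun i => ⌊(φ (N + 1) : ℝ) * c i⌋ - ⌊(φ N : ℝ) * c i⌋, ?_⟩
  intro i
  have h4 : dist (x (φ (N + 1))) (x (φ N)) < ε := by
    calc dist (x (φ (N + 1))) (x (φ N)) ≤ dist (x (φ (N + 1))) a + dist (x (φ N)) a :=
          dist_triangle_right _ _ _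
      _ < ε / 2 + ε / 2 := add_lt_add h3 h2
      _ = ε := by ring
  have h5 := (dist_le_pi_dist (x (φ (N + 1))) (x (φ N)) i).trans_lt h4
  rw [Real.dist_eq] at h5
  have h6 : ((φ (N + 1) - φ N : ℕ) : ℝ) * c i -
      ((⌊(φ (N + 1) : ℝ) * c i⌋ - ⌊(φ N : ℝ) * c i⌋ : ℤ) : ℝ) =
      x (φ (N + 1)) i - x (φ N) i := by
    simp only [x, Int.fract]
    rw [Nat.cast_sub hlt.le]
    push_cast
    ring
  rw [h6]
  exact h5

/-- The operator of a matrix. -/
noncomputable def op (n : ℕ) : Matrix (Fin n) (Fin n) ℂ →ₗ[ℂ]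
    (EuclideanSpace ℂ (Fin n) →L[ℂ] EuclideanSpace ℂ (Fin n)) :=
  LinearMap.toContinuousLinearMap.toLinearMap ∘ₗ
    (Matrix.toEuclideanLin (𝕜 := ℂ) (m := Fin n) (n := Fin n)).toLinearMap

lemma op_apply {n : ℕ} (X : Matrix (Fin n) (Fin n) ℂ) (x : EuclideanSpace ℂ (Fin n)) :
    op n X x = Matrix.toEuclideanLin X x := rfl

lemma op_eq_zero {n : ℕ} {X : Matrix (Fin n) (Fin n) ℂ} (h : op n X = 0) : X = 0 := by
  have h1 : Matrix.toEuclideanLin X = 0 := by
    ext1 x
    have := congrArg (fun T => T x) h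
    simpa [op_apply] using this
  exact (LinearEquiv.map_eq_zero_iff _).1 h1

lemma real_smul_eq {n : ℕ} (c : ℝ) (X : Matrix (Fin n) (Fin n) ℂ) : c • X = (c : ℂ) • X := by
  ext r s
  simp

lemma exists_lattice_point {k n : ℕ} (B : Fin k → Matrix (Fin n) (Fin n) ℂ) (c : Fin k → ℝ)
    (hv : ∑ i, c i • B i ≠ 0) {δ : ℝ} (hδ : 0 < δ) :
    ∃ t : ℕ, 1 ≤ t ∧ ∃ z : Fin k → ℤ, ∑ i, z i • B i ≠ 0 ∧
      ‖op n (∑ i, z i • B i - (t : ℂ) • ∑ i, c i • B i)‖ ≤ δ := by
  set v := ∑ i, c i • B i with hvdef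
  have hTv : 0 < ‖op n v‖ := norm_pos_iff.2 (fun h => hv (op_eq_zero h))
  set K := ∑ i, ‖op n (B i)‖ with hK
  have hK0 : 0 ≤ K := Finset.sum_nonneg fun i _ => norm_nonneg _
  set ε := min δ ‖op n v‖ / (K + 1) with hε
  have hεpos : 0 < ε := div_pos (lt_min hδ hTv) (by linarith)
  have hεK : ε * (K + 1) = min δ ‖op n v‖ := by
    rw [hε]
    field_simp
  obtain ⟨t, ht, z, hz⟩ := exists_dioph c hεpos
  have hX : ∑ i, z i • B i - (t : ℂ) • v = ∑ i, (((z i : ℝ) - t * c i : ℝ) : ℂ) • B i := by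
    rw [hvdef, Finset.smul_sum, ← Finset.sum_sub_distrib]
    refine Finset.sum_congr rfl fun i _ => ?_
    ext r s
    rw [Matrix.sub_apply, Matrix.smul_apply, Matrix.smul_apply, Matrix.smul_apply,
      Matrix.smul_apply, zsmul_eq_mul, Complex.real_smul, smul_eq_mul, smul_eq_mul]
    push_cast
    ring
  have hle : ‖op n (∑ i, z i • B i - (t : ℂ) • v)‖ ≤ ε * K := by
    rw [hX, hK, Finset.mul_sum, map_sum]
    refine (norm_sum_le _ _).trans (Finset.sum_le_sum fun i _ => ?_)
    rw [map_smul, norm_smul, Complex.norm_real, Real.norm_eq_abs, abs_sub_comm]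
    exact mul_le_mul_of_nonneg_right (hz i).le (norm_nonneg _)
  have hlt : ε * K < min δ ‖op n v‖ := by
    rw [← hεK]
    nlinarith
  refine ⟨t, ht, z, ?_, (hle.trans_lt hlt).le.trans (min_le_left _ _)⟩
  intro h0
  rw [h0, zero_sub, map_neg, norm_neg, map_smul, norm_smul] at hle
  have h1 : ‖op n v‖ ≤ ‖(t : ℂ)‖ * ‖op n v‖ := by
    have : (1 : ℝ) ≤ ‖(t : ℂ)‖ := by
      rw [Complex.norm_natCast]
      exact_mod_cast ht
    nlinarith
  have h2 : ε * K < ‖op n v‖ := hlt.trans_le (min_le_right _ _)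
  linarith

end dio0

section cases0

/-- Multiplication by `i`. -/
noncomputable def mulI (n : ℕ) : (Fin n → ℂ) →ₗ[ℝ] (Fin n → ℂ) :=
  (LinearMap.lsmul ℂ (Fin n → ℂ) Complex.I).restrictScalars ℝ

lemma mulI_apply {n : ℕ} (x : Fin n → ℂ) (s : Fin n) : mulI n x s = Complex.I * x s := rfl

lemma mulI_mulI {n : ℕ} (x : Fin n → ℂ) : mulI n (mulI n x) = - x := by
  funext s
  rw [mulI_apply, mulI_apply, ← mul_assoc, Complex.I_mul_I, neg_one_mul, Pi.neg_apply]

/-- A matrix whose first `m + 1` rows are proportional to one row has a kernel of dimension at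
least `m`. -/
lemma le_finrank_ker {n m : ℕ} (hmn : m < n) (v : Matrix (Fin n) (Fin n) ℂ)
    (y : Fin n → ℂ) (ξ : Fin n → ℂ) (hv : ∀ r : Fin n, (r : ℕ) < m + 1 → ∀ s, v r s = y r * ξ s) :
    m ≤ finrank ℂ (LinearMap.ker (Matrix.toEuclideanLin v)) := by
  let g : EuclideanSpace ℂ (Fin n) →ₗ[ℂ] ℂ × (Fin (n - m - 1) → ℂ) :=
    { toFun := fun x => (∑ s, ξ s * x s,
        fun r => Matrix.toEuclideanLin v x ⟨m + 1 + r, by have := r.2; omega⟩)
      map_add' := by
        intro x x'
        ext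
        · simp [mul_add, Finset.sum_add_distrib]
        · simp
      map_smul' := by
        intro a x
        ext
        · simp only [PiLp.smul_apply, smul_eq_mul, RingHom.id_apply, Prod.smul_fst,
            Finset.mul_sum]
          refine Finset.sum_congr rfl fun s _ => ?_
          ring
        · simp }
  have h1 : LinearMap.ker g ≤ LinearMap.ker (Matrix.toEuclideanLin v) := by
    intro x hx
    rw [LinearMap.mem_ker] at hx ⊢
    have hx1 : ∑ s, ξ s * x s = 0 := congrArg Prod.fst hx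
    have hx2 := congrArg Prod.snd hx
    ext r
    by_cases hr : (r : ℕ) < m + 1
    · have h3 : Matrix.toEuclideanLin v x r = ∑ s, v r s * x s := rfl
      rw [h3]
      have h4 : ∑ s, v r s * x s = y r * ∑ s, ξ s * x s := by
        rw [Finset.mul_sum]
        refine Finset.sum_congr rfl fun s _ => ?_
        rw [hv r hr s, mul_assoc]
      rw [h4, hx1, mul_zero]
      rfl
    · have h3 := congrFun hx2 ⟨r - (m + 1), by have := r.2; omega⟩
      have h4 : (⟨m + 1 + ((r : ℕ) - (m + 1)), by have := r.2; omega⟩ : Fin n) = r := by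
        ext
        simp only
        omega
      have h5 : Matrix.toEuclideanLin v x (⟨m + 1 + ((r : ℕ) - (m + 1)), by have := r.2; omega⟩ : Fin n) = 0 := h3
      rw [h4] at h5
      exact h5
  have h2 := Submodule.finrank_mono h1
  have h3 := LinearMap.finrank_range_add_finrank_ker g
  have h4 : finrank ℂ (LinearMap.range g) ≤ finrank ℂ (ℂ × (Fin (n - m - 1) → ℂ)) :=
    Submodule.finrank_le _
  rw [Module.finrank_prod, Module.finrank_self, Module.finrank_fin_fun] at h4
  rw [finrank_euclideanSpace_fin] at h3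
  omega

/-- The linear combinations. -/
noncomputable def comb {k n : ℕ} (B : Fin k → Matrix (Fin n) (Fin n) ℂ) :
    (Fin k → ℝ) →ₗ[ℝ] Matrix (Fin n) (Fin n) ℂ := Fintype.linearCombination ℝ B

lemma comb_apply {k n : ℕ} (B : Fin k → Matrix (Fin n) (Fin n) ℂ) (c : Fin k → ℝ) :
    comb B c = ∑ i, c i • B i := by
  rw [comb, Fintype.linearCombination_apply]

lemma finrank_fun_complex (n : ℕ) : finrank ℝ (Fin n → ℂ) = 2 * n := by
  rw [Module.finrank_pi_fintype, Finset.sum_const, Complex.finrank_real_complex]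
  simp [mul_comm]

lemma finrank_matrix_complex (p n : ℕ) : finrank ℝ (Matrix (Fin p) (Fin n) ℂ) = p * (2 * n) := by
  have : finrank ℝ (Matrix (Fin p) (Fin n) ℂ) = finrank ℝ (Fin p → Fin n → ℂ) := rfl
  rw [this, Module.finrank_pi_fintype, Finset.sum_const, finrank_fun_complex]
  simp

/-- The vector `(a + b i, c + d i, t, 0, …)`. -/
noncomputable def yv (a b c d t : ℝ) (j : ℕ) : ℂ :=
  if j = 0 then (a + b * Complex.I : ℂ) else if j = 1 then (c + d * Complex.I : ℂ)
    else if j = 2 then (t : ℂ) else 0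

lemma yv0 (a b c d t : ℝ) : yv a b c d t 0 = a + b * Complex.I := rfl
lemma yv1 (a b c d t : ℝ) : yv a b c d t 1 = c + d * Complex.I := rfl
lemma yv2 (a b c d t : ℝ) : yv a b c d t 2 = t := rfl
lemma yv3 (a b c d t : ℝ) (j : ℕ) : yv a b c d t (j + 3) = 0 := by
  rw [yv, if_neg (by omega), if_neg (by omega), if_neg (by omega)]

lemma yv_ne {a b c d t : ℝ} (e0 : yv a b c d t 0 = 0) (e1 : yv a b c d t 1 = 0)
    (e2 : yv a b c d t 2 = 0) : (a, b, c, d, t) = (0, 0, 0, 0, 0) := by
  rw [yv0] at e0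
  rw [yv1] at e1
  rw [yv2] at e2
  have f0 := congrArg Complex.re e0
  have g0 := congrArg Complex.im e0
  have f1 := congrArg Complex.re e1
  have g1 := congrArg Complex.im e1
  simp at f0 g0 f1 g1 e2
  simp [f0, g0, f1, g1, e2]

/-- The case `m = 1`. -/
lemma case_one {n k : ℕ} (hn : 3 ≤ n) (hk : k = 2 * n) (B : Fin k → Matrix (Fin n) (Fin n) ℂ)
    (hB : ∀ c : Fin k → ℝ, c ≠ 0 →
      finrank ℂ (LinearMap.ker (Matrix.toEuclideanLin (comb B c))) < 1) : False := by
  have : NeZero n := ⟨by omega⟩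
  have : NeZero k := ⟨by omega⟩
  -- the column maps
  let col : Fin n → ((Fin k → ℝ) →ₗ[ℝ] (Fin n → ℂ)) := fun j =>
    { toFun := fun c r => comb B c r j
      map_add' := by
        intro c c'
        funext r
        simp
      map_smul' := by
        intro a c
        funext r
        simp }
  have hcol : ∀ j c r, col j c r = comb B c r j := fun _ _ _ => rfl
  refine no_fam_left (E := Fin n → ℂ) (F := Fin k → ℝ) ?_ (mulI n) mulI_mulI (col ⟨0, by omega⟩)
    (col ⟨1, by omega⟩) (col ⟨2, by omega⟩) ?_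
  · rw [finrank_fun_complex, Module.finrank_fin_fun, hk]
  · intro a b c d t hne x hx
    by_contra hx0
    have h1 := hB x hx0
    let y : EuclideanSpace ℂ (Fin n) := WithLp.toLp 2 (fun j => yv a b c d t j)
    have hyj : ∀ j : Fin n, y j = yv a b c d t j := fun _ => rfl
    have hy : y ∈ LinearMap.ker (Matrix.toEuclideanLin (comb B x)) := by
      rw [LinearMap.mem_ker]
      ext r
      have h2 : Matrix.toEuclideanLin (comb B x) y r = ∑ s, comb B x r s * y s := rfl
      rw [h2]
      have h3 := congrFun hx r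
      simp only [Pi.add_apply, Pi.smul_apply, mulI_apply, hcol, Complex.real_smul,
        Pi.zero_apply] at h3
      have h4 : ∑ s, comb B x r s * y s = comb B x r ⟨0, by omega⟩ * (a + b * Complex.I) +
          comb B x r ⟨1, by omega⟩ * (c + d * Complex.I) + comb B x r ⟨2, by omega⟩ * t := by
        obtain ⟨p, rfl⟩ : ∃ p, n = p + 3 := ⟨n - 3, by omega⟩
        rw [Fin.sum_univ_succ, Fin.sum_univ_succ, Fin.sum_univ_succ]
        have h5 : ∀ i : Fin p, y i.succ.succ.succ = 0 := by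
          intro i
          rw [hyj]
          exact yv3 a b c d t i
        simp only [h5, mul_zero, Finset.sum_const_zero, add_zero]
        have h6 : y 0 = a + b * Complex.I := yv0 a b c d t
        have h7 : y (Fin.succ 0) = c + d * Complex.I := yv1 a b c d t
        have h8 : y (Fin.succ (Fin.succ 0)) = t := yv2 a b c d t
        rw [h6, h7, h8]
        exact (add_assoc _ _ _).symm
      rw [h4]
      have h6 : (0 : EuclideanSpace ℂ (Fin n)) r = 0 := rfl
      rw [h6, ← h3]
      ring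
    have hy0 : y ≠ 0 := by
      intro h0
      apply hne
      exact yv_ne (congrFun (congrArg (WithLp.ofLp) h0) ⟨0, by omega⟩)
        (congrFun (congrArg (WithLp.ofLp) h0) ⟨1, by omega⟩)
        (congrFun (congrArg (WithLp.ofLp) h0) ⟨2, by omega⟩)
    have h7 : finrank ℂ (LinearMap.ker (Matrix.toEuclideanLin (comb B x))) = 0 := by omega
    rw [Submodule.finrank_eq_zero] at h7
    rw [h7, Submodule.mem_bot] at hy
    exact hy0 hy

/-- The case `m ≥ 2`. -/
lemma case_two {n m k : ℕ} (hm : 2 ≤ m) (hmn : m < n) (hk : k = 2 * m * n)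
    (B : Fin k → Matrix (Fin n) (Fin n) ℂ)
    (hB : ∀ c : Fin k → ℝ, c ≠ 0 →
      finrank ℂ (LinearMap.ker (Matrix.toEuclideanLin (comb B c))) < m) : False := by
  have : NeZero n := ⟨by omega⟩
  -- the first `m + 1` rows
  let P : (Fin k → ℝ) →ₗ[ℝ] Matrix (Fin (m + 1)) (Fin n) ℂ :=
    { toFun := fun c => Matrix.of fun r s => comb B c (Fin.castLE (by omega) r) s
      map_add' := by
        intro c c'
        ext r s
        simp
      map_smul' := by
        intro a c
        ext r s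
        simp }
  have hP : ∀ c r s, P c r s = comb B c (Fin.castLE (by omega) r) s := fun _ _ _ => rfl
  have hrank : ∀ (c : Fin k → ℝ) (y : Fin n → ℂ) (ξ : Fin n → ℂ),
      (∀ r s, P c r s = y (Fin.castLE (by omega) r) * ξ s) → c = 0 := by
    intro c y ξ h
    by_contra hc
    have h1 := hB c hc
    have h2 := le_finrank_ker hmn (comb B c) y ξ (by
      intro r hr s
      exact h ⟨r, hr⟩ s)
    omega
  have hPinj : Function.Injective P := by
    rw [← LinearMap.ker_eq_bot, LinearMap.ker_eq_bot']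
    intro c hc
    refine hrank c 0 0 ?_
    intro r s
    rw [hc]
    simp
  set U := LinearMap.range P with hU
  have hUrank : finrank ℝ U = k := by
    rw [hU, LinearMap.finrank_range_of_inj hPinj, Module.finrank_fin_fun]
  let q := U.mkQ
  let row : Fin (m + 1) → ((Fin n → ℂ) →ₗ[ℝ] (Matrix (Fin (m + 1)) (Fin n) ℂ)) := fun j =>
    { toFun := fun ξ => Matrix.of fun r s => if r = j then ξ s else 0
      map_add' := by
        intro x x'
        ext r s
        simp only [Pi.add_apply, Matrix.add_apply, Matrix.of_apply]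
        split_ifs <;> simp
      map_smul' := by
        intro a x
        ext r s
        simp }
  have hrow : ∀ j ξ r s, row j ξ r s = if r = j then ξ s else 0 := fun _ _ _ _ => rfl
  refine no_fam_right (E := Fin n → ℂ) (F := (Matrix (Fin (m + 1)) (Fin n) ℂ) ⧸ U) ?_ (mulI n)
    mulI_mulI (q ∘ₗ row ⟨0, by omega⟩) (q ∘ₗ row ⟨1, by omega⟩) (q ∘ₗ row ⟨2, by omega⟩) ?_
  · have h1 := Submodule.finrank_quotient_add_finrank U
    rw [hUrank, finrank_matrix_complex] at h1
    rw [finrank_fun_complex]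
    have h2 : (m + 1) * (2 * n) = 2 * n + k := by
      rw [hk]
      ring
    omega
  · intro a b c d t hne ξ hξ
    simp only [LinearMap.comp_apply, ← map_smul q, ← map_add q] at hξ
    have h1 : _ ∈ U := (Submodule.Quotient.mk_eq_zero U).1 hξ
    obtain ⟨c', hc'⟩ := h1
    let y : Fin n → ℂ := fun j => yv a b c d t j
    have h2 : ∀ r s, P c' r s = y (Fin.castLE (by omega) r) * ξ s := by
      intro r s
      rw [hc']
      simp only [Matrix.add_apply, Matrix.smul_apply, hrow, mulI_apply, Complex.real_smul, y,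
        Fin.val_castLE, Fin.ext_iff]
      rcases r with ⟨r, hr⟩
      simp only
      rcases r with _ | _ | _ | r
      · simp [yv0]; ring
      · simp [yv1]; ring
      · simp [yv2]
      · simp [yv3]
    have h3 := hrank c' y ξ h2
    have h4 : ∀ r : Fin (m + 1), ∀ s, y (Fin.castLE (by omega) r) * ξ s = 0 := by
      intro r s
      rw [← h2 r s, h3, map_zero]
      rfl
    by_contra hξ0
    obtain ⟨s, hs⟩ : ∃ s, ξ s ≠ 0 := by
      by_contra hcon
      push Not at hcon
      exact hξ0 (funext hcon)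
    apply hne
    exact yv_ne ((mul_eq_zero.1 (h4 ⟨0, by omega⟩ s)).resolve_right hs)
      ((mul_eq_zero.1 (h4 ⟨1, by omega⟩ s)).resolve_right hs)
      ((mul_eq_zero.1 (h4 ⟨2, by omega⟩ s)).resolve_right hs)

end cases0

end Pool.Agent.R844.MatLat
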